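import Pool.Agent.Zk79.LN.Cmp7

set_option autoImplicit false

/-! One or two nodes. -/

namespace Pool.Agent.Zk79.LN

open Pool.Agent.Zk79.LM

/-- one or two pieces -/
theorem le_two {D D' : Diagram} (h : D.IsSplice) (h' : D'.IsSplice) {φ φ' : ℂ}
    (ho : D.ohtsuki φ = D'.ohtsuki φ') (hn : D.n ≤ 1) : D' = D ∨ D' = D.swap := by
  rcases Nat.lt_or_ge 0 D.n with h1 | h1
  · exact two_all h h' ho (by omega)
  · exact Or.inl ((main h h' ho).2.2.2 (by omega)).symm

end Pool.Agent.Zk79.LN
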