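import Pool.Agent.Zk79.LM.Fin

set_option autoImplicit false
set_option maxHeartbeats 400000

/-! Finitely many coefficients. -/

namespace Pool.Agent.Zk79.LN

open PowerSeries Finset Pool.Agent.Zk79.LM Pool.Agent.Zk79.LM.Diagram MeasureTheory
open Pool.Agent.K3h96.OS (quantumTwo)

/-- twice the coefficient of the square of the variable in the logarithm -/
noncomputable def L2 {R : Type*} [CommRing R] (f : PowerSeries R) : R := 2 * coeff 2 f - coeff 1 f ^ 2

section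
variable {R : Type*} [CommRing R] {f g : PowerSeries R}

theorem coeff_zero_mul' (hf : coeff 0 f = 1) (hg : coeff 0 g = 1) : coeff 0 (f * g) = 1 := by
  have h : antidiagonal 0 = ({(0, 0)} : Finset (ℕ × ℕ)) := rfl
  rw [coeff_mul, h, sum_singleton, hf, hg, one_mul]

theorem coeff_one_mul' (hf : coeff 0 f = 1) (hg : coeff 0 g = 1) :
    coeff 1 (f * g) = coeff 1 f + coeff 1 g := by
  have h : antidiagonal 1 = ({(0, 1), (1, 0)} : Finset (ℕ × ℕ)) := rfl
  rw [coeff_mul, h, sum_insert (by decide), sum_singleton, hf, hg]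
  ring

theorem coeff_two_mul' (hf : coeff 0 f = 1) (hg : coeff 0 g = 1) :
    coeff 2 (f * g) = coeff 2 f + coeff 2 g + coeff 1 f * coeff 1 g := by
  have h : antidiagonal 2 = ({(0, 2), (1, 1), (2, 0)} : Finset (ℕ × ℕ)) := rfl
  rw [coeff_mul, h, sum_insert (by decide), sum_insert (by decide), sum_singleton, hf, hg]
  ring

theorem L2_mul (hf : coeff 0 f = 1) (hg : coeff 0 g = 1) : L2 (f * g) = L2 f + L2 g := by
  unfold L2
  rw [coeff_one_mul' hf hg, coeff_two_mul' hf hg]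
  ring

theorem L2_one : L2 (1 : PowerSeries R) = 0 := by
  unfold L2
  rw [coeff_one, coeff_one, if_neg (by norm_num), if_neg (by norm_num)]
  ring

theorem coeff_zero_one : coeff 0 (1 : PowerSeries R) = 1 := by
  rw [coeff_one, if_pos rfl]

theorem L2_prod {ι : Type*} (s : Finset ι) (F : ι → PowerSeries R) (h : ∀ i ∈ s, coeff 0 (F i) = 1) :
    coeff 0 (∏ i ∈ s, F i) = 1 ∧ L2 (∏ i ∈ s, F i) = ∑ i ∈ s, L2 (F i) := by
  classical
  induction s using Finset.induction_on with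
  | empty => exact ⟨by rw [prod_empty, coeff_zero_one], by rw [prod_empty, sum_empty, L2_one]⟩
  | insert a s ha ih =>
    obtain ⟨h1, h2⟩ := ih fun i hi => h i (mem_insert_of_mem hi)
    rw [prod_insert ha, sum_insert ha]
    have h3 := h a (mem_insert_self _ _)
    exact ⟨coeff_zero_mul' h3 h1, by rw [L2_mul h3 h1, h2]⟩

theorem L2_pow (hf : coeff 0 f = 1) (n : ℕ) :
    coeff 0 (f ^ n) = 1 ∧ L2 (f ^ n) = n * L2 f := by
  have h := L2_prod (range n) (fun _ => f) fun _ _ => hf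
  rw [prod_const, card_range, sum_const, card_range, nsmul_eq_mul] at h
  exact h

theorem L2_rescale (a : R) (f : PowerSeries R) :
    L2 (PowerSeries.rescale a f) = a ^ 2 * L2 f := by
  unfold L2
  rw [coeff_rescale, coeff_rescale]
  ring

end

theorem L2_inv {k : Type*} [Field k] {f : PowerSeries k} (hf : coeff 0 f = 1) :
    coeff 0 f⁻¹ = 1 ∧ L2 f⁻¹ = -L2 f := by
  have h0 : constantCoeff f ≠ 0 := by
    rw [← coeff_zero_eq_constantCoeff_apply, hf]
    exact one_ne_zero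
  have h1 := PowerSeries.mul_inv_cancel f h0
  have h2 : coeff 0 f⁻¹ = 1 := by
    rw [coeff_zero_eq_constantCoeff_apply, constantCoeff_inv,
      ← coeff_zero_eq_constantCoeff_apply, hf, inv_one]
  refine ⟨h2, ?_⟩
  have h3 := L2_mul hf h2
  rw [h1, L2_one] at h3
  linear_combination -h3

theorem sinhc_coeff_zero : coeff 0 sinhc = 1 := by
  unfold sinhc
  rw [coeff_mk]
  norm_num

theorem L2_sinhc : L2 sinhc = -1 / 90 := by
  unfold L2 sinhc
  rw [coeff_mk, coeff_mk]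
  norm_num [Nat.factorial]

variable {D : Diagram}

theorem L2_node (v : ℕ) : coeff 0 (D.node v) = 1 ∧ L2 (D.node v) =
    ((D.valence v - 2 : ℕ) - ∑ a ∈ D.leaves v, (1 / (a : ℝ) ^ 2) ^ 2) / 90 := by
  have h1 := L2_prod (D.leaves v) (fun a => PowerSeries.rescale (1 / (a : ℝ) ^ 2) sinhc)
    fun a _ => by rw [coeff_rescale, sinhc_coeff_zero, pow_zero, one_mul]
  have h2 := L2_inv sinhc_coeff_zero
  have h3 := L2_pow h2.1 (D.valence v - 2)
  unfold Diagram.node
  refine ⟨coeff_zero_mul' h1.1 h3.1, ?_⟩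
  rw [L2_mul h1.1 h3.1, h1.2, h3.2, h2.2, L2_sinhc]
  simp_rw [L2_rescale, L2_sinhc]
  rw [← sum_mul]
  ring

theorem L2_node_ge (h : D.IsSplice) {v : ℕ} (hv : v ≤ D.n) : 1 / 120 ≤ L2 (D.node v) := by
  rw [(L2_node v).2]
  have h3 := h.three_le v hv
  have h1 : ∑ a ∈ D.leaves v, (1 / (a : ℝ) ^ 2) ^ 2 ≤ (D.leaves v).card • (1 / 16 : ℝ) := by
    refine sum_le_card_nsmul _ _ _ fun a ha => ?_
    have h4 : (2 : ℝ) ≤ a := by exact_mod_cast h.two_le v hv a ha
    have h5 : (4 : ℝ) ≤ (a : ℝ) ^ 2 := by nlinarith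
    have h6 : 1 / (a : ℝ) ^ 2 ≤ 1 / 4 := one_div_le_one_div_of_le (by norm_num) h5
    have h7 : 0 ≤ 1 / (a : ℝ) ^ 2 := by positivity
    nlinarith
  have h2 : (D.leaves v).card ≤ D.valence v := by
    unfold Diagram.valence Diagram.weights
    rw [Multiset.card_add, Multiset.card_add]
    have : (D.leaves v).card = Multiset.card (D.leaves v).val := rfl
    omega
  have h4 : ((D.leaves v).card : ℝ) ≤ D.valence v := by exact_mod_cast h2
  have h5 : ((D.valence v - 2 : ℕ) : ℝ) = D.valence v - 2 := by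
    rw [Nat.cast_sub (by omega)]
    norm_num
  have h6 : (3 : ℝ) ≤ D.valence v := by exact_mod_cast h3
  rw [nsmul_eq_mul] at h1
  rw [h5]
  linarith

theorem L2_YY (s : Fin (D.n + 1) → ℝ) :
    L2 (YY D s) = ∑ v : Fin (D.n + 1), s v ^ 2 * L2 (D.node v) := by
  unfold YY
  rw [(L2_prod univ (fun v : Fin (D.n + 1) => PowerSeries.rescale (s v) (yy D v)) ?_).2]
  · refine sum_congr rfl fun v _ => ?_
    rw [L2_rescale, yy, L2_rescale]
    ring
  · intro v _
    rw [coeff_rescale, yy, coeff_rescale, (L2_node _).1]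
    simp

/-- the second cumulant is large -/
theorem L2_lower (h : D.IsSplice) :
    ∑ v : Fin (D.n + 1), (D.P v : ℝ) ^ 2 / 480 ≤ L2 D.gaussSeries := by
  obtain ⟨c, hc⟩ : ∃ c, c = ∫ x : Sp D.n, coeff 1 (YY D (nsq x)) ∂D.gauss := ⟨_, rfl⟩
  have i1 := int_YY (D := D) 1
  have i2 := int_YY (D := D) 2
  have hsum : Integrable (fun x : Sp D.n => ∑ v : Fin (D.n + 1), nsq x v ^ 2 * (1 / 120 : ℝ))
      D.gauss := integrable_finset_sum _ fun v _ => (integrable_nsq_pow v 2).mul_const _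
  have hlin : Integrable (fun x : Sp D.n => 2 * c * coeff 1 (YY D (nsq x)) - c ^ 2) D.gauss :=
    ((integrable_YY 1).const_mul _).sub (integrable_const _)
  have h1 : ∫ x : Sp D.n, ((∑ v : Fin (D.n + 1), nsq x v ^ 2 * (1 / 120 : ℝ)) +
      (2 * c * coeff 1 (YY D (nsq x)) - c ^ 2)) ∂D.gauss ≤
      ∫ x : Sp D.n, 2 * coeff 2 (YY D (nsq x)) ∂D.gauss := by
    refine integral_mono (hsum.add hlin) ((integrable_YY 2).const_mul _) fun x => ?_
    have h2 := L2_YY (D := D) (nsq x)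
    have h3 : ∑ v : Fin (D.n + 1), nsq x v ^ 2 * (1 / 120 : ℝ) ≤
        ∑ v : Fin (D.n + 1), nsq x v ^ 2 * L2 (D.node v) :=
      sum_le_sum fun v _ => mul_le_mul_of_nonneg_left (L2_node_ge h (by omega)) (sq_nonneg _)
    unfold L2 at h2
    have h4 := sq_nonneg (coeff 1 (YY D (nsq x)) - c)
    unfold L2 at h3
    simp only
    nlinarith
  have hc2 : ∫ _x : Sp D.n, c ^ 2 ∂D.gauss = c ^ 2 := by simp
  rw [integral_add hsum hlin, integral_sub ((integrable_YY 1).const_mul _) (integrable_const _),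
    integral_const_mul, ← hc, hc2, integral_finset_sum _ fun v _ =>
      (integrable_nsq_pow v 2).mul_const _, integral_const_mul, i2] at h1
  have h2 : ∑ v : Fin (D.n + 1), (D.P v : ℝ) ^ 2 / 480 ≤
      ∑ v : Fin (D.n + 1), ∫ x : Sp D.n, nsq x v ^ 2 * (1 / 120 : ℝ) ∂D.gauss := by
    refine sum_le_sum fun v _ => ?_
    rw [integral_mul_const, integral_nsq_pow h]
    have h3 := mom_mono (Nat.zero_le 2)
    rw [mom_zero] at h3
    have h4 : 0 ≤ (D.P v : ℝ) ^ 2 := sq_nonneg _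
    nlinarith
  unfold L2
  rw [hc, i1] at h1
  nlinarith

theorem finite_of_L2 (B : ℝ) : {D : Diagram | D.IsSplice ∧ L2 D.gaussSeries ≤ B}.Finite := by
  obtain ⟨N, hN⟩ := exists_nat_ge (480 * B)
  refine (finite_bounded N N).subset ?_
  rintro D ⟨h, hB⟩
  have h1 := L2_lower h
  have hP : ∀ v : Fin (D.n + 1), (1 : ℝ) ≤ (D.P v : ℝ) := fun v => by
    exact_mod_cast P_pos h (by omega : (v : ℕ) ≤ D.n)
  refine ⟨h, ?_, ?_⟩
  · have h2 : ∑ _v : Fin (D.n + 1), (1 : ℝ) / 480 ≤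
        ∑ v : Fin (D.n + 1), (D.P v : ℝ) ^ 2 / 480 := by
      refine sum_le_sum fun v _ => ?_
      have := hP v
      nlinarith
    rw [sum_const, card_univ, Fintype.card_fin, nsmul_eq_mul] at h2
    have h3 : (D.n : ℝ) ≤ N := by
      push_cast at h2
      linarith
    exact_mod_cast h3
  · obtain ⟨v, hv, hPv⟩ := exists_Pmax (D := D)
    obtain ⟨w, hw⟩ : ∃ w : Fin (D.n + 1), (w : ℕ) = v := ⟨⟨v, Nat.lt_succ_of_le hv⟩, rfl⟩
    have h2 := single_le_sum (f := fun v : Fin (D.n + 1) => (D.P v : ℝ) ^ 2 / 480)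
        (fun v _ => div_nonneg (sq_nonneg _) (by norm_num)) (mem_univ w)
    have h3 := hP w
    have h4 : (D.P w : ℝ) ≤ N := by
      have h5 : (D.P w : ℝ) ≤ (D.P w : ℝ) ^ 2 := by nlinarith
      linarith
    rw [← hPv, ← hw]
    exact_mod_cast h4

/-! ### the Ohtsuki series -/

theorem quantumTwo_zero : coeff 0 quantumTwo = 1 := by
  rw [quantumTwo, coeff_mk]
  simp

theorem exp_zero (a : ℂ) : coeff 0 (PowerSeries.rescale a (PowerSeries.exp ℂ)) = 1 := by
  rw [coeff_rescale, coeff_exp]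
  simp

theorem L2_exp (a : ℂ) : L2 (PowerSeries.rescale a (PowerSeries.exp ℂ)) = 0 := by
  rw [L2_rescale]
  unfold L2
  rw [coeff_exp, coeff_exp]
  norm_num [Nat.factorial]

theorem map_zero' (D : Diagram) : coeff 0 (D.gaussSeries.map (algebraMap ℝ ℂ)) = 1 := by
  rw [coeff_map, gauss_zero_coeff]
  simp

theorem L2_map (D : Diagram) :
    L2 (D.gaussSeries.map (algebraMap ℝ ℂ)) = ((L2 D.gaussSeries : ℝ) : ℂ) := by
  unfold L2
  rw [coeff_map, coeff_map]
  simp

theorem ohtsuki_low (D : Diagram) (φ : ℂ) :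
    coeff 1 (D.ohtsuki φ) = -φ / 4 + coeff 1 (quantumTwo⁻¹) +
      coeff 1 (D.gaussSeries.map (algebraMap ℝ ℂ)) ∧
    L2 (D.ohtsuki φ) = L2 (quantumTwo⁻¹) + ((L2 D.gaussSeries : ℝ) : ℂ) := by
  have h1 := L2_inv quantumTwo_zero
  have h2 := coeff_zero_mul' (exp_zero (-φ / 4)) h1.1
  unfold Diagram.ohtsuki
  constructor
  · rw [coeff_one_mul' h2 (map_zero' D), coeff_one_mul' (exp_zero _) h1.1, coeff_rescale, coeff_exp]
    simp
  · rw [L2_mul h2 (map_zero' D), L2_mul (exp_zero _) h1.1, L2_exp, L2_map, zero_add]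

/-- finitely many links with the same coefficients of degree at most 2 -/
theorem finite_two (D : Diagram) (φ : ℂ) : {D' : Diagram | D'.IsSplice ∧
    ∃ φ', ∀ k ≤ 2, coeff k (D'.ohtsuki φ') = coeff k (D.ohtsuki φ)}.Finite := by
  refine (finite_of_L2 (L2 D.gaussSeries)).subset ?_
  rintro D' ⟨h', φ', h⟩
  refine ⟨h', le_of_eq ?_⟩
  have h1 : L2 (D'.ohtsuki φ') = L2 (D.ohtsuki φ) := by
    unfold L2
    rw [h 1 (by norm_num), h 2 le_rfl]
  rw [(ohtsuki_low D' φ').2, (ohtsuki_low D φ).2] at h1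
  exact_mod_cast add_left_cancel h1

/-- finitely many coefficients determine the series -/
theorem finite_type (D : Diagram) (φ : ℂ) : ∃ d : ℕ, ∀ (D' : Diagram) (φ' : ℂ), D'.IsSplice →
    (∀ k ≤ d, coeff k (D'.ohtsuki φ') = coeff k (D.ohtsuki φ)) →
      D'.ohtsuki φ' = D.ohtsuki φ := by
  have hF := finite_two D φ
  have key : ∀ D' : Diagram, ∃ d : ℕ, ∀ φ' : ℂ,
      (∀ k ≤ d, coeff k (D'.ohtsuki φ') = coeff k (D.ohtsuki φ)) →
        D'.ohtsuki φ' = D.ohtsuki φ := by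
    intro D'
    by_cases h1 : ∃ φ₀ : ℂ, coeff 1 (D'.ohtsuki φ₀) = coeff 1 (D.ohtsuki φ)
    · obtain ⟨φ₀, h2⟩ := h1
      have huniq : ∀ φ', coeff 1 (D'.ohtsuki φ') = coeff 1 (D.ohtsuki φ) → φ' = φ₀ := by
        intro φ' h3
        rw [← h2, (ohtsuki_low D' φ').1, (ohtsuki_low D' φ₀).1] at h3
        linear_combination -4 * h3
      by_cases h3 : D'.ohtsuki φ₀ = D.ohtsuki φ
      · exact ⟨1, fun φ' h4 => by rw [huniq φ' (h4 1 le_rfl), h3]⟩
      · have h4 : ∃ k, coeff k (D'.ohtsuki φ₀) ≠ coeff k (D.ohtsuki φ) := by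
          by_contra hcon
          push Not at hcon
          exact h3 (PowerSeries.ext hcon)
        obtain ⟨k, hk⟩ := h4
        refine ⟨max k 1, fun φ' h5 => ?_⟩
        have h6 := huniq φ' (h5 1 (le_max_right _ _))
        have h7 := h5 k (le_max_left _ _)
        rw [h6] at h7
        exact absurd h7 hk
    · exact ⟨1, fun φ' h2 => absurd ⟨φ', h2 1 le_rfl⟩ h1⟩
  choose f hf using key
  refine ⟨max 2 (hF.toFinset.sup f), fun D' φ' h' h => ?_⟩
  have h1 : D' ∈ hF.toFinset := by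
    rw [Set.Finite.mem_toFinset]
    exact ⟨h', φ', fun k hk => h k (hk.trans (le_max_left _ _))⟩
  exact hf D' φ' fun k hk => h k (hk.trans ((le_sup (f := f) h1).trans (le_max_right _ _)))

theorem L2_quantumTwo : L2 quantumTwo = 1 / 12 := by
  unfold L2 quantumTwo
  rw [coeff_mk, coeff_mk, if_pos even_two, if_neg (by decide)]
  norm_num [Nat.factorial]

theorem exists_eight (h : D.IsSplice) : ∃ v ≤ D.n, 8 ≤ D.P v := by
  rcases Nat.eq_zero_or_pos D.n with hn | hn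
  · refine ⟨0, Nat.zero_le _, ?_⟩
    rw [P_zero_node hn]
    have h3 := h.three_le 0 (Nat.zero_le _)
    rw [valence_zero_node hn] at h3
    have h1 : ∏ _a ∈ D.leaves 0, 2 ≤ ∏ a ∈ D.leaves 0, a :=
      Finset.prod_le_prod (fun _ _ => Nat.zero_le _) fun a ha => h.two_le 0 (Nat.zero_le _) a ha
    rw [prod_const] at h1
    have h2 : 2 ^ 3 ≤ 2 ^ (D.leaves 0).card := Nat.pow_le_pow_right (by norm_num) h3
    omega
  · obtain ⟨v, hv, h1⟩ := exists_P_gt h hn
    exact ⟨v, hv, by omega⟩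

/-- the series is not the one of the 3-sphere -/
theorem ne_one (h : D.IsSplice) (φ : ℂ) : D.ohtsuki φ ≠ 1 := by
  intro h1
  have h2 := (ohtsuki_low D φ).2
  rw [h1, L2_one, (L2_inv quantumTwo_zero).2, L2_quantumTwo] at h2
  have h3 : L2 D.gaussSeries = 1 / 12 := by
    have h4 : ((L2 D.gaussSeries : ℝ) : ℂ) = ((1 / 12 : ℝ) : ℂ) := by
      push_cast
      linear_combination -h2
    exact_mod_cast h4
  obtain ⟨v, hv, hP⟩ := exists_eight h
  obtain ⟨w, hw⟩ : ∃ w : Fin (D.n + 1), (w : ℕ) = v := ⟨⟨v, Nat.lt_succ_of_le hv⟩, rfl⟩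
  have h4 := L2_lower h
  have h5 := single_le_sum (f := fun v : Fin (D.n + 1) => (D.P v : ℝ) ^ 2 / 480)
      (fun v _ => div_nonneg (sq_nonneg _) (by norm_num)) (mem_univ w)
  have h6 : (8 : ℝ) ≤ (D.P w : ℝ) := by
    rw [hw]
    exact_mod_cast hP
  rw [h3] at h4
  have h7 : (64 : ℝ) ≤ (D.P w : ℝ) ^ 2 := by nlinarith
  linarith

end Pool.Agent.Zk79.LN
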