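import Pool.Agent.Zk79.LM.Gro

set_option autoImplicit false

/-! Definitions for the asymptotic expansion of the coefficients for two nodes. -/

namespace Pool.Agent.Zk79.LN

open Finset

/-- `m(n, j)` -/
noncomputable def mm (μ ν : ℝ) (n j : ℕ) : ℝ :=
  ∑ k ∈ range (j + 1), (j.choose k : ℝ) * μ ^ (2 * (j - k)) * ν ^ (2 * k) *
    ∏ t ∈ range k, ((2 * ((j : ℝ) - t) + 1) / (2 * ((n : ℝ) - t) + 1))

/-- `β_k(n)` -/
noncomputable def be (k n : ℕ) : ℝ := ∏ t ∈ range k, (1 / (2 * ((n : ℝ) - t) + 1))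

/-- the coefficients of the expansion -/
noncomputable def TT (r : ℝ) (g : ℕ → ℝ) (μ ν : ℝ) (k : ℕ) : ℝ :=
  r * ∑' j : ℕ, g (j + k) * ((j + k).choose k : ℝ) * μ ^ (2 * j) * ν ^ (2 * k) *
    ∏ t ∈ range k, (2 * ((j + k : ℝ) - t) + 1)

end Pool.Agent.Zk79.LN
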