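import Pool.Agent.Zk79.LN.Base

set_option autoImplicit false
set_option maxHeartbeats 400000

/-! Comparison of the asymptotic expansions. -/

namespace Pool.Agent.Zk79.LN

open Finset Filter Topology Asymptotics

theorem be_pos {k n : ℕ} (hkn : k ≤ n) : 0 < be k n := by
  refine prod_pos fun t ht => ?_
  have h1 := mem_range.1 ht
  have h2 : (t : ℝ) ≤ n := by exact_mod_cast (by omega : t ≤ n)
  have : 0 < 2 * ((n : ℝ) - t) + 1 := by linarith
  positivity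

theorem be_lower {k n : ℕ} (hkn : k ≤ n) : (1 / (2 * (n : ℝ) + 1)) ^ k ≤ be k n := by
  unfold be
  rw [← card_range k, ← prod_const, card_range]
  refine prod_le_prod (fun t _ => by positivity) fun t ht => ?_
  have h1 := mem_range.1 ht
  have h2 : (t : ℝ) ≤ n := by exact_mod_cast (by omega : t ≤ n)
  have h3 : (0 : ℝ) ≤ t := Nat.cast_nonneg t
  exact one_div_le_one_div_of_le (by linarith) (by linarith)

/-- uniqueness of the coefficients -/
theorem coeffs_zero {c : ℕ → ℝ} (h : ∀ K : ℕ, (fun n : ℕ => ∑ k ∈ range K, c k * be k n)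
    =O[atTop] fun n : ℕ => ((n : ℝ) ^ K)⁻¹) (k : ℕ) : c k = 0 := by
  induction k using Nat.strong_induction_on with
  | _ k ih =>
    have h1 := h (k + 1)
    have e1 : (fun n : ℕ => ∑ l ∈ range (k + 1), c l * be l n) = fun n => c k * be k n := by
      funext n
      rw [sum_range_succ, sum_eq_zero fun l hl => ?_, zero_add]
      rw [ih l (mem_range.1 hl), zero_mul]
    rw [e1] at h1
    obtain ⟨C, hC⟩ := h1.bound
    by_contra hne
    have h2 : Tendsto (fun n : ℕ => C * 3 ^ k * ((n : ℝ))⁻¹) atTop (𝓝 0) := by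
      have := (tendsto_inv_atTop_zero (𝕜 := ℝ)).comp tendsto_natCast_atTop_atTop
      simpa using this.const_mul (C * 3 ^ k)
    have h3 := h2.eventually (gt_mem_nhds (abs_pos.2 hne))
    obtain ⟨n, hn1, hn2, hn3⟩ := (hC.and (h3.and (eventually_ge_atTop (k + 1)))).exists
    have hn0 : (1 : ℝ) ≤ n := by exact_mod_cast (by omega : 1 ≤ n)
    have hb := be_lower (by omega : k ≤ n)
    rw [norm_mul, norm_inv, norm_pow, Real.norm_eq_abs, Real.norm_eq_abs, Real.norm_eq_abs,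
      abs_of_pos (be_pos (by omega : k ≤ n)), abs_of_pos (by linarith : (0 : ℝ) < n)] at hn1
    have h4 : (1 / (3 * (n : ℝ))) ^ k ≤ be k n := by
      refine le_trans (pow_le_pow_left₀ (by positivity) ?_ k) hb
      exact one_div_le_one_div_of_le (by linarith) (by linarith)
    have h5 : |c k| * (1 / (3 * (n : ℝ))) ^ k ≤ C * ((n : ℝ) ^ (k + 1))⁻¹ :=
      (mul_le_mul_of_nonneg_left h4 (abs_nonneg _)).trans hn1
    have h6 : |c k| ≤ C * 3 ^ k * (n : ℝ)⁻¹ := by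
      have h7 : (0 : ℝ) < (3 * (n : ℝ)) ^ k := by positivity
      rw [one_div, inv_pow, ← div_eq_mul_inv, div_le_iff₀ h7] at h5
      refine h5.trans (le_of_eq ?_)
      rw [mul_pow, pow_succ]
      field_simp
    linarith

theorem mm_nonneg {μ ν : ℝ} (n j : ℕ) (hj : j ≤ n) : 0 ≤ mm μ ν n j := by
  refine sum_nonneg fun k hk => mul_nonneg ?_ (prod_nonneg fun t ht => ?_)
  · have := pow_mul μ 2 (j - k)
    have := pow_mul ν 2 k
    rw [pow_mul, pow_mul]
    positivity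
  · have h1 := mem_range.1 hk
    have h2 := mem_range.1 ht
    have h3 : (t : ℝ) ≤ j := by exact_mod_cast (by omega : t ≤ j)
    have h4 : (j : ℝ) ≤ n := by exact_mod_cast hj
    have h5 : 0 ≤ 2 * ((j : ℝ) - t) + 1 := by linarith
    have h6 : 0 ≤ 2 * ((n : ℝ) - t) + 1 := by linarith
    positivity

theorem mm_le {μ ν : ℝ} (n j : ℕ) (hj : j ≤ n) : mm μ ν n j ≤ (μ ^ 2 + ν ^ 2) ^ j := by
  rw [add_comm, add_pow]
  refine sum_le_sum fun k hk => ?_
  have hk' := mem_range.1 hk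
  have h1 : ∏ t ∈ range k, ((2 * ((j : ℝ) - t) + 1) / (2 * ((n : ℝ) - t) + 1)) ≤ 1 := by
    refine prod_le_one (fun t ht => ?_) fun t ht => ?_
    · have h2 := mem_range.1 ht
      have h3 : (t : ℝ) ≤ j := by exact_mod_cast (by omega : t ≤ j)
      have h4 : (j : ℝ) ≤ n := by exact_mod_cast hj
      have h5 : 0 ≤ 2 * ((j : ℝ) - t) + 1 := by linarith
      have h6 : 0 ≤ 2 * ((n : ℝ) - t) + 1 := by linarith
      positivity
    · have h2 := mem_range.1 ht
      have h3 : (t : ℝ) ≤ j := by exact_mod_cast (by omega : t ≤ j)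
      have h4 : (j : ℝ) ≤ n := by exact_mod_cast hj
      rw [div_le_one (by linarith)]
      linarith
  have h2 : 0 ≤ (j.choose k : ℝ) * μ ^ (2 * (j - k)) * ν ^ (2 * k) := by
    rw [pow_mul, pow_mul]
    positivity
  refine (mul_le_of_le_one_right h2 h1).trans (le_of_eq ?_)
  rw [pow_mul, pow_mul]
  ring

theorem mm_zero (μ ν : ℝ) (n : ℕ) : mm μ ν n 0 = 1 := by
  simp [mm]

/-- the second half of the sum is exponentially small -/
theorem tail_small {s g : ℕ → ℝ} {C μ ν : ℝ} (hC : 0 ≤ C) (hs0 : ∀ i, 0 ≤ s i) (hs : ∀ i, s i ≤ C)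
    (hg0 : ∀ i, 0 ≤ g i) (hg : ∀ ρ : ℝ, 0 ≤ ρ → ρ < 1 → Summable fun j => g j * ρ ^ j)
    (h : μ ^ 2 + ν ^ 2 < 1) (K : ℕ) :
    (fun n : ℕ => ∑ j ∈ Ico (n / 2 + 1) (n + 1), s (n - j) * g j * mm μ ν n j) =O[atTop]
      fun n : ℕ => ((n : ℝ) ^ K)⁻¹ := by
  obtain ⟨x, hx⟩ : ∃ x, x = μ ^ 2 + ν ^ 2 := ⟨_, rfl⟩
  have hx0 : 0 ≤ x := by rw [hx]; positivity
  rw [← hx] at h
  obtain ⟨ρ, h1, h2⟩ := exists_between h
  have hρ : 0 < ρ := lt_of_le_of_lt hx0 h1
  have hS := hg ρ hρ.le h2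
  obtain ⟨q, hq⟩ : ∃ q, q = x / ρ := ⟨_, rfl⟩
  have hq0 : 0 ≤ q := by rw [hq]; positivity
  have hq1 : q < 1 := by
    rw [hq, div_lt_one hρ]
    exact h1
  have hxq : x = q * ρ := by
    rw [hq]
    field_simp
  have hb : ∀ n : ℕ, ‖∑ j ∈ Ico (n / 2 + 1) (n + 1), s (n - j) * g j * mm μ ν n j‖ ≤
      (C * ∑' j, g j * ρ ^ j) * q ^ (n / 2) := by
    intro n
    have h3 : ∀ j ∈ Ico (n / 2 + 1) (n + 1), s (n - j) * g j * mm μ ν n j ≤
        C * q ^ (n / 2) * (g j * ρ ^ j) := by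
      intro j hj
      rw [mem_Ico] at hj
      have h4 := mm_le (μ := μ) (ν := ν) n j (by omega)
      rw [← hx, hxq, mul_pow] at h4
      have h5 : q ^ j ≤ q ^ (n / 2) := pow_le_pow_of_le_one hq0 hq1.le (by omega)
      have h6 : mm μ ν n j ≤ q ^ (n / 2) * ρ ^ j :=
        h4.trans (mul_le_mul_of_nonneg_right h5 (by positivity))
      calc s (n - j) * g j * mm μ ν n j ≤ C * g j * (q ^ (n / 2) * ρ ^ j) := by
            refine mul_le_mul ?_ h6 (mm_nonneg n j (by omega)) (mul_nonneg hC (hg0 j))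
            exact mul_le_mul_of_nonneg_right (hs _) (hg0 j)
        _ = _ := by ring
    have h4 : 0 ≤ ∑ j ∈ Ico (n / 2 + 1) (n + 1), s (n - j) * g j * mm μ ν n j := by
      refine sum_nonneg fun j hj => ?_
      rw [mem_Ico] at hj
      exact mul_nonneg (mul_nonneg (hs0 _) (hg0 _)) (mm_nonneg n j (by omega))
    rw [Real.norm_eq_abs, abs_of_nonneg h4]
    refine (sum_le_sum h3).trans ?_
    rw [← mul_sum]
    have h5 : ∑ j ∈ Ico (n / 2 + 1) (n + 1), g j * ρ ^ j ≤ ∑' j, g j * ρ ^ j :=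
      hS.sum_le_tsum _ fun j _ => mul_nonneg (hg0 j) (pow_nonneg hρ.le _)
    have h6 := mul_le_mul_of_nonneg_left h5 (mul_nonneg hC (pow_nonneg hq0 (n / 2)))
    refine h6.trans (le_of_eq ?_)
    ring
  -- `n ^ K q ^ (n / 2)` is bounded
  have hlim : Tendsto (fun m : ℕ => (m : ℝ) ^ K * q ^ m) atTop (𝓝 0) :=
    tendsto_pow_const_mul_const_pow_of_lt_one K hq0 hq1
  obtain ⟨M, hM⟩ := hlim.bddAbove_range
  rw [mem_upperBounds] at hM
  refine IsBigO.of_bound ((C * ∑' j, g j * ρ ^ j) * (3 ^ K * M)) ?_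
  filter_upwards [eventually_ge_atTop 2] with n hn
  have h5 : (0 : ℝ) < n := by exact_mod_cast (by omega : 0 < n)
  refine (hb n).trans ?_
  rw [norm_inv, norm_pow, Real.norm_eq_abs, abs_of_pos h5,
    mul_assoc (C * ∑' j, g j * ρ ^ j) (3 ^ K * M)]
  refine mul_le_mul_of_nonneg_left ?_ (mul_nonneg hC (tsum_nonneg fun j =>
    mul_nonneg (hg0 j) (pow_nonneg hρ.le _)))
  rw [← div_eq_mul_inv, le_div_iff₀ (by positivity)]
  have h6 : (n : ℝ) ≤ 3 * ((n / 2 : ℕ) : ℝ) := by exact_mod_cast (by omega : n ≤ 3 * (n / 2))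
  have h7 : (n : ℝ) ^ K ≤ (3 * ((n / 2 : ℕ) : ℝ)) ^ K := pow_le_pow_left₀ h5.le h6 K
  calc q ^ (n / 2) * (n : ℝ) ^ K ≤ q ^ (n / 2) * (3 * ((n / 2 : ℕ) : ℝ)) ^ K :=
        mul_le_mul_of_nonneg_left h7 (by positivity)
    _ = 3 ^ K * (((n / 2 : ℕ) : ℝ) ^ K * q ^ (n / 2)) := by
        rw [mul_pow]
        ring
    _ ≤ 3 ^ K * M := mul_le_mul_of_nonneg_left (hM _ ⟨n / 2, rfl⟩) (by positivity)

end Pool.Agent.Zk79.LN
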