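import Pool.Agent.Zk79.LN.Fun2
import Pool.Agent.Zk79.LN.Cmp2

set_option autoImplicit false

/-! Definitions for the asymptotic expansion for nodes of arbitrary valence. -/

namespace Pool.Agent.Zk79.LN

open Finset

/-- `(2 x + 3) (2 x + 5) ⋯`, `r` factors -/
noncomputable def rf (r : ℕ) (x : ℝ) : ℝ := ∏ t ∈ range r, (2 * x + 3 + 2 * (t : ℝ))

/-- `d_k(j)` -/
noncomputable def dk (μ ν : ℝ) (k j : ℕ) : ℝ :=
  (j.choose k : ℝ) * μ ^ (2 * (j - k)) * ν ^ (2 * k) * ∏ t ∈ range k, (2 * ((j : ℝ) - t) + 1)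

/-- `D_{k,i}` -/
noncomputable def DD (g : ℕ → ℝ) (μ ν : ℝ) (k i : ℕ) : ℝ :=
  ∑' j : ℕ, g j * dk μ ν k j * ∏ t ∈ range i, (2 * ((k : ℝ) - j) + 2 * (t : ℝ))

/-- the coefficients of the expansion -/
noncomputable def ee (p : ℕ → ℝ) (Q : ℕ) (g : ℕ → ℝ) (μ ν : ℝ) (s : ℕ) : ℝ :=
  ∑ r ∈ range (Q + 1), ∑ l ∈ range (r + 1),
    if Q ≤ s + l then (r.choose l : ℝ) * p r * DD g μ ν (s + l - Q) (r - l) else 0

/-- shifted double factorials -/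
noncomputable def dq (Q s : ℕ) : ℝ := ∏ t ∈ range s, (2 * (t : ℝ) + 1 - 2 * Q)

end Pool.Agent.Zk79.LN
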