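import Pool.Agent.Zk62.LN.Sg

set_option autoImplicit false
set_option maxHeartbeats 400000

/-! All coefficients of the polynomial variable. -/

namespace Pool.Agent.Zk79.LN

open Finset Filter Topology
open Pool.Agent.Zk62.LN (Nice Sg mero_Sg cont_Sg shift_gen sin_shift sin_ne_punct returns)

theorem per_int {f : ℝ → ℝ} {M : ℕ} (hf : ∀ z, f (z + M) = f z) (k : ℤ) (z : ℝ) :
    f (z + k * M) = f z := by
  have h1 : ∀ (n : ℕ) (z : ℝ), f (z + n * M) = f z := by
    intro n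
    induction n with
    | zero => intro z; simp
    | succ n ih =>
      intro z
      have e1 : z + ((n + 1 : ℕ) : ℝ) * M = z + n * M + M := by
        push_cast
        ring
      rw [e1, hf, ih]
  obtain ⟨n, rfl | rfl⟩ := k.eq_nat_or_neg
  · exact_mod_cast h1 n z
  · have h2 := h1 n (z + ((-(n : ℤ) : ℤ) : ℝ) * M)
    rw [← h2]
    congr 1
    push_cast
    ring

/-- the leading function -/
noncomputable def Ld {I : Type} (s : Finset I) (r : I → ℝ) (f : I → ℝ → ℝ) (μ ν T : ℝ) : ℝ :=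
  ∑ i ∈ s, r i * (f i (μ + ν * T) + f i (μ - ν * T))

theorem Ld_per {I : Type} {s : Finset I} {r : I → ℝ} {f : I → ℝ → ℝ} {M : ℕ} {μ ν : ℝ}
    (hν : 0 < ν) (per : ∀ i ∈ s, ∀ z, f i (z + M) = f i z) (k : ℤ) (T : ℝ) :
    Ld s r f μ ν (T + k * (M / ν)) = Ld s r f μ ν T := by
  unfold Ld
  refine sum_congr rfl fun i hi => ?_
  have e1 : μ + ν * (T + k * (M / ν)) = μ + ν * T + k * M := by
    field_simp
    ring
  have e2 : μ - ν * (T + k * (M / ν)) = μ - ν * T + ((-k : ℤ) : ℝ) * M := by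
    push_cast
    field_simp
    ring
  rw [e1, e2, per_int (per i hi), per_int (per i hi)]

theorem lin_punct (μ : ℝ) {ν : ℝ} (hν : ν ≠ 0) (T₀ : ℝ) :
    ∀ᶠ T in 𝓝[≠] T₀, Real.sin (Real.pi * (μ + ν * T)) ≠ 0 := by
  have h1 : Tendsto (fun T : ℝ => μ + ν * T) (𝓝[≠] T₀) (𝓝[≠] (μ + ν * T₀)) := by
    refine tendsto_nhdsWithin_iff.2 ⟨?_, ?_⟩
    · have h2 : Continuous fun T : ℝ => μ + ν * T := by fun_prop
      exact (h2.tendsto T₀).mono_left nhdsWithin_le_nhds
    · filter_upwards [self_mem_nhdsWithin] with T hT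
      simp only [Set.mem_compl_iff, Set.mem_singleton_iff] at hT ⊢
      intro h0
      apply hT
      exact mul_left_cancel₀ hν (add_left_cancel h0)
  exact h1.eventually (sin_ne_punct _)

theorem both_punct (μ : ℝ) {ν : ℝ} (hν : ν ≠ 0) (T₀ : ℝ) :
    ∀ᶠ T in 𝓝[≠] T₀, Real.sin (Real.pi * (μ + ν * T)) ≠ 0 ∧
      Real.sin (Real.pi * (μ - ν * T)) ≠ 0 := by
  filter_upwards [lin_punct μ hν T₀, lin_punct μ (neg_ne_zero.2 hν) T₀] with T h1 h2
  refine ⟨h1, ?_⟩
  rwa [neg_mul, ← sub_eq_add_neg] at h2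

theorem Ld_cont {I : Type} {s : Finset I} {r : I → ℝ} {f : I → ℝ → ℝ} {μ ν : ℝ}
    (hf : ∀ i ∈ s, Nice (f i)) {T : ℝ} (h1 : Real.sin (Real.pi * (μ + ν * T)) ≠ 0)
    (h2 : Real.sin (Real.pi * (μ - ν * T)) ≠ 0) : ContinuousAt (Ld s r f μ ν) T := by
  unfold Ld
  have h3 : ∀ i ∈ s, ContinuousAt (fun T : ℝ => f i (μ + ν * T)) T := fun i hi =>
    ContinuousAt.comp (f := fun T => μ + ν * T) (g := f i) ((hf i hi).an h1).continuousAt
      (by fun_prop)
  have h4 : ∀ i ∈ s, ContinuousAt (fun T : ℝ => f i (μ - ν * T)) T := fun i hi =>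
    ContinuousAt.comp (f := fun T => μ - ν * T) (g := f i) ((hf i hi).an h2).continuousAt
      (by fun_prop)
  refine tendsto_finsetSum _ fun i hi => ?_
  exact tendsto_const_nhds.mul ((h3 i hi).add (h4 i hi))

/-- poles and shifts -/
theorem pole_shift {L : ℝ → ℝ} {N : ℕ} {T₀ c t : ℝ} (hL : ∀ T, L (T + t) = L T)
    (h : Tendsto (fun T => (T - T₀) ^ N * L T) (𝓝[≠] T₀) (𝓝 c)) :
    Tendsto (fun T => (T - (T₀ + t)) ^ N * L T) (𝓝[≠] (T₀ + t)) (𝓝 c) := by
  have h1 : Tendsto (fun T : ℝ => T - t) (𝓝[≠] (T₀ + t)) (𝓝[≠] T₀) := by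
    refine tendsto_nhdsWithin_iff.2 ⟨?_, ?_⟩
    · have h2 : Continuous fun T : ℝ => T - t := by fun_prop
      have h3 := h2.tendsto (T₀ + t)
      rw [add_sub_cancel_right] at h3
      exact h3.mono_left nhdsWithin_le_nhds
    · filter_upwards [self_mem_nhdsWithin] with T hT
      simp only [Set.mem_compl_iff, Set.mem_singleton_iff] at hT ⊢
      intro h0
      apply hT
      linarith
  refine (h.comp h1).congr fun T => ?_
  simp only [Function.comp_apply]
  have h2 := hL (T - t)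
  rw [sub_add_cancel] at h2
  rw [← h2]
  congr 2
  ring

/-- E: all coefficients -/
theorem coef_gen {I I' : Type} {s : Finset I} {s' : Finset I'} {f : I → ℝ → ℝ} {f' : I' → ℝ → ℝ}
    {Q M M' : ℕ} (hM : 0 < M) (hM' : 0 < M') (hf : ∀ i ∈ s, Nice (f i))
    (hf' : ∀ i ∈ s', Nice (f' i)) (per : ∀ i ∈ s, ∀ z, f i (z + M) = f i z)
    (per' : ∀ i ∈ s', ∀ z, f' i (z + M') = f' i z) {R : I → Polynomial ℝ} {R' : I' → Polynomial ℝ}
    (hR : ∀ i ∈ s, (R i).natDegree ≤ 2 * Q) (hR' : ∀ i ∈ s', (R' i).natDegree ≤ 2 * Q)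
    {μ μ' ν ν' : ℝ} (hμ : 0 < μ) (hμ1 : μ < 1) (hμ' : 0 < μ') (hμ1' : μ' < 1)
    (hν : 0 < ν) (hν' : 0 < ν')
    (hE : ∀ᶠ T in 𝓝 (0 : ℝ), (∑ i ∈ s, ((R i).eval T * f i (μ + ν * T) +
        (R i).eval (-T) * f i (μ - ν * T))) =
      ∑ i ∈ s', ((R' i).eval T * f' i (μ' + ν' * T) + (R' i).eval (-T) * f' i (μ' - ν' * T)))
    {N : ℕ} (hN : 1 ≤ N) {T₀ c : ℝ} (hc : c ≠ 0)
    (hpole : Tendsto (fun T => (T - T₀) ^ N * ∑ i ∈ s, (R i).coeff (2 * Q) *
      (f i (μ + ν * T) + f i (μ - ν * T))) (𝓝[≠] T₀) (𝓝 c))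
    (y T : ℝ) (h1 : Real.sin (Real.pi * (μ + ν * T)) ≠ 0)
    (h2 : Real.sin (Real.pi * (μ - ν * T)) ≠ 0)
    (h1' : Real.sin (Real.pi * (μ' + ν' * T)) ≠ 0)
    (h2' : Real.sin (Real.pi * (μ' - ν' * T)) ≠ 0) :
    (∑ i ∈ s, ((R i).eval y * f i (μ + ν * T) + (R i).eval (-y) * f i (μ - ν * T))) =
      ∑ i ∈ s', ((R' i).eval y * f' i (μ' + ν' * T) + (R' i).eval (-y) * f' i (μ' - ν' * T)) := by
  obtain ⟨L, hL⟩ : ∃ L : ℝ → ℝ, L = Ld s (fun i => (R i).coeff (2 * Q)) f μ ν := ⟨_, rfl⟩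
  obtain ⟨L', hL'⟩ : ∃ L' : ℝ → ℝ, L' = Ld s' (fun i => (R' i).coeff (2 * Q)) f' μ' ν' :=
    ⟨_, rfl⟩
  have hagree : ∀ T₁ : ℝ, ∀ᶠ T in 𝓝[≠] T₁, L T = L' T := by
    intro T₁
    filter_upwards [both_punct μ hν.ne' T₁, both_punct μ' hν'.ne' T₁] with T a b
    rw [hL, hL']
    exact shift_gen hM hM' hf hf' per per' hR hR' hμ hμ1 hμ' hμ1' hν hν' hE T a.1 a.2 b.1 b.2
  have hp0 : Tendsto (fun T => (T - T₀) ^ N * L T) (𝓝[≠] T₀) (𝓝 c) := by
    rw [hL]
    exact hpole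
  -- all the poles
  have hpoles : ∀ a b : ℤ, Tendsto (fun T => (T - (T₀ + a * (M / ν) + b * (M' / ν'))) ^ N * L T)
      (𝓝[≠] (T₀ + a * (M / ν) + b * (M' / ν'))) (𝓝 c) := by
    intro a b
    have k1 := pole_shift (t := a * (M / ν)) (fun T => by rw [hL, Ld_per hν per a T]) hp0
    have k2 : Tendsto (fun T => (T - (T₀ + a * (M / ν))) ^ N * L' T)
        (𝓝[≠] (T₀ + a * (M / ν))) (𝓝 c) := by
      refine k1.congr' ?_
      filter_upwards [hagree (T₀ + a * (M / ν))] with T hT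
      rw [hT]
    have k3 := pole_shift (t := b * (M' / ν')) (fun T => by rw [hL', Ld_per hν' per' b T]) k2
    refine k3.congr' ?_
    filter_upwards [hagree (T₀ + a * (M / ν) + b * (M' / ν'))] with T hT
    rw [hT]
  have hzero : ∀ a b : ℤ, ¬ (Real.sin (Real.pi * (μ + ν * (T₀ + a * (M / ν) + b * (M' / ν')))) ≠ 0 ∧
      Real.sin (Real.pi * (μ - ν * (T₀ + a * (M / ν) + b * (M' / ν')))) ≠ 0) := by
    rintro a b ⟨k1, k2⟩
    obtain ⟨T₁, hT₁⟩ : ∃ T₁, T₁ = T₀ + a * (M / ν) + b * (M' / ν') := ⟨_, rfl⟩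
    have k3 := hpoles a b
    rw [← hT₁] at k1 k2 k3
    have k4 : Tendsto (fun T => (T - T₁) ^ N * L T) (𝓝[≠] T₁) (𝓝 0) := by
      have k5 : ContinuousAt L T₁ := by
        rw [hL]
        exact Ld_cont hf k1 k2
      have k6 : ContinuousAt (fun T => (T - T₁) ^ N * L T) T₁ :=
        ContinuousAt.mul (by fun_prop) k5
      have k7 := k6.tendsto
      rw [sub_self, zero_pow (by omega), zero_mul] at k7
      exact k7.mono_left nhdsWithin_le_nhds
    exact hc (tendsto_nhds_unique k3 k4)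
  -- the periods are commensurable
  have hMν : 0 < (M : ℝ) / ν := by
    have : (0 : ℝ) < M := by exact_mod_cast hM
    positivity
  have hMν' : 0 < (M' : ℝ) / ν' := by
    have : (0 : ℝ) < M' := by exact_mod_cast hM'
    positivity
  have hcomm : ∃ (k : ℕ) (k' : ℤ), 0 < k ∧ (k : ℝ) * (M / ν) = k' * (M' / ν') := by
    by_contra hcon
    push Not at hcon
    have hev := both_punct μ hν.ne' T₀
    rw [eventually_nhdsWithin_iff, Metric.eventually_nhds_iff] at hev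
    obtain ⟨ε, hε, hev⟩ := hev
    obtain ⟨J, hJ⟩ := exists_nat_gt (M' / ν' / ε)
    obtain ⟨k, k', hk, hkk⟩ := returns ((M / ν) / (M' / ν')) (J + 1)
    have e1 : |(k : ℝ) * (M / ν) - k' * (M' / ν')| ≤ M' / ν' / (((J + 1 : ℕ) : ℝ) + 1) := by
      have e2 : (k : ℝ) * (M / ν) - k' * (M' / ν') =
          (k * (M / ν / (M' / ν')) - k') * (M' / ν') := by
        field_simp
      rw [e2, abs_mul, abs_of_pos hMν', div_eq_mul_inv (M' / ν'), mul_comm (M' / ν')]
      refine mul_le_mul_of_nonneg_right ?_ hMν'.le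
      rw [← one_div]
      exact hkk
    have e3 : M' / ν' / (((J + 1 : ℕ) : ℝ) + 1) < ε := by
      rw [div_lt_iff₀ (by positivity)]
      rw [div_lt_iff₀ hε] at hJ
      push_cast
      nlinarith
    have e4 := hcon k k' (by omega)
    have e5 : T₀ + ((k : ℤ) : ℝ) * (M / ν) + ((-k' : ℤ) : ℝ) * (M' / ν') =
        T₀ + (k * (M / ν) - k' * (M' / ν')) := by
      push_cast
      ring
    refine hzero k (-k') ?_
    rw [e5]
    refine hev ?_ ?_
    · rw [Real.dist_eq, add_sub_cancel_left]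
      exact lt_of_le_of_lt e1 e3
    · simp only [Set.mem_compl_iff, Set.mem_singleton_iff]
      intro h0
      apply e4
      linarith
  obtain ⟨k, k', hk, hkk⟩ := hcomm
  -- the polynomial
  obtain ⟨P, hP⟩ : ∃ P : Polynomial ℝ, P = ∑ i ∈ s, (Polynomial.C (f i (μ + ν * T)) * R i +
      Polynomial.C (f i (μ - ν * T)) * (R i).comp (-Polynomial.X)) -
      ∑ i ∈ s', (Polynomial.C (f' i (μ' + ν' * T)) * R' i +
      Polynomial.C (f' i (μ' - ν' * T)) * (R' i).comp (-Polynomial.X)) := ⟨_, rfl⟩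
  have hPe : ∀ x : ℝ, P.eval x = (∑ i ∈ s, ((R i).eval x * f i (μ + ν * T) +
      (R i).eval (-x) * f i (μ - ν * T))) - ∑ i ∈ s', ((R' i).eval x * f' i (μ' + ν' * T) +
        (R' i).eval (-x) * f' i (μ' - ν' * T)) := by
    intro x
    rw [hP, Polynomial.eval_sub, Polynomial.eval_finsetSum, Polynomial.eval_finsetSum]
    congr 1
    · refine sum_congr rfl fun i _ => ?_
      simp only [Polynomial.eval_add, Polynomial.eval_mul, Polynomial.eval_C,
        Polynomial.eval_comp, Polynomial.eval_neg, Polynomial.eval_X]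
      ring
    · refine sum_congr rfl fun i _ => ?_
      simp only [Polynomial.eval_add, Polynomial.eval_mul, Polynomial.eval_C,
        Polynomial.eval_comp, Polynomial.eval_neg, Polynomial.eval_X]
      ring
  have hroot : ∀ j : ℕ, P.eval (T + j * (k * (M / ν))) = 0 := by
    intro j
    rw [hPe, sub_eq_zero]
    have e1 : μ + ν * (T + j * (k * (M / ν))) = μ + ν * T + ((j * k : ℕ) : ℤ) * M := by
      push_cast
      field_simp
      ring
    have e2 : μ - ν * (T + j * (k * (M / ν))) = μ - ν * T + ((-(j * k : ℕ) : ℤ) : ℝ) * M := by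
      push_cast
      field_simp
      ring
    have e3 : μ' + ν' * (T + j * (k * (M / ν))) = μ' + ν' * T + ((j * k' : ℤ) : ℝ) * M' := by
      rw [hkk]
      push_cast
      field_simp
      ring
    have e4 : μ' - ν' * (T + j * (k * (M / ν))) = μ' - ν' * T + ((-(j * k') : ℤ) : ℝ) * M' := by
      rw [hkk]
      push_cast
      field_simp
      ring
    have s1 : Real.sin (Real.pi * (μ + ν * (T + j * (k * (M / ν))))) ≠ 0 := by
      rw [e1]
      have := sin_shift (((j * k : ℕ) : ℤ) * M) _ h1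
      push_cast at this ⊢
      exact this
    have s2 : Real.sin (Real.pi * (μ - ν * (T + j * (k * (M / ν))))) ≠ 0 := by
      rw [e2]
      have := sin_shift ((-(j * k : ℕ) : ℤ) * M) _ h2
      push_cast at this ⊢
      exact this
    have s3 : Real.sin (Real.pi * (μ' + ν' * (T + j * (k * (M / ν))))) ≠ 0 := by
      rw [e3]
      have := sin_shift ((j * k' : ℤ) * M') _ h1'
      push_cast at this ⊢
      exact this
    have s4 : Real.sin (Real.pi * (μ' - ν' * (T + j * (k * (M / ν))))) ≠ 0 := by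
      rw [e4]
      have := sin_shift ((-(j * k') : ℤ) * M') _ h2'
      push_cast at this ⊢
      exact this
    have h5 := Pool.Agent.Zk62.LN.ident (g := fun T => Sg s R f μ ν T)
      (h := fun T => Sg s' R' f' μ' ν' T) (mero_Sg hf μ ν) (mero_Sg hf' μ' ν') hE
      (cont_Sg hf s1 s2) (cont_Sg hf' s3 s4)
    simp only [Sg] at h5
    rw [e1, e2, e3, e4] at h5
    have h6 : ∀ i ∈ s, f i (μ + ν * T + ((j * k : ℕ) : ℤ) * M) = f i (μ + ν * T) :=
      fun i hi => per_int (per i hi) _ _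
    have h7 : ∀ i ∈ s, f i (μ - ν * T + ((-(j * k : ℕ) : ℤ) : ℝ) * M) = f i (μ - ν * T) :=
      fun i hi => per_int (per i hi) _ _
    have h8 : ∀ i ∈ s', f' i (μ' + ν' * T + ((j * k' : ℤ) : ℝ) * M') = f' i (μ' + ν' * T) :=
      fun i hi => per_int (per' i hi) _ _
    have h9 : ∀ i ∈ s', f' i (μ' - ν' * T + ((-(j * k') : ℤ) : ℝ) * M') = f' i (μ' - ν' * T) :=
      fun i hi => per_int (per' i hi) _ _
    rw [sum_congr rfl fun i hi => by rw [h6 i hi, h7 i hi],
      sum_congr (s₁ := s') rfl fun i hi => by rw [h8 i hi, h9 i hi]] at h5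
    exact h5
  have hP0 : P = 0 := by
    refine Polynomial.eq_zero_of_infinite_isRoot P ?_
    refine Set.infinite_of_injective_forall_mem (f := fun j : ℕ => T + j * (k * (M / ν))) ?_ hroot
    intro i j hij
    have hk' : (k : ℝ) * (M / ν) ≠ 0 := by
      have : (0 : ℝ) < k := by exact_mod_cast hk
      positivity
    have := mul_right_cancel₀ hk' (add_left_cancel hij)
    exact_mod_cast this
  have h5 := hPe y
  rw [hP0, Polynomial.eval_zero] at h5
  exact (sub_eq_zero.1 h5.symm)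

end Pool.Agent.Zk79.LN
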