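import Pool.Agent.Zk79.LN.Tf

set_option autoImplicit false

/-! A cosine inequality. -/

namespace Pool.Agent.Zk79.LN

open Finset

theorem cp_big {B : Finset ℕ} (hB : ∀ b ∈ B, 2 ≤ b) (hc : 3 ≤ B.card) (h2 : 2 ∉ B) :
    2 < cp B := by
  obtain ⟨c, hcB, hc5⟩ : ∃ c ∈ B, 5 ≤ c := by
    by_contra hcon
    push Not at hcon
    have h3 : B ⊆ {3, 4} := by
      intro b hb
      have h4 := hB b hb
      have h5 := hcon b hb
      have h6 : b ≠ 2 := fun h => h2 (h ▸ hb)
      simp only [mem_insert, mem_singleton]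
      omega
    have := card_le_card h3
    have h7 : ({3, 4} : Finset ℕ).card = 2 := by decide
    omega
  have h3 : cp B = 2 * Real.cos (Real.pi / c) * cp (B.erase c) := by
    unfold cp
    exact (mul_prod_erase B (fun b : ℕ => 2 * Real.cos (Real.pi / b)) hcB).symm
  have h4 := cp_large (B := B.erase c) (fun b hb => hB b (mem_of_mem_erase hb))
    (by rw [card_erase_of_mem hcB]; omega) (fun h => h2 (mem_of_mem_erase h))
  have h5 := five_le_cos hc5
  have h6 := one_lt_sqrt
  rw [h3]
  nlinarith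

theorem cp_add_ne' {A B : Finset ℕ} (hA : ∀ a ∈ A, 2 ≤ a) (hB : ∀ b ∈ B, 2 ≤ b)
    (hcA : 2 ≤ A.card) (hAB : A.card = B.card) : cp A + cp B ≠ 2 := by
  rcases hcA.lt_or_eq with h | h
  · by_cases h2 : 2 ∈ A
    · rw [cp_zero h2, zero_add]
      by_cases h3 : 2 ∈ B
      · rw [cp_zero h3]
        norm_num
      · exact (cp_big hB (by omega) h3).ne'
    · have h3 := cp_big hA (by omega) h2
      have h4 := cp_nonneg hB
      intro h5
      linarith
  · exact cp_add_ne hA hB (by omega) (by omega)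

end Pool.Agent.Zk79.LN
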