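import Pool.Agent.Zk79.LN.Sep2
import Pool.Agent.Zk79.LM.Fin

set_option autoImplicit false
set_option maxHeartbeats 400000

/-! The final statement for two nodes. -/

namespace Pool.Agent.Zk79.LM

/-- the diagram `D` with its two nodes exchanged (for `n = 1`) -/
def Diagram.swap (D : Diagram) : Diagram where
  n := D.n
  parent := D.parent
  up := fun i => if i = 1 then D.down 1 else 0
  down := fun i => if i = 1 then D.up 1 else 0
  leaves := fun i => if i = 0 then D.leaves 1 else if i = 1 then D.leaves 0 else ∅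

end Pool.Agent.Zk79.LM

namespace Pool.Agent.Zk79.LN

open Finset Pool.Agent.Zk79.LM Pool.Agent.Zk79.LM.Diagram PowerSeries

variable {D D' : Diagram}

theorem gauss_eq (h : D.IsSplice) (h' : D'.IsSplice) {φ φ' : ℂ}
    (ho : D.ohtsuki φ = D'.ohtsuki φ') : D.gaussSeries = D'.gaussSeries := by
  have h1 := (main h h' ho).1
  have h2 := of_ohtsuki ho
  rw [h1, sub_self, zero_div, rescale_zero_apply] at h2
  have h3 : D.gaussSeries.map (algebraMap ℝ ℂ) = D'.gaussSeries.map (algebraMap ℝ ℂ) := by
    rw [← h2]
    simp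
  ext k
  have h4 := congrArg (coeff k) h3
  rw [coeff_map, coeff_map] at h4
  exact (algebraMap ℝ ℂ).injective h4

theorem eq_of_data (h : D.IsSplice) (h' : D'.IsSplice) (hn : D.n = 1) (hn' : D'.n = 1)
    (hl : ∀ v ≤ 1, D.leaves v = D'.leaves v) (he : ∀ v ≤ 1, ed D v = ed D' v) : D = D' := by
  have e0 := he 0 (by omega)
  have e1 := he 1 (by omega)
  simp only [ed, if_true] at e0
  simp only [ed, one_ne_zero, if_false] at e1
  apply Diagram.ext
  · rw [hn, hn']
  · funext i
    rcases Nat.lt_or_ge 1 i with h0 | h0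
    · rw [h.parent_zero i (by omega), h'.parent_zero i (by omega)]
    · obtain rfl | rfl : i = 0 ∨ i = 1 := by omega
      · rw [h.zero.1, h'.zero.1]
      · have := h.parent_lt 1 (by omega) (by omega)
        have := h'.parent_lt 1 (by omega) (by omega)
        omega
  · funext i
    rcases Nat.lt_or_ge 1 i with h0 | h0
    · rw [(h.weight_zero i (by omega)).1, (h'.weight_zero i (by omega)).1]
    · obtain rfl | rfl : i = 0 ∨ i = 1 := by omega
      · rw [h.zero.2.1, h'.zero.2.1]
      · exact e1
  · funext i
    rcases Nat.lt_or_ge 1 i with h0 | h0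
    · rw [(h.weight_zero i (by omega)).2, (h'.weight_zero i (by omega)).2]
    · obtain rfl | rfl : i = 0 ∨ i = 1 := by omega
      · rw [h.zero.2.2, h'.zero.2.2]
      · exact e0
  · funext i
    rcases Nat.lt_or_ge 1 i with h0 | h0
    · rw [h.leaves_zero i (by omega), h'.leaves_zero i (by omega)]
    · exact hl i h0

theorem eq_swap_of_data (h : D.IsSplice) (h' : D'.IsSplice) (hn : D.n = 1) (hn' : D'.n = 1)
    (hl : ∀ v ≤ 1, D.leaves v = D'.leaves (1 - v)) (he : ∀ v ≤ 1, ed D v = ed D' (1 - v)) :
    D' = D.swap := by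
  have e0 := he 0 (by omega)
  have e1 := he 1 (by omega)
  simp only [ed, if_true, Nat.sub_zero, one_ne_zero, if_false] at e0
  simp only [ed, one_ne_zero, if_false, Nat.sub_self, if_true] at e1
  apply Diagram.ext
  · show D'.n = D.n
    rw [hn, hn']
  · funext i
    show D'.parent i = D.parent i
    rcases Nat.lt_or_ge 1 i with h0 | h0
    · rw [h.parent_zero i (by omega), h'.parent_zero i (by omega)]
    · obtain rfl | rfl : i = 0 ∨ i = 1 := by omega
      · rw [h.zero.1, h'.zero.1]
      · have := h.parent_lt 1 (by omega) (by omega)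
        have := h'.parent_lt 1 (by omega) (by omega)
        omega
  · funext i
    show D'.up i = if i = 1 then D.down 1 else 0
    rcases Nat.lt_or_ge 1 i with h0 | h0
    · rw [if_neg (by omega), (h'.weight_zero i (by omega)).1]
    · obtain rfl | rfl : i = 0 ∨ i = 1 := by omega
      · rw [if_neg (by omega), h'.zero.2.1]
      · rw [if_pos rfl, e0]
  · funext i
    show D'.down i = if i = 1 then D.up 1 else 0
    rcases Nat.lt_or_ge 1 i with h0 | h0
    · rw [if_neg (by omega), (h'.weight_zero i (by omega)).2]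
    · obtain rfl | rfl : i = 0 ∨ i = 1 := by omega
      · rw [if_neg (by omega), h'.zero.2.2]
      · rw [if_pos rfl, e1]
  · funext i
    show D'.leaves i = if i = 0 then D.leaves 1 else if i = 1 then D.leaves 0 else ∅
    rcases Nat.lt_or_ge 1 i with h0 | h0
    · rw [if_neg (by omega), if_neg (by omega), h'.leaves_zero i (by omega)]
    · obtain rfl | rfl : i = 0 ∨ i = 1 := by omega
      · rw [if_pos rfl, hl 1 le_rfl]
      · rw [if_neg one_ne_zero, if_pos rfl, hl 0 (by omega)]

/-- two pieces -/
theorem two_pieces (h : D.IsSplice) (h' : D'.IsSplice) {φ φ' : ℂ}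
    (ho : D.ohtsuki φ = D'.ohtsuki φ') (hn : D.n = 1) {v w : ℕ} (hv : v ≤ 1) (hw : w ≤ 1)
    (hP : D.P w < D.P v) (hc : D.valence v = 3) : D' = D ∨ D' = D.swap := by
  have hvw : v ≠ w := by
    rintro rfl
    omega
  obtain ⟨-, h1, h2, -⟩ := main h h' ho
  have hn' : D'.n = 1 := by rw [← h1, hn]
  have hG := gauss_eq h h' ho
  obtain ⟨v', hv', hP'⟩ := exists_Pmax (D := D')
  have hv1 : v' ≤ 1 := by omega
  obtain ⟨u, hu, hPu⟩ := exists_Pmax (D := D)
  have hu1 : u = v := by
    by_contra hne
    obtain rfl : u = w := by omega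
    have := P_le_Pmax (D := D) (v := v) (by omega)
    omega
  rw [hu1] at hPu
  have hle := P_le_Pmax (D := D') (v := 1 - v') (by omega)
  rw [valence_two h hn hv] at hc
  obtain ⟨e1, e2, e3, e4⟩ := sep_two h h' hn hn' (fun k => by rw [hG]) hv hw hvw hv1
    (by omega : 1 - v' ≤ 1) (by omega) (by rw [hPu, hP', h2]) hP (by rw [hP']; exact hle)
    (by omega)
  rcases eq_or_ne v' v with hvv | hvv
  · left
    have hww : 1 - v' = w := by omega
    rw [hvv] at e1 e3
    rw [hww] at e2 e4
    refine (eq_of_data h h' hn hn' (fun x hx => ?_) fun x hx => ?_).symm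
    · obtain rfl | rfl : x = v ∨ x = w := by omega
      · exact e1
      · exact e2
    · obtain rfl | rfl : x = v ∨ x = w := by omega
      · exact e3
      · exact e4
  · right
    have hvw' : v' = w := by omega
    have hww : 1 - v' = v := by omega
    have hwv : 1 - v = w := by omega
    have hvw2 : 1 - w = v := by omega
    rw [hvw'] at e1 e3
    rw [hww] at e2 e4
    refine eq_swap_of_data h h' hn hn' (fun x hx => ?_) fun x hx => ?_
    · obtain rfl | rfl : x = v ∨ x = w := by omega
      · rw [hwv]
        exact e1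
      · rw [hvw2]
        exact e2
    · obtain rfl | rfl : x = v ∨ x = w := by omega
      · rw [hwv]
        exact e3
      · rw [hvw2]
        exact e4

end Pool.Agent.Zk79.LN
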