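import Pool.Agent.Zk79.LN.Sep3
import Pool.Agent.Zk79.LN.Fin2

set_option autoImplicit false
set_option maxHeartbeats 400000

/-! The final statement for two nodes with different products. -/

namespace Pool.Agent.Zk79.LN

open Finset Pool.Agent.Zk79.LM Pool.Agent.Zk79.LM.Diagram PowerSeries

variable {D D' : Diagram}

/-- from the data of the nodes to the diagrams -/
theorem conclude (h : D.IsSplice) (h' : D'.IsSplice) (hn : D.n = 1) (hn' : D'.n = 1)
    {v w v' w' : ℕ} (hv : v ≤ 1) (hw : w ≤ 1) (hvw : v ≠ w) (hv' : v' ≤ 1) (hw' : w' ≤ 1)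
    (hvw' : v' ≠ w') (e1 : D.leaves v = D'.leaves v') (e2 : D.leaves w = D'.leaves w')
    (e3 : ed D v = ed D' v') (e4 : ed D w = ed D' w') : D' = D ∨ D' = D.swap := by
  rcases eq_or_ne v' v with hvv | hvv
  · left
    have hww : w' = w := by omega
    rw [hvv] at e1 e3
    rw [hww] at e2 e4
    refine (eq_of_data h h' hn hn' (fun x hx => ?_) fun x hx => ?_).symm
    · obtain rfl | rfl : x = v ∨ x = w := by omega
      · exact e1
      · exact e2
    · obtain rfl | rfl : x = v ∨ x = w := by omega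
      · exact e3
      · exact e4
  · right
    have hvw' : v' = w := by omega
    have hww : w' = v := by omega
    have hwv : 1 - v = w := by omega
    have hvw2 : 1 - w = v := by omega
    rw [hvw'] at e1 e3
    rw [hww] at e2 e4
    refine eq_swap_of_data h h' hn hn' (fun x hx => ?_) fun x hx => ?_
    · obtain rfl | rfl : x = v ∨ x = w := by omega
      · rw [hwv]
        exact e1
      · rw [hvw2]
        exact e2
    · obtain rfl | rfl : x = v ∨ x = w := by omega
      · rw [hwv]
        exact e3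
      · rw [hvw2]
        exact e4

/-- two pieces with different products, for both diagrams -/
theorem two_pieces3 (h : D.IsSplice) (h' : D'.IsSplice) {φ φ' : ℂ}
    (ho : D.ohtsuki φ = D'.ohtsuki φ') (hn : D.n = 1) (hP : D.P 0 ≠ D.P 1)
    (hP' : D'.P 0 ≠ D'.P 1) : D' = D ∨ D' = D.swap := by
  obtain ⟨-, h1, h2, -⟩ := main h h' ho
  have hn' : D'.n = 1 := by rw [← h1, hn]
  have hG := gauss_eq h h' ho
  have key : ∀ D : Diagram, D.n = 1 → D.P 0 ≠ D.P 1 →
      ∃ v w, v ≤ 1 ∧ w ≤ 1 ∧ v ≠ w ∧ D.P w < D.P v ∧ D.P v = D.Pmax := by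
    intro D hn hP
    obtain ⟨v, hv, hPv⟩ := exists_Pmax (D := D)
    have hle := P_le_Pmax (D := D) (v := 1 - v) (by omega)
    refine ⟨v, 1 - v, by omega, by omega, by omega, ?_, hPv⟩
    rw [hPv]
    refine lt_of_le_of_ne hle fun h0 => hP ?_
    rw [← hPv] at h0
    obtain rfl | rfl : v = 0 ∨ v = 1 := by omega
    · exact h0.symm
    · exact h0
  obtain ⟨v, w, hv, hw, hvw, hlt, hPv⟩ := key D hn hP
  obtain ⟨v', w', hv', hw', hvw', hlt', hPv'⟩ := key D' hn' hP'
  obtain ⟨e1, e2, e3, e4⟩ := sepG h h' hn hn' (fun k => by rw [hG]) hv hw hvw hv' hw' hvw'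
    (by rw [hPv, hPv', h2]) hlt hlt'
  exact conclude h h' hn hn' hv hw hvw hv' hw' hvw' e1 e2 e3 e4

end Pool.Agent.Zk79.LN
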