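import Pool.Agent.Zk79.LN.Tf
import Pool.Agent.Zk52.LN.Four

set_option autoImplicit false
set_option maxHeartbeats 400000

/-! Products of two sines at the natural numbers, with the same period. -/

namespace Pool.Agent.Zk79.LN

open Finset

theorem sum_cos {g x : ℕ} (hg : 0 < g) (h0 : 0 < x) (hx : x < 2 * g) :
    ∑ m ∈ range (2 * g), Real.cos (Real.pi * m * x / g) = 0 := by
  have h1 := Pool.Agent.Zk52.LN.sin_sum (a := 2 * g) (c := x) (by omega)
    (fun h => by
      have := Nat.le_of_dvd h0 h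
      omega) (Real.pi / 2)
  rw [← h1]
  refine sum_congr rfl fun m _ => ?_
  rw [add_comm, Real.sin_add_pi_div_two]
  congr 1
  have : (g : ℝ) ≠ 0 := by exact_mod_cast hg.ne'
  push_cast
  field_simp

theorem orth {g s y : ℕ} (hs : 0 < s) (hsg : s < g) (hy : 0 < y) (hyg : y < g) :
    ∑ m ∈ range (2 * g), Real.cos (Real.pi * m * s / g) * Real.cos (Real.pi * m * y / g) =
      if s = y then (g : ℝ) else 0 := by
  have hg : 0 < g := by omega
  have hg' : (g : ℝ) ≠ 0 := by exact_mod_cast hg.ne'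
  have h1 := sum_cos (g := g) (x := s + y) hg (by omega) (by omega)
  have key : ∀ t : ℕ, (t : ℝ) = s - y ∨ (t : ℝ) = y - s →
      ∑ m ∈ range (2 * g), Real.cos (Real.pi * m * s / g) * Real.cos (Real.pi * m * y / g) =
        (∑ m ∈ range (2 * g), Real.cos (Real.pi * m * t / g)) / 2 := by
    intro t ht
    have h2 : ∑ m ∈ range (2 * g), Real.cos (Real.pi * m * s / g) *
        Real.cos (Real.pi * m * y / g) = (∑ m ∈ range (2 * g),
          Real.cos (Real.pi * m * (s + y : ℕ) / g) +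
            ∑ m ∈ range (2 * g), Real.cos (Real.pi * m * t / g)) / 2 := by
      rw [← sum_add_distrib, sum_div]
      refine sum_congr rfl fun m _ => ?_
      have e1 : Real.cos (Real.pi * m * (s + y : ℕ) / g) = Real.cos (Real.pi * m * s / g +
          Real.pi * m * y / g) := by
        congr 1
        push_cast
        ring
      have e2 : Real.cos (Real.pi * m * t / g) = Real.cos (Real.pi * m * s / g -
          Real.pi * m * y / g) := by
        rcases ht with h | h
        · rw [h]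
          congr 1
          ring
        · rw [h, ← Real.cos_neg]
          congr 1
          ring
      rw [e1, e2, Real.cos_add, Real.cos_sub]
      ring
    rw [h2, h1, zero_add]
  rcases lt_trichotomy s y with h | h | h
  · rw [if_neg (by omega), key (y - s) (Or.inr (by rw [Nat.cast_sub h.le])),
      sum_cos hg (by omega) (by omega), zero_div]
  · rw [if_pos h, key 0 (Or.inl (by rw [h]; simp))]
    simp
  · rw [if_neg (by omega), key (s - y) (Or.inl (by rw [Nat.cast_sub h.le])),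
      sum_cos hg (by omega) (by omega), zero_div]

/-- the coefficients of a product of two sines -/
theorem pair_coef {A : Finset ℕ} (hA : ∀ a ∈ A, 2 ≤ a)
    (cA : ∀ a ∈ A, ∀ b ∈ A, a ≠ b → a.Coprime b) (kA : A.card = 2) :
    ∃ d : ℕ, 0 < d ∧ d < ∑ a ∈ A, a ∧ ∑ a ∈ A, a < ∏ a ∈ A, a ∧ ∀ y : ℕ, 0 < y →
      y < ∏ a ∈ A, a → ∑ m ∈ range (2 * ∏ a ∈ A, a), sp A m *
        Real.cos (Real.pi * m * y / (∏ a ∈ A, a : ℕ)) = ((∏ a ∈ A, a : ℕ) : ℝ) / 2 *
          ((if d = y then 1 else 0) - (if ∑ a ∈ A, a = y then 1 else 0)) := by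
  obtain ⟨a, b, hab, rfl⟩ := card_eq_two.1 kA
  wlog hlt : a < b generalizing a b with H
  · have h1 := H b a (Ne.symm hab) (by rw [pair_comm]; exact hA) (by rw [pair_comm]; exact cA)
      (by rw [pair_comm]; exact kA) (by omega)
    rw [pair_comm] at h1
    exact h1
  have ha : 2 ≤ a := hA a (by simp)
  have hb : 2 ≤ b := hA b (by simp)
  rw [prod_pair hab, sum_pair hab]
  have hsum : a + b < a * b := by nlinarith
  have ha' : (a : ℝ) ≠ 0 := by positivity
  have hb' : (b : ℝ) ≠ 0 := by positivity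
  refine ⟨b - a, by omega, by omega, hsum, fun y hy hyg => ?_⟩
  have h1 : ∀ m : ℕ, sp {a, b} (m : ℝ) * Real.cos (Real.pi * m * y / (a * b : ℕ)) =
      (Real.cos (Real.pi * m * (b - a : ℕ) / (a * b : ℕ)) *
        Real.cos (Real.pi * m * y / (a * b : ℕ)) -
      Real.cos (Real.pi * m * (a + b : ℕ) / (a * b : ℕ)) *
        Real.cos (Real.pi * m * y / (a * b : ℕ))) / 2 := by
    intro m
    rw [sp, prod_pair hab]
    have e1 : Real.cos (Real.pi * m * (b - a : ℕ) / (a * b : ℕ)) =
        Real.cos (Real.pi * m / a - Real.pi * m / b) := by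
      congr 1
      rw [Nat.cast_sub hlt.le]
      push_cast
      field_simp
    have e2 : Real.cos (Real.pi * m * (a + b : ℕ) / (a * b : ℕ)) =
        Real.cos (Real.pi * m / a + Real.pi * m / b) := by
      congr 1
      push_cast
      field_simp
      ring
    rw [e1, e2, Real.cos_sub, Real.cos_add]
    ring
  simp_rw [h1]
  rw [← sum_div, sum_sub_distrib, orth (by omega) (by omega) hy hyg,
    orth (by omega) (by omega) hy hyg]
  split_ifs <;> ring

theorem pair_eq {A B : Finset ℕ} (kA : A.card = 2) (kB : B.card = 2)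
    (h1 : ∑ a ∈ A, a = ∑ b ∈ B, b) (h2 : ∏ a ∈ A, a = ∏ b ∈ B, b) : A = B := by
  obtain ⟨a, b, hab, rfl⟩ := card_eq_two.1 kA
  obtain ⟨c, d, hcd, rfl⟩ := card_eq_two.1 kB
  rw [sum_pair hab, sum_pair hcd] at h1
  rw [prod_pair hab, prod_pair hcd] at h2
  have h3 : ((a : ℤ) - c) * ((a : ℤ) - d) = 0 := by
    have h4 : (b : ℤ) = c + d - a := by
      have : (a : ℤ) + b = c + d := by exact_mod_cast h1
      linarith
    have h5 : (a : ℤ) * b = c * d := by exact_mod_cast h2
    rw [h4] at h5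
    linear_combination -h5
  rcases mul_eq_zero.1 h3 with h4 | h4
  · have : a = c := by
      have : (a : ℤ) = c := by linarith
      exact_mod_cast this
    subst this
    have : b = d := by omega
    rw [this]
  · have : a = d := by
      have : (a : ℤ) = d := by linarith
      exact_mod_cast this
    subst this
    have : b = c := by omega
    rw [this, pair_comm]

/-- the functional at a large `y` -/
theorem pair_top {A : Finset ℕ} (hA : ∀ a ∈ A, 2 ≤ a)
    (cA : ∀ a ∈ A, ∀ b ∈ A, a ≠ b → a.Coprime b) (kA : A.card = 2) {g y : ℕ}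
    (hg : ∏ a ∈ A, a = g) (hy : ∑ a ∈ A, a ≤ y) (hyg : y < g) :
    ∑ m ∈ range (2 * g), sp A m * Real.cos (Real.pi * m * y / g) =
      -(g / 2) * (if ∑ a ∈ A, a = y then 1 else 0) := by
  obtain ⟨d, h1, h2, h3, h4⟩ := pair_coef hA cA kA
  rw [hg] at h3 h4
  rw [h4 y (by omega) hyg, if_neg (by omega : ¬ d = y)]
  ring

/-- if one of the sets is the same on both sides -/
theorem pair_fin {A B B' : Finset ℕ} (hA : ∀ a ∈ A, 2 ≤ a) (hB : ∀ a ∈ B, 2 ≤ a)
    (hB' : ∀ a ∈ B', 2 ≤ a)
    (cA : ∀ a ∈ A, ∀ b ∈ A, a ≠ b → a.Coprime b) (cB : ∀ a ∈ B, ∀ b ∈ B, a ≠ b → a.Coprime b)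
    (cB' : ∀ a ∈ B', ∀ b ∈ B', a ≠ b → a.Coprime b) (kA : A.card = 2) (kB : B.card = 2)
    (kB' : B'.card = 2) {g : ℕ} (gA : ∏ a ∈ A, a = g) (gB : ∏ a ∈ B, a = g)
    (gB' : ∏ a ∈ B', a = g) {α β α' β' : ℝ} (hβ : 0 < β) (hβ' : 0 < β')
    (h : ∀ m : ℕ, α * sp A m + β * sp B m = α' * sp A m + β' * sp B' m) : B = B' := by
  obtain ⟨-, -, -, lA, -⟩ := pair_coef hA cA kA
  obtain ⟨-, -, -, lB, -⟩ := pair_coef hB cB kB
  obtain ⟨-, -, -, lB', -⟩ := pair_coef hB' cB' kB'
  rw [gA] at lA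
  rw [gB] at lB
  rw [gB'] at lB'
  obtain ⟨y, hy⟩ : ∃ y, y = max (∑ a ∈ A, a) (max (∑ a ∈ B, a) (∑ a ∈ B', a)) := ⟨_, rfl⟩
  have hyg : y < g := by omega
  have hg : (0 : ℝ) < g := by exact_mod_cast (by omega : 0 < g)
  have t1 := pair_top hA cA kA gA (y := y) (by omega) hyg
  have t2 := pair_top hB cB kB gB (y := y) (by omega) hyg
  have t3 := pair_top hB' cB' kB' gB' (y := y) (by omega) hyg
  have h2 : α * ∑ m ∈ range (2 * g), sp A m * Real.cos (Real.pi * m * y / g) +
      β * ∑ m ∈ range (2 * g), sp B m * Real.cos (Real.pi * m * y / g) =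
      α' * ∑ m ∈ range (2 * g), sp A m * Real.cos (Real.pi * m * y / g) +
      β' * ∑ m ∈ range (2 * g), sp B' m * Real.cos (Real.pi * m * y / g) := by
    simp_rw [mul_sum, ← sum_add_distrib]
    refine sum_congr rfl fun m _ => ?_
    linear_combination Real.cos (Real.pi * m * y / g) * h m
  rw [t1, t2, t3] at h2
  have h3 : α * (if ∑ a ∈ A, a = y then (1 : ℝ) else 0) + β * (if ∑ a ∈ B, a = y then 1 else 0) =
      α' * (if ∑ a ∈ A, a = y then 1 else 0) + β' * (if ∑ a ∈ B', a = y then 1 else 0) := by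
    have h4 : -((g : ℝ) / 2) ≠ 0 := by
      have : (0 : ℝ) < g / 2 := by positivity
      linarith
    refine mul_left_cancel₀ h4 ?_
    linear_combination h2
  have hpos := sp_one_pos hB
  have hpos' := sp_one_pos hB'
  have h1 := h 1
  rw [Nat.cast_one] at h1
  by_cases xB : ∑ a ∈ B, a = y
  · by_cases xB' : ∑ a ∈ B', a = y
    · exact pair_eq kB kB' (by rw [xB, xB']) (by rw [gB, gB'])
    · exfalso
      rw [if_pos xB, if_neg xB'] at h3
      by_cases xA : ∑ a ∈ A, a = y
      · have hAB : A = B := pair_eq kA kB (by rw [xA, xB]) (by rw [gA, gB])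
        rw [if_pos xA] at h3
        rw [hAB] at h1
        have : β' * sp B' 1 = 0 := by linear_combination sp B 1 * h3 - h1
        have := mul_pos hβ' hpos'
        linarith
      · rw [if_neg xA] at h3
        linarith
  · by_cases xB' : ∑ a ∈ B', a = y
    · exfalso
      rw [if_neg xB, if_pos xB'] at h3
      by_cases xA : ∑ a ∈ A, a = y
      · have hAB : A = B' := pair_eq kA kB' (by rw [xA, xB']) (by rw [gA, gB'])
        rw [if_pos xA] at h3
        rw [hAB] at h1
        have : β * sp B 1 = 0 := by linear_combination h1 - sp B' 1 * h3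
        have := mul_pos hβ hpos
        linarith
      · rw [if_neg xA] at h3
        linarith
    · have xA : ∑ a ∈ A, a = y := by omega
      rw [if_neg xB, if_neg xB', if_pos xA] at h3
      have h4 : α = α' := by linarith
      refine set_eq hB hB' cB cB' fun m => ?_
      have h5 := h m
      rw [h4] at h5
      have h6 := add_left_cancel h5
      constructor
      · intro h7
        rw [h7, mul_zero] at h6
        exact (mul_eq_zero.1 h6.symm).resolve_left hβ'.ne'
      · intro h7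
        rw [h7, mul_zero] at h6
        exact (mul_eq_zero.1 h6).resolve_left hβ.ne'

/-- the case of equal products for sets with two elements -/
theorem four_pairs {A B A' B' : Finset ℕ} (hA : ∀ a ∈ A, 2 ≤ a) (hB : ∀ a ∈ B, 2 ≤ a)
    (hA' : ∀ a ∈ A', 2 ≤ a) (hB' : ∀ a ∈ B', 2 ≤ a)
    (cA : ∀ a ∈ A, ∀ b ∈ A, a ≠ b → a.Coprime b) (cB : ∀ a ∈ B, ∀ b ∈ B, a ≠ b → a.Coprime b)
    (cA' : ∀ a ∈ A', ∀ b ∈ A', a ≠ b → a.Coprime b)
    (cB' : ∀ a ∈ B', ∀ b ∈ B', a ≠ b → a.Coprime b) (kA : A.card = 2) (kB : B.card = 2)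
    (kA' : A'.card = 2) (kB' : B'.card = 2) {g : ℕ} (gA : ∏ a ∈ A, a = g) (gB : ∏ a ∈ B, a = g)
    (gA' : ∏ a ∈ A', a = g) (gB' : ∏ a ∈ B', a = g) {α β α' β' : ℝ} (hα : 0 < α) (hβ : 0 < β)
    (hα' : 0 < α') (hβ' : 0 < β')
    (h : ∀ m : ℕ, α * sp A m + β * sp B m = α' * sp A' m + β' * sp B' m) :
    (A = A' ∧ B = B') ∨ (A = B' ∧ B = A') := by
  obtain ⟨-, -, -, lA, -⟩ := pair_coef hA cA kA
  obtain ⟨-, -, -, lB, -⟩ := pair_coef hB cB kB
  obtain ⟨-, -, -, lA', -⟩ := pair_coef hA' cA' kA'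
  obtain ⟨-, -, -, lB', -⟩ := pair_coef hB' cB' kB'
  rw [gA] at lA
  rw [gB] at lB
  rw [gA'] at lA'
  rw [gB'] at lB'
  obtain ⟨y, hy⟩ : ∃ y, y = max (max (∑ a ∈ A, a) (∑ a ∈ A', a))
    (max (∑ a ∈ B, a) (∑ a ∈ B', a)) := ⟨_, rfl⟩
  have hyg : y < g := by omega
  have hg : (0 : ℝ) < g := by exact_mod_cast (by omega : 0 < g)
  have t1 := pair_top hA cA kA gA (y := y) (by omega) hyg
  have t1' := pair_top hA' cA' kA' gA' (y := y) (by omega) hyg
  have t2 := pair_top hB cB kB gB (y := y) (by omega) hyg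
  have t3 := pair_top hB' cB' kB' gB' (y := y) (by omega) hyg
  have h2 : α * ∑ m ∈ range (2 * g), sp A m * Real.cos (Real.pi * m * y / g) +
      β * ∑ m ∈ range (2 * g), sp B m * Real.cos (Real.pi * m * y / g) =
      α' * ∑ m ∈ range (2 * g), sp A' m * Real.cos (Real.pi * m * y / g) +
      β' * ∑ m ∈ range (2 * g), sp B' m * Real.cos (Real.pi * m * y / g) := by
    simp_rw [mul_sum, ← sum_add_distrib]
    refine sum_congr rfl fun m _ => ?_
    linear_combination Real.cos (Real.pi * m * y / g) * h m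
  rw [t1, t2, t3, t1'] at h2
  have h3 : α * (if ∑ a ∈ A, a = y then (1 : ℝ) else 0) + β * (if ∑ a ∈ B, a = y then 1 else 0) =
      α' * (if ∑ a ∈ A', a = y then 1 else 0) + β' * (if ∑ a ∈ B', a = y then 1 else 0) := by
    have h4 : -((g : ℝ) / 2) ≠ 0 := by
      have : (0 : ℝ) < g / 2 := by positivity
      linarith
    refine mul_left_cancel₀ h4 ?_
    linear_combination h2
  have hmatch : A = A' ∨ A = B' ∨ B = A' ∨ B = B' := by
    by_cases xA : ∑ a ∈ A, a = y
    · by_cases xA' : ∑ a ∈ A', a = y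
      · exact Or.inl (pair_eq kA kA' (by rw [xA, xA']) (by rw [gA, gA']))
      · by_cases xB' : ∑ a ∈ B', a = y
        · exact Or.inr (Or.inl (pair_eq kA kB' (by rw [xA, xB']) (by rw [gA, gB'])))
        · exfalso
          rw [if_pos xA, if_neg xA', if_neg xB'] at h3
          split_ifs at h3 <;> linarith
    · by_cases xB : ∑ a ∈ B, a = y
      · by_cases xA' : ∑ a ∈ A', a = y
        · exact Or.inr (Or.inr (Or.inl (pair_eq kB kA' (by rw [xB, xA']) (by rw [gB, gA']))))
        · by_cases xB' : ∑ a ∈ B', a = y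
          · exact Or.inr (Or.inr (Or.inr (pair_eq kB kB' (by rw [xB, xB']) (by rw [gB, gB']))))
          · exfalso
            rw [if_neg xA, if_pos xB, if_neg xA', if_neg xB'] at h3
            linarith
      · exfalso
        rw [if_neg xA, if_neg xB] at h3
        have h4 : ∑ a ∈ A', a = y ∨ ∑ a ∈ B', a = y := by omega
        split_ifs at h3 <;> first | linarith | omega
  rcases hmatch with h4 | h4 | h4 | h4
  · subst h4
    left
    exact ⟨rfl, pair_fin hA hB hB' cA cB cB' kA kB kB' gA gB gB' hβ hβ' h⟩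
  · subst h4
    right
    refine ⟨rfl, pair_fin hA hB hA' cA cB cA' kA kB kA' gA gB gA' (α := α) (α' := β') hβ hα'
      fun m => ?_⟩
    rw [h]
    ring
  · subst h4
    right
    refine ⟨pair_fin hB hA hB' cB cA cB' kB kA kB' gB gA gB' (α := β) (α' := α') hα hβ'
      fun m => ?_, rfl⟩
    rw [← h]
    ring
  · subst h4
    left
    refine ⟨pair_fin hB hA hA' cB cA cA' kB kA kA' gB gA gA' (α := β) (α' := β') hα hα'
      fun m => ?_, rfl⟩
    rw [add_comm (β' * _), ← h]
    ring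

end Pool.Agent.Zk79.LN
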