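import Pool.Agent.Zk79.LN.Side6
import Pool.Agent.Zk79.LN.Cg
import Pool.Agent.Zk79.LN.CpA
import Pool.Agent.Zk79.LN.Pairs
import Pool.Agent.Zk52.LN.Four
import Pool.Agent.Zk79.LN.Fin3

set_option autoImplicit false
set_option maxHeartbeats 400000

/-! Comparison of two diagrams with two nodes. -/

namespace Pool.Agent.Zk79.LN

open Finset Pool.Agent.Zk79.LM Pool.Agent.Zk79.LM.Diagram PowerSeries Filter Topology Asymptotics
open Pool.Agent.Zk20.LN (ident)
open Pool.Agent.Zk52.LN (four_sets)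

variable {D D' : Diagram}

theorem sin_near {μ ν : ℝ} (hμ : 0 < μ) (hμ1 : μ < 1) : ∀ᶠ T in 𝓝 (0 : ℝ),
    Real.sin (Real.pi * (μ + ν * T)) ≠ 0 ∧ Real.sin (Real.pi * (μ - ν * T)) ≠ 0 := by
  have h0 : Real.sin (Real.pi * μ) ≠ 0 := by
    have hp := Real.pi_pos
    exact (Real.sin_pos_of_pos_of_lt_pi (by positivity) (by nlinarith)).ne'
  have h1 : ContinuousAt (fun T : ℝ => Real.sin (Real.pi * (μ + ν * T))) 0 := by fun_prop
  have h2 : ContinuousAt (fun T : ℝ => Real.sin (Real.pi * (μ - ν * T))) 0 := by fun_prop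
  filter_upwards [h1.eventually_ne (by simpa using h0), h2.eventually_ne (by simpa using h0)]
    with T h3 h4
  exact ⟨h3, h4⟩

theorem degree_le' {G : ℕ → ℝ} {c c' : ℕ → ℝ} {Q Q' : ℕ} (hc : c' 0 ≠ 0)
    (h : ∀ K : ℕ, (fun n : ℕ => G n / rf Q n - ∑ k ∈ range K, c k * be k (n + Q)) =O[atTop]
      fun n : ℕ => ((n : ℝ) ^ K)⁻¹)
    (h' : ∀ K : ℕ, (fun n : ℕ => G n / rf Q' n - ∑ k ∈ range K, c' k * be k (n + Q')) =O[atTop]
      fun n : ℕ => ((n : ℝ) ^ K)⁻¹) : Q' ≤ Q := degree_le hc (h 1) (h' 1)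

/-- the comparison -/
theorem compare (h : D.IsSplice) (h' : D'.IsSplice) (hn : D.n = 1) (hn' : D'.n = 1)
    {v w v' w' Q Q' : ℕ} (hv : v ≤ 1) (hw : w ≤ 1) (hvw : v ≠ w) (hv' : v' ≤ 1) (hw' : w' ≤ 1)
    (hvw' : v' ≠ w') (hP : D.P w ≤ D.P v) (hP' : D'.P w' ≤ D'.P v')
    (hGG : ∀ k, GG D v w k = GG D' v' w' k) (S : SideData D v w Q) (S' : SideData D' v' w' Q') :
    Q = Q' ∧ (D.leaves w).card = (D'.leaves w').card ∧ muv D v w = muv D' v' w' ∧
      nuv D v w = nuv D' v' w' ∧ (∀ m : ℕ, S.F m = S'.F m) ∧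
      ∀ T : ℝ, Real.sin (Real.pi * (muv D v w + nuv D v w * T)) ≠ 0 →
        Real.sin (Real.pi * (muv D v w - nuv D v w * T)) ≠ 0 →
        S.F (muv D v w + nuv D v w * T) / Real.sin (Real.pi * (muv D v w + nuv D v w * T)) ^
            ((D.leaves w).card - 1) +
          S.F (muv D v w - nuv D v w * T) / Real.sin (Real.pi * (muv D v w - nuv D v w * T)) ^
            ((D.leaves w).card - 1) =
        S'.F (muv D v w + nuv D v w * T) / Real.sin (Real.pi * (muv D v w + nuv D v w * T)) ^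
            ((D.leaves w).card - 1) +
          S'.F (muv D v w - nuv D v w * T) / Real.sin (Real.pi * (muv D v w - nuv D v w * T)) ^
            ((D.leaves w).card - 1) := by
  have hμ := muv_pos h hn hv hw hvw
  have hμ' := muv_pos h' hn' hv' hw' hvw'
  have hμ1 := muv_lt_one h hn hv hw hvw hP
  have hμ1' := muv_lt_one h' hn' hv' hw' hvw' hP'
  have hν := nuv_pos h hn hv hw hvw
  have hν' := nuv_pos h' hn' hv' hw' hvw'
  have hcw := card_two_le h hn hw
  have hcw' := card_two_le h' hn' hw'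
  have hE := S.expand
  have hE' := S'.expand
  simp_rw [← hGG] at hE'
  have hQQ : Q = Q' := le_antisymm (degree_le' S.e_pos.ne' hE' hE)
    (degree_le' S'.e_pos.ne' hE hE')
  subst hQQ
  have hee : ∀ k, S.e k = S'.e k := eq_of_expandQ hE hE'
  obtain ⟨N, T₀, c, hN, hc, hpole⟩ := S.pole
  have hcoef := coef_gen (s := S.s) (s' := S'.s) (f := S.f) (f' := S'.f) (Q := Q) (M := S.M)
    (M' := S'.M) S.M_pos S'.M_pos S.nice S'.nice S.per S'.per (R := S.R) (R' := S'.R) S.deg
    S'.deg hμ hμ1 hμ' hμ1' hν hν' (by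
      filter_upwards [S.series, S'.series] with T h1 h2
      simp_rw [hee] at h1
      exact h1.unique h2) hN hc hpole 0
  have hcoef' : ∀ T : ℝ, Real.sin (Real.pi * (muv D v w + nuv D v w * T)) ≠ 0 →
      Real.sin (Real.pi * (muv D v w - nuv D v w * T)) ≠ 0 →
      Real.sin (Real.pi * (muv D' v' w' + nuv D' v' w' * T)) ≠ 0 →
      Real.sin (Real.pi * (muv D' v' w' - nuv D' v' w' * T)) ≠ 0 →
      S.F (muv D v w + nuv D v w * T) / Real.sin (Real.pi * (muv D v w + nuv D v w * T)) ^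
            ((D.leaves w).card - 1) +
          S.F (muv D v w - nuv D v w * T) / Real.sin (Real.pi * (muv D v w - nuv D v w * T)) ^
            ((D.leaves w).card - 1) =
        S'.F (muv D' v' w' + nuv D' v' w' * T) /
            Real.sin (Real.pi * (muv D' v' w' + nuv D' v' w' * T)) ^
            ((D'.leaves w').card - 1) +
          S'.F (muv D' v' w' - nuv D' v' w' * T) /
            Real.sin (Real.pi * (muv D' v' w' - nuv D' v' w' * T)) ^
            ((D'.leaves w').card - 1) := by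
    intro T h1 h2 h1' h2'
    have h3 := hcoef T h1 h2 h1' h2'
    rw [neg_zero] at h3
    simp only [sum_add_distrib, ← Polynomial.coeff_zero_eq_eval_zero] at h3
    rw [S.const, S.const, S'.const, S'.const] at h3
    exact h3
  obtain ⟨e1, e2, e3, e4⟩ := ident (F := S.F) (F' := S'.F) (q := (D.leaves w).card - 1)
    (q' := (D'.leaves w').card - 1) (by omega) (by omega) S.hF S'.hF S.par S'.par S.fac S'.fac
    S.one S'.one S.two S'.two S.ne S'.ne hμ hμ1 hμ' hμ1' hν hν' (by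
      filter_upwards [sin_near (ν := nuv D v w) hμ hμ1, sin_near (ν := nuv D' v' w') hμ' hμ1']
        with T h1 h2
      exact hcoef' T h1.1 h1.2 h2.1 h2.2)
  have e5 : (D.leaves w).card = (D'.leaves w').card := by omega
  refine ⟨rfl, e5, e2, e3, e4, fun T h1 h2 => ?_⟩
  have h3 := hcoef' T h1 h2 (by rwa [← e2, ← e3]) (by rwa [← e2, ← e3])
  rwa [← e2, ← e3, ← e5] at h3

/-- the nodes in the right order, and the data -/
theorem exists_side (h : D.IsSplice) (hn : D.n = 1) : ∃ v w Q : ℕ, v ≤ 1 ∧ w ≤ 1 ∧ v ≠ w ∧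
    D.P w ≤ D.P v ∧ (D.leaves v).card = Q + 2 ∧ D.P v = D.Pmax ∧
    Nonempty (SideData D v w Q) := by
  have h0 := card_two_le h hn (v := 0) (by omega)
  have h1 := card_two_le h hn (v := 1) (by omega)
  have key : ∀ v w : ℕ, v ≤ 1 → w ≤ 1 → v ≠ w →
      (D.P w < D.P v ∨ (D.P w = D.P v ∧ (D.leaves w).card ≤ (D.leaves v).card)) →
      ∃ v w Q : ℕ, v ≤ 1 ∧ w ≤ 1 ∧ v ≠ w ∧
    D.P w ≤ D.P v ∧ (D.leaves v).card = Q + 2 ∧ D.P v = D.Pmax ∧
    Nonempty (SideData D v w Q) := by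
    intro v w hv hw hvw hcase
    have hcv := card_two_le h hn hv
    have hcw := card_two_le h hn hw
    have hle : D.P w ≤ D.P v := by
      rcases hcase with h2 | h2
      · exact h2.le
      · exact h2.1.le
    have hPv : D.P v = D.Pmax := by
      obtain ⟨u, hu, hPu⟩ := exists_Pmax (D := D)
      have h3 := P_le_Pmax (D := D) (v := v) (by omega)
      obtain rfl | rfl : u = v ∨ u = w := by omega
      · exact hPu
      · omega
    rcases hcase with h2 | ⟨h2, h3⟩
    · exact ⟨v, w, (D.leaves v).card - 2, hv, hw, hvw, hle, by omega, hPv,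
        side_single h hn hv hw hvw (by omega) h2⟩
    · obtain ⟨d, hd⟩ : ∃ d, (D.leaves v).card = (D.leaves w).card + d :=
        ⟨(D.leaves v).card - (D.leaves w).card, by omega⟩
      refine ⟨v, w, (D.leaves w).card - 2 + d, hv, hw, hvw, hle, by omega, hPv,
        side_tie h hn hv hw hvw (by omega) (by omega) h2 fun hd0 => ?_⟩
      exact cp_add_ne' (h.two_le w (by omega)) (h.two_le v (by omega)) hcw (by omega)
  rcases lt_trichotomy (D.P 0) (D.P 1) with h2 | h2 | h2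
  · exact key 1 0 le_rfl (by omega) (by omega) (Or.inl h2)
  · rcases le_total (D.leaves 0).card (D.leaves 1).card with h3 | h3
    · exact key 1 0 le_rfl (by omega) (by omega) (Or.inr ⟨h2, h3⟩)
    · exact key 0 1 (by omega) le_rfl (by omega) (Or.inr ⟨h2.symm, h3⟩)
  · exact key 0 1 (by omega) le_rfl (by omega) (Or.inl h2)

/-- the product of the leaves at both nodes -/
theorem lf_mul (h : D.IsSplice) (hn : D.n = 1) {v w : ℕ} (hv : v ≤ 1) (hw : w ≤ 1)
    (hvw : v ≠ w) : (lf D v : ℝ) * lf D w = muv D v w * D.P v := by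
  rw [muv_two h hn hv hw hvw, P_two h hn hv]
  have e2 : (1 : ℝ) ≤ ed D v := by exact_mod_cast ed_pos h hn v
  push_cast
  field_simp

theorem ed_of_mu (h : D.IsSplice) (h' : D'.IsSplice) (hn : D.n = 1) (hn' : D'.n = 1)
    {v w v' w' : ℕ} (hv : v ≤ 1) (hw : w ≤ 1) (hvw : v ≠ w) (hv' : v' ≤ 1) (hw' : w' ≤ 1)
    (hvw' : v' ≠ w') (h1 : muv D v w = muv D' v' w') (hlw : lf D w = lf D' w') :
    ed D v = ed D' v' := by
  rw [muv_two h hn hv hw hvw, muv_two h' hn' hv' hw' hvw', hlw] at h1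
  have e1 : (1 : ℝ) ≤ lf D' w' := by exact_mod_cast lf_pos h' (by omega)
  have e2 : (1 : ℝ) ≤ ed D v := by exact_mod_cast ed_pos h hn v
  have e3 : (1 : ℝ) ≤ ed D' v' := by exact_mod_cast ed_pos h' hn' v'
  rw [div_eq_div_iff (by linarith) (by linarith)] at h1
  have e4 := mul_left_cancel₀ (by linarith : (lf D' w' : ℝ) ≠ 0) h1
  exact_mod_cast e4.symm

end Pool.Agent.Zk79.LN
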