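import Pool.Agent.Zk79.LN.Tf

set_option autoImplicit false
set_option maxHeartbeats 400000

/-! Products of sines: the greatest common divisors. -/

namespace Pool.Agent.Zk79.LN

open Finset

/-- the absolute value of the sine -/
noncomputable def asn (t n : ℕ) : ℝ := |Real.sin (Real.pi * t / n)|

theorem asn_of_int {t t' n : ℕ} (hn : 0 < n) {k : ℤ} (h : (t : ℤ) = t' + n * k) :
    asn t n = asn t' n := by
  unfold asn
  have hn' : (n : ℝ) ≠ 0 := by exact_mod_cast hn.ne'
  have h1 : (t : ℝ) = t' + n * k := by exact_mod_cast h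
  have h2 : Real.pi * t / n = Real.pi * t' / n + k * Real.pi := by
    rw [h1]
    field_simp
  rw [h2, Real.sin_add_int_mul_pi, abs_mul, abs_zpow, abs_neg, abs_one, one_zpow, one_mul]

theorem asn_of_neg {t t' n : ℕ} (hn : 0 < n) {k : ℤ} (h : (t : ℤ) = -t' + n * k) :
    asn t n = asn t' n := by
  unfold asn
  have hn' : (n : ℝ) ≠ 0 := by exact_mod_cast hn.ne'
  have h1 : (t : ℝ) = -t' + n * k := by exact_mod_cast h
  have h2 : Real.pi * t / n = -(Real.pi * t' / n) + k * Real.pi := by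
    rw [h1]
    field_simp
  rw [h2, Real.sin_add_int_mul_pi, abs_mul, abs_zpow, abs_neg, abs_one, one_zpow, one_mul,
    Real.sin_neg, abs_neg]

theorem asn_eq {s n : ℕ} (hn : 0 < n) (h : asn 1 n = asn s n) :
    (n : ℤ) ∣ s - 1 ∨ (n : ℤ) ∣ s + 1 := by
  unfold asn at h
  have hn' : (n : ℝ) ≠ 0 := by exact_mod_cast hn.ne'
  have h1 := congrArg (fun x => x ^ 2) h
  simp only [sq_abs] at h1
  have h2 : Real.cos (2 * (Real.pi * (1 : ℕ) / n)) = Real.cos (2 * (Real.pi * s / n)) := by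
    rw [Real.cos_two_mul, Real.cos_two_mul, Real.cos_sq', Real.cos_sq', h1]
  rw [Real.cos_eq_cos_iff] at h2
  have hp := Real.pi_ne_zero
  obtain ⟨k, hk | hk⟩ := h2
  · left
    refine ⟨k, ?_⟩
    have h3 : (s : ℝ) - 1 = n * k := by
      field_simp at hk
      push_cast at hk
      linarith
    exact_mod_cast h3
  · right
    refine ⟨k, ?_⟩
    have h3 : (s : ℝ) + 1 = n * k := by
      field_simp at hk
      push_cast at hk
      linarith
    exact_mod_cast h3

theorem abs_sp (A : Finset ℕ) (t : ℕ) : |sp A t| = ∏ a ∈ A, asn t a := by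
  unfold sp asn
  rw [abs_prod]

/-- a number which is `-1` modulo `m` and `1` modulo `n` -/
theorem exists_odd {m n : ℕ} (hm : 0 < m) (hco : m.Coprime n) :
    ∃ s : ℕ, s.Coprime (2 * (m * n)) ∧ (m : ℤ) ∣ s + 1 ∧ (n : ℤ) ∣ s - 1 := by
  obtain ⟨k, hk1, hk2⟩ := Nat.chineseRemainder hco (m - 1) 1
  have h1 : (m : ℤ) ∣ k + 1 := by
    have h2 := (Nat.modEq_iff_dvd.1 hk1)
    have h3 : ((m - 1 : ℕ) : ℤ) = m - 1 := by omega
    rw [h3] at h2
    have h4 := (dvd_sub_right (dvd_refl (m : ℤ))).2 h2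
    have h5 : (m : ℤ) - (m - 1 - k) = k + 1 := by ring
    rwa [h5] at h4
  have h2 : (n : ℤ) ∣ k - 1 := by
    have h3 := (Nat.modEq_iff_dvd.1 hk2)
    have h4 := (dvd_neg).2 h3
    have h5 : -(((1 : ℕ) : ℤ) - k) = k - 1 := by push_cast; ring
    rwa [h5] at h4
  have key : ∀ s : ℕ, (m : ℤ) ∣ s + 1 → (n : ℤ) ∣ s - 1 → s.Coprime (m * n) := by
    intro s h3 h4
    refine Nat.Coprime.mul_right ?_ ?_
    · rw [← Nat.isCoprime_iff_coprime]
      obtain ⟨c, hc⟩ := h3
      exact ⟨-1, c, by linear_combination -hc⟩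
    · rw [← Nat.isCoprime_iff_coprime]
      obtain ⟨c, hc⟩ := h4
      exact ⟨1, -c, by linear_combination hc⟩
  rcases Nat.even_or_odd k with he | ho
  · have h3 : Odd (m * n) := by
      rw [← Nat.not_even_iff_odd]
      intro h4
      have h5 := Nat.dvd_gcd he.two_dvd h4.two_dvd
      rw [key k h1 h2] at h5
      omega
    refine ⟨k + m * n, ?_, ?_, ?_⟩
    · refine Nat.Coprime.mul_right ?_ ?_
      · exact (Nat.coprime_two_right.2 (he.add_odd h3))
      · refine key _ ?_ ?_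
        · obtain ⟨c, hc⟩ := h1
          exact ⟨c + n, by push_cast; linear_combination hc⟩
        · obtain ⟨c, hc⟩ := h2
          exact ⟨c + m, by push_cast; linear_combination hc⟩
    · obtain ⟨c, hc⟩ := h1
      exact ⟨c + n, by push_cast; linear_combination hc⟩
    · obtain ⟨c, hc⟩ := h2
      exact ⟨c + m, by push_cast; linear_combination hc⟩
  · exact ⟨k, Nat.Coprime.mul_right (Nat.coprime_two_right.2 ho) (key k h1 h2), h1, h2⟩

/-- the other part of the product -/
theorem split_prod {A : Finset ℕ} (cA : ∀ a ∈ A, ∀ b ∈ A, a ≠ b → a.Coprime b) {a : ℕ}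
    (ha : a ∈ A) : ∃ c : ℕ, ∏ x ∈ A, x = a * c ∧ a.Coprime c ∧ ∀ x ∈ A, x ≠ a → x ∣ c := by
  refine ⟨∏ x ∈ A.erase a, x, (mul_prod_erase A (fun x => x) ha).symm, ?_, ?_⟩
  · exact Nat.Coprime.prod_right fun x hx =>
      cA a ha x (mem_of_mem_erase hx) (ne_of_mem_erase hx).symm
  · exact fun x hx hxa => dvd_prod_of_mem (fun x => x) (mem_erase.2 ⟨hxa, hx⟩)

/-- S2a -/
theorem gcd_small {A A' : Finset ℕ} (hA : ∀ a ∈ A, 2 ≤ a) (hA' : ∀ a ∈ A', 2 ≤ a)
    (cA : ∀ a ∈ A, ∀ b ∈ A, a ≠ b → a.Coprime b) (cA' : ∀ a ∈ A', ∀ b ∈ A', a ≠ b → a.Coprime b)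
    (hprod : ∏ a ∈ A, a = ∏ a ∈ A', a)
    (h : ∀ t : ℕ, t.Coprime (2 * ∏ a ∈ A, a) → sp A t = sp A' t) {a b : ℕ} (ha : a ∈ A)
    (hb : b ∈ A') : a.gcd b ≤ 2 ∨ a / a.gcd b ≤ 2 := by
  obtain ⟨u, hu, hau, hu'⟩ := split_prod cA ha
  obtain ⟨w, hw, hbw, hw'⟩ := split_prod cA' hb
  have ha2 := hA a ha
  have hb2 := hA' b hb
  have hdpos : 0 < a.gcd b := Nat.gcd_pos_of_pos_left _ (by omega)
  obtain ⟨e, f, hef, hae, hbf⟩ := Nat.exists_coprime a b
  obtain ⟨d, hd⟩ : ∃ d, d = a.gcd b := ⟨_, rfl⟩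
  rw [← hd] at hae hbf hdpos ⊢
  have hepos : 0 < e := by
    rcases Nat.eq_zero_or_pos e with h0 | h0
    · rw [h0, zero_mul] at hae
      omega
    · exact h0
  have hquot : a / d = e := by rw [hae, Nat.mul_div_cancel _ hdpos]
  rw [hquot]
  -- `e` divides `w`
  have hew : e ∣ w := by
    have h1 : a * u = b * w := by rw [← hu, ← hw, hprod]
    rw [hae, hbf] at h1
    have h2 : e * u = f * w := by
      have h3 : d * (e * u) = d * (f * w) := by linarith
      exact Nat.eq_of_mul_eq_mul_left hdpos h3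
    exact hef.dvd_of_dvd_mul_left ⟨u, h2.symm⟩
  have hbe : b.Coprime e := Nat.Coprime.coprime_dvd_right hew hbw
  have hda : d ∣ a := ⟨e, by rw [hae]; ring⟩
  have hea : e ∣ a := ⟨d, hae⟩
  have hdb : d ∣ b := ⟨f, by rw [hbf]; ring⟩
  have hde : d.Coprime e := Nat.Coprime.coprime_dvd_left hdb hbe
  have hdu : d.Coprime u := Nat.Coprime.coprime_dvd_left hda hau
  have heu : e.Coprime u := Nat.Coprime.coprime_dvd_left hea hau
  have hg : ∏ x ∈ A, x = d * e * u := by rw [hu, hae]; ring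
  obtain ⟨s, hs, hs1, hs2⟩ := exists_odd hdpos (Nat.Coprime.mul_right hde hdu)
  obtain ⟨r, hr, hr1, hr2⟩ := exists_odd hepos (Nat.Coprime.mul_right hde.symm heu)
  have hs' : s.Coprime (2 * ∏ x ∈ A, x) := by rwa [hg, mul_assoc d]
  have hr' : r.Coprime (2 * ∏ x ∈ A, x) := by
    rw [hg, (by ring : d * e * u = e * (d * u))]
    exact hr
  have e1 := congrArg abs (h 1 (Nat.coprime_one_left _))
  have e2 := congrArg abs (h s hs')
  have e3 := congrArg abs (h r hr')
  have e4 := congrArg abs (h (s * r) (Nat.Coprime.mul_left hs' hr'))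
  rw [abs_sp, abs_sp] at e1 e2 e3 e4
  -- the elements of `A'`
  have hA'1 : (∏ x ∈ A', asn 1 x) * ∏ x ∈ A', asn (s * r) x =
      (∏ x ∈ A', asn s x) * ∏ x ∈ A', asn r x := by
    rw [← prod_mul_distrib, ← prod_mul_distrib]
    refine prod_congr rfl fun x hx => ?_
    have hx2 := hA' x hx
    have hx0 : 0 < x := by omega
    by_cases hxb : x = b
    · subst hxb
      -- `r` is `1` modulo `b`
      have h1 : x ∣ d * u := by
        have h2 : x ∣ e * (d * u) := by
          have h3 : x ∣ ∏ y ∈ A', y := dvd_prod_of_mem (fun y => y) hx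
          rw [← hprod, hg, (by ring : d * e * u = e * (d * u))] at h3
          exact h3
        exact hbe.dvd_of_dvd_mul_left h2
      obtain ⟨c, hc⟩ := (Int.natCast_dvd_natCast.2 h1).trans hr2
      rw [asn_of_int hx0 (t := r) (t' := 1) (k := c) (by push_cast; linear_combination hc),
        asn_of_int hx0 (t := s * r) (t' := s) (k := s * c)
          (by push_cast; linear_combination (s : ℤ) * hc)]
      ring
    · have hxd : x.Coprime d := Nat.Coprime.coprime_dvd_right hdb (cA' x hx b hb hxb)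
      have h1 : x ∣ e * u := by
        have h2 : x ∣ d * (e * u) := by
          have h3 : x ∣ ∏ y ∈ A', y := dvd_prod_of_mem (fun y => y) hx
          rw [← hprod, hg, (by ring : d * e * u = d * (e * u))] at h3
          exact h3
        exact hxd.dvd_of_dvd_mul_left h2
      obtain ⟨c, hc⟩ := (Int.natCast_dvd_natCast.2 h1).trans hs2
      rw [asn_of_int hx0 (t := s) (t' := 1) (k := c) (by push_cast; linear_combination hc),
        asn_of_int hx0 (t := s * r) (t' := r) (k := r * c)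
          (by push_cast; linear_combination (r : ℤ) * hc)]
  rw [← e1, ← e2, ← e3, ← e4, ← mul_prod_erase A _ ha, ← mul_prod_erase A _ ha,
    ← mul_prod_erase A _ ha, ← mul_prod_erase A _ ha] at hA'1
  have hs1' : ∀ x ∈ A.erase a, asn s x = asn 1 x := by
    intro x hx
    have hx2 := hA x (mem_of_mem_erase hx)
    have h1 := hu' x (mem_of_mem_erase hx) (ne_of_mem_erase hx)
    obtain ⟨c, hc⟩ := (Int.natCast_dvd_natCast.2 (h1.trans (dvd_mul_left u e))).trans hs2
    exact asn_of_int (by omega) (k := c) (by push_cast; linear_combination hc)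
  have hr1' : ∀ x ∈ A.erase a, asn r x = asn 1 x := by
    intro x hx
    have hx2 := hA x (mem_of_mem_erase hx)
    have h1 := hu' x (mem_of_mem_erase hx) (ne_of_mem_erase hx)
    obtain ⟨c, hc⟩ := (Int.natCast_dvd_natCast.2 (h1.trans (dvd_mul_left u d))).trans hr2
    exact asn_of_int (by omega) (k := c) (by push_cast; linear_combination hc)
  have hsr1' : ∀ x ∈ A.erase a, asn (s * r) x = asn 1 x := by
    intro x hx
    have hx2 := hA x (mem_of_mem_erase hx)
    have h1 := hu' x (mem_of_mem_erase hx) (ne_of_mem_erase hx)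
    obtain ⟨c, hc⟩ := (Int.natCast_dvd_natCast.2 (h1.trans (dvd_mul_left u d))).trans hr2
    rw [← hs1' x hx]
    exact asn_of_int (by omega) (k := s * c) (by push_cast; linear_combination (s : ℤ) * hc)
  rw [prod_congr rfl hs1', prod_congr rfl hr1', prod_congr rfl hsr1'] at hA'1
  have hpos : 0 < ∏ x ∈ A.erase a, asn 1 x := by
    refine prod_pos fun x hx => ?_
    have hx2 := hA x (mem_of_mem_erase hx)
    unfold asn
    have hp := Real.pi_pos
    have h2 : (2 : ℝ) ≤ x := by exact_mod_cast hx2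
    refine abs_pos.2 (Real.sin_pos_of_pos_of_lt_pi (by positivity) ?_).ne'
    rw [div_lt_iff₀ (by positivity)]
    push_cast
    nlinarith
  -- the integers `s r` and `s + r`
  have hcop : IsCoprime (d : ℤ) (e : ℤ) := Nat.isCoprime_iff_coprime.2 hde
  have hda' : (a : ℤ) = d * e := by
    rw [hae]
    push_cast
    ring
  have hds : (d : ℤ) ∣ r - 1 := (Int.natCast_dvd_natCast.2 (dvd_mul_right d u)).trans hr2
  have hes : (e : ℤ) ∣ s - 1 := (Int.natCast_dvd_natCast.2 (dvd_mul_right e u)).trans hs2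
  have hsr : (a : ℤ) ∣ s * r + 1 := by
    rw [hda']
    refine hcop.mul_dvd ?_ ?_
    · have h1 := dvd_add (dvd_mul_of_dvd_right hds (s : ℤ)) hs1
      have h2 : (s : ℤ) * (r - 1) + (s + 1) = s * r + 1 := by ring
      rwa [h2] at h1
    · have h1 := dvd_add (dvd_mul_of_dvd_right hes (r : ℤ)) hr1
      have h2 : (r : ℤ) * (s - 1) + (r + 1) = s * r + 1 := by ring
      rwa [h2] at h1
  have hspr : (a : ℤ) ∣ s + r := by
    rw [hda']
    refine hcop.mul_dvd ?_ ?_
    · have h1 := dvd_add hs1 hds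
      have h2 : ((s : ℤ) + 1) + (r - 1) = s + r := by ring
      rwa [h2] at h1
    · have h1 := dvd_add hes hr1
      have h2 : ((s : ℤ) - 1) + (r + 1) = s + r := by ring
      rwa [h2] at h1
  obtain ⟨c1, hc1⟩ := hsr
  obtain ⟨c2, hc2⟩ := hspr
  have hapos : 0 < a := by omega
  rw [asn_of_neg hapos (t := s * r) (t' := 1) (k := c1) (by push_cast; linear_combination hc1),
    asn_of_neg hapos (t := r) (t' := s) (k := c2) (by linear_combination hc2)] at hA'1
  obtain ⟨P, hP⟩ : ∃ P, P = ∏ x ∈ A.erase a, asn 1 x := ⟨_, rfl⟩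
  rw [← hP] at hA'1 hpos
  have h5 : asn 1 a ^ 2 = asn s a ^ 2 := by
    have h6 : P ^ 2 * asn 1 a ^ 2 = P ^ 2 * asn s a ^ 2 := by linear_combination hA'1
    exact mul_left_cancel₀ (by positivity) h6
  have h6 : asn 1 a = asn s a := by
    have h7 : 0 ≤ asn 1 a := abs_nonneg _
    have h8 : 0 ≤ asn s a := abs_nonneg _
    exact (sq_eq_sq₀ h7 h8).1 h5
  rcases asn_eq hapos h6 with h7 | h7
  · left
    have h8 : (d : ℤ) ∣ s - 1 := (Int.natCast_dvd_natCast.2 hda).trans h7
    have h9 := dvd_sub hs1 h8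
    have h10 : ((s : ℤ) + 1) - (s - 1) = (2 : ℕ) := by push_cast; ring
    rw [h10] at h9
    exact Nat.le_of_dvd (by norm_num) (Int.natCast_dvd_natCast.1 h9)
  · right
    have h8 : (e : ℤ) ∣ s + 1 := (Int.natCast_dvd_natCast.2 hea).trans h7
    have h9 := dvd_sub h8 hes
    have h10 : ((s : ℤ) + 1) - (s - 1) = (2 : ℕ) := by push_cast; ring
    rw [h10] at h9
    exact Nat.le_of_dvd (by norm_num) (Int.natCast_dvd_natCast.1 h9)

end Pool.Agent.Zk79.LN
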