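import Pool.Agent.Zk79.LN.Lio
import Pool.Agent.Zk79.LN.Gs7
import Pool.Agent.Zk9.LN.Sc
import Pool.Agent.Zk9.LN.Sg2

set_option autoImplicit false
set_option maxHeartbeats 400000

/-! Equal numbers of leaves and equal products of the leaves. -/

namespace Pool.Agent.Zk79.LN

open Finset Filter Topology


/-- the product of the sines determines the set, if the product of the elements is given -/
theorem sets_of_sp {A A' : Finset ℕ} (hA : ∀ a ∈ A, 2 ≤ a) (hA' : ∀ a ∈ A', 2 ≤ a)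
    (cA : ∀ a ∈ A, ∀ b ∈ A, a ≠ b → a.Coprime b) (cA' : ∀ a ∈ A', ∀ b ∈ A', a ≠ b → a.Coprime b)
    (hprod : ∏ a ∈ A, a = ∏ a ∈ A', a) (hcard : A.card = A'.card) (h : sp A 1 = sp A' 1) :
    A = A' := by
  have h1 : ∀ t : ℕ, t.Coprime (2 * ∏ a ∈ A, a) → sp A t = sp A' t :=
    fun t ht => Pool.Agent.Zk9.LN.sp_conj hA hA' hprod hcard h ht
  refine Pool.Agent.Zk9.LN.sets_of_gcd hA hA' cA cA' hprod hcard h
    (fun a ha b hb => gcd_small hA hA' cA cA' hprod h1 ha hb) fun a ha b hb => ?_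
  rw [Nat.gcd_comm]
  exact gcd_small hA' hA cA' cA hprod.symm (fun t ht => (h1 t (by rwa [hprod])).symm) hb ha

theorem sg_zero {A : Finset ℕ} {K g : ℕ} (kA : A.card = K) (gA : ∏ a ∈ A, a = g) :
    sg A 0 = Real.pi ^ K / g := by
  unfold sg
  rw [← gA, ← kA]
  push_cast
  rw [← prod_const, ← prod_div_distrib]
  refine prod_congr rfl fun a _ => ?_
  rw [mul_zero, zero_div, Real.sinc_zero, mul_one]

theorem four_exc {A B A' B' : Finset ℕ} {K k g : ℕ}
    (hA : ∀ a ∈ A, 2 ≤ a) (hB : ∀ a ∈ B, 2 ≤ a) (hA' : ∀ a ∈ A', 2 ≤ a) (hB' : ∀ a ∈ B', 2 ≤ a)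
    (cA : ∀ a ∈ A, ∀ b ∈ A, a ≠ b → a.Coprime b) (cB : ∀ a ∈ B, ∀ b ∈ B, a ≠ b → a.Coprime b)
    (cA' : ∀ a ∈ A', ∀ b ∈ A', a ≠ b → a.Coprime b)
    (cB' : ∀ a ∈ B', ∀ b ∈ B', a ≠ b → a.Coprime b)
    (hK : 3 ≤ K) (kA : A.card = K) (kB : B.card = K) (kA' : A'.card = K) (kB' : B'.card = K)
    (gA : ∏ a ∈ A, a = g) (gB : ∏ a ∈ B, a = g) (gA' : ∏ a ∈ A', a = g) (gB' : ∏ a ∈ B', a = g)
    (hk : 3 ≤ k) (hkg : k.Coprime g) {c μ ν : ℝ} (hc : 0 < c) (hμ : μ * k = g) (hν : 0 < ν)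
    {α β α' β' : ℝ} (eα : α = c * sp B 1) (eβ : β = c * sp A 1) (eα' : α' = c * sp B' 1)
    (eβ' : β' = c * sp A' 1)
    (h : ∀ T : ℝ, Real.sin (Real.pi * (μ + ν * T)) ≠ 0 → Real.sin (Real.pi * (μ - ν * T)) ≠ 0 →
      (α * sp A (μ + ν * T) + β * sp B (μ + ν * T)) / Real.sin (Real.pi * (μ + ν * T)) ^ (K - 1) +
      (α * sp A (μ - ν * T) + β * sp B (μ - ν * T)) / Real.sin (Real.pi * (μ - ν * T)) ^ (K - 1) =
      (α' * sp A' (μ + ν * T) + β' * sp B' (μ + ν * T)) /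
        Real.sin (Real.pi * (μ + ν * T)) ^ (K - 1) +
      (α' * sp A' (μ - ν * T) + β' * sp B' (μ - ν * T)) /
        Real.sin (Real.pi * (μ - ν * T)) ^ (K - 1)) :
    (A = A' ∧ B = B') ∨ (A = B' ∧ B = A') := by
  have hg : 0 < g := by
    rw [← gA]
    exact prod_pos fun a ha => by have := hA a ha; omega
  have hdvd : ∀ S : Finset ℕ, ∏ a ∈ S, a = g → ∀ a ∈ S, a ∣ g := by
    intro S hS a ha
    rw [← hS]
    exact dvd_prod_of_mem (fun a => a) ha
  have hid := full_ident (κ := K - 1) hg (by omega) hk hkg hA hB hA' hB' (hdvd A gA) (hdvd B gB)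
    (hdvd A' gA') (hdvd B' gB') (by omega) (by omega) (by omega) (by omega) hμ hν h
  -- the value at `1`
  have h1 := hid 1
  -- the value at `0`
  have h0 : α * sg A 0 + β * sg B 0 = α' * sg A' 0 + β' * sg B' 0 := by
    have hcont : ContinuousAt (fun z => α * sg A z + β * sg B z - (α' * sg A' z + β' * sg B' z))
        0 := by
      have c1 := (analyticAt_sg A 0).continuousAt
      have c2 := (analyticAt_sg B 0).continuousAt
      have c3 := (analyticAt_sg A' 0).continuousAt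
      have c4 := (analyticAt_sg B' 0).continuousAt
      exact ((continuousAt_const.mul c1).add (continuousAt_const.mul c2)).sub
        ((continuousAt_const.mul c3).add (continuousAt_const.mul c4))
    have hzero : ∀ᶠ z in 𝓝[≠] (0 : ℝ),
        α * sg A z + β * sg B z - (α' * sg A' z + β' * sg B' z) = 0 := by
      filter_upwards [self_mem_nhdsWithin] with z hz
      have h2 := hid z
      rw [sp_eq, sp_eq, sp_eq, sp_eq, kA, kB, kA', kB'] at h2
      have h3 : z ^ K * (α * sg A z + β * sg B z - (α' * sg A' z + β' * sg B' z)) = 0 := by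
        linear_combination h2
      exact (mul_eq_zero.1 h3).resolve_left (pow_ne_zero _ hz)
    have h2 := tendsto_nhds_unique (hcont.tendsto.mono_left nhdsWithin_le_nhds)
      ((tendsto_congr' hzero).2 tendsto_const_nhds)
    exact sub_eq_zero.1 h2
  rw [sg_zero kA gA, sg_zero kB gB, sg_zero kA' gA', sg_zero kB' gB', ← add_mul, ← add_mul] at h0
  have hpos : Real.pi ^ K / (g : ℝ) ≠ 0 := by
    have : (0 : ℝ) < g := by exact_mod_cast hg
    have := Real.pi_pos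
    positivity
  have h2 := mul_right_cancel₀ hpos h0
  rw [eα, eβ, eα', eβ', ← mul_add, ← mul_add] at h2
  have h3 := mul_left_cancel₀ hc.ne' h2
  rw [eα, eβ, eα', eβ'] at h1
  have h4 : sp A 1 * sp B 1 = sp A' 1 * sp B' 1 := by
    have h5 : (2 * c) * (sp A 1 * sp B 1) = (2 * c) * (sp A' 1 * sp B' 1) := by
      linear_combination h1
    exact mul_left_cancel₀ (by positivity) h5
  have h5 : (sp A 1 - sp A' 1) * (sp A 1 - sp B' 1) = 0 := by
    linear_combination sp A 1 * h3 - h4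
  rcases mul_eq_zero.1 h5 with h6 | h6
  · left
    have h7 : sp A 1 = sp A' 1 := sub_eq_zero.1 h6
    have h8 : sp B 1 = sp B' 1 := by linarith
    exact ⟨sets_of_sp hA hA' cA cA' (by rw [gA, gA']) (by rw [kA, kA']) h7,
      sets_of_sp hB hB' cB cB' (by rw [gB, gB']) (by rw [kB, kB']) h8⟩
  · right
    have h7 : sp A 1 = sp B' 1 := sub_eq_zero.1 h6
    have h8 : sp B 1 = sp A' 1 := by linarith
    exact ⟨sets_of_sp hA hB' cA cB' (by rw [gA, gB']) (by rw [kA, kB']) h7,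
      sets_of_sp hB hA' cB cA' (by rw [gB, gA']) (by rw [kB, kA']) h8⟩

end Pool.Agent.Zk79.LN
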