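import Pool.Agent.Zk79.LN.Cmp6
import Pool.Agent.Zk79.LN.Exc7

set_option autoImplicit false
set_option maxHeartbeats 400000

/-! A diagram with two nodes is determined. -/

namespace Pool.Agent.Zk79.LN

open Finset Pool.Agent.Zk79.LM Pool.Agent.Zk79.LM.Diagram PowerSeries Filter Topology Asymptotics
open Pool.Agent.Zk52.LN (four_sets)

variable {D D' : Diagram}

theorem ed_mem_weights (h : D.IsSplice) (hn : D.n = 1) {v : ℕ} (hv : v ≤ 1) :
    D.weights v = (D.leaves v).val + {ed D v} := by
  obtain rfl | rfl : v = 0 ∨ v = 1 := by omega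
  · have hc := children_zero h hn
    unfold Diagram.weights
    unfold Diagram.children at hc
    rw [hc]
    simp [ed]
  · have hc := children_one h hn
    unfold Diagram.weights
    unfold Diagram.children at hc
    rw [hc]
    simp [ed]

theorem ed_coprime (h : D.IsSplice) (hn : D.n = 1) {v : ℕ} (hv : v ≤ 1) :
    (ed D v).Coprime (∏ a ∈ D.leaves v, a) := by
  have h1 := h.coprime v (by omega)
  rw [ed_mem_weights h hn hv, add_comm, Multiset.singleton_add,
    ← Multiset.coe_toList (D.leaves v).val, Multiset.cons_coe,
    Multiset.pairwise_coe_iff_pairwise] at h1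
  exact Nat.Coprime.prod_right fun a ha =>
    (List.pairwise_cons.1 h1).1 a (Multiset.mem_toList.2 ha)

theorem three_le_ed (h : D.IsSplice) (hn : D.n = 1) {v w : ℕ} (hv : v ≤ 1) (hw : w ≤ 1)
    (hvw : v ≠ w) (hP : D.P w ≤ D.P v) : 3 ≤ ed D v := by
  have h1 := muv_lt_one h hn hv hw hvw hP
  rw [muv_two h hn hv hw hvw, div_lt_one (by exact_mod_cast ed_pos h hn v)] at h1
  have h2 : lf D w < ed D v := by exact_mod_cast h1
  have h3 : 2 ≤ lf D w := by
    have h4 := card_two_le h hn hw
    obtain ⟨a, ha⟩ : (D.leaves w).Nonempty := card_pos.1 (by omega)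
    have h5 := h.two_le w (by omega) a ha
    exact h5.trans (Nat.le_of_dvd (lf_pos h (by omega)) (dvd_prod_of_mem (fun a => a) ha))
  omega

/-- **two pieces** -/
theorem two_all (h : D.IsSplice) (h' : D'.IsSplice) {φ φ' : ℂ}
    (ho : D.ohtsuki φ = D'.ohtsuki φ') (hn : D.n = 1) : D' = D ∨ D' = D.swap := by
  obtain ⟨-, h1, h2, -⟩ := main h h' ho
  have hn' : D'.n = 1 := by rw [← h1, hn]
  have hG := gauss_eq h h' ho
  obtain ⟨v, w, Q, hv, hw, hvw, hP, hQ, hPv, ⟨S⟩⟩ := exists_side h hn
  obtain ⟨v', w', Q', hv', hw', hvw', hP', hQ', hPv', ⟨S'⟩⟩ := exists_side h' hn'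
  have hPP : D.P v = D'.P v' := by rw [hPv, hPv', h2]
  have hGG := GG_eq h h' hn hn' (fun k => by rw [hG]) hv hw hvw hv' hw' hvw' hPP
  obtain ⟨hQQ, hcc, hμμ, hνν, hFF, hTT⟩ := compare h h' hn hn' hv hw hvw hv' hw' hvw' hP hP' hGG S S'
  have hPpos : (1 : ℝ) ≤ D.P v := by exact_mod_cast P_pos h (by omega : v ≤ D.n)
  have hPw : D.P w = D'.P w' := by
    have e1 := sq_add_sq h hn hv hw hvw
    have e2 := sq_add_sq h' hn' hv' hw' hvw'
    rw [hμμ, hνν, e2, ← hPP, div_left_inj' (by linarith)] at e1
    exact_mod_cast e1.symm
  have hcv : (D.leaves v).card = (D'.leaves v').card := by omega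
  have cop : ∀ u ≤ 1, ∀ a ∈ D.leaves u, ∀ b ∈ D.leaves u, a ≠ b → a.Coprime b :=
    fun u hu a ha b hb => leaves_coprime h (by omega) ha hb
  have cop' : ∀ u ≤ 1, ∀ a ∈ D'.leaves u, ∀ b ∈ D'.leaves u, a ≠ b → a.Coprime b :=
    fun u hu a ha b hb => leaves_coprime h' (by omega) ha hb
  rcases S.desc with ⟨hd, c, hc, hF⟩ | ⟨ht, hd, α, β, hα, hβ, hF, eα, eβ⟩
  · rcases S'.desc with ⟨hd', c', hc', hF'⟩ | ⟨ht', hd', -⟩
    · have hLw : D.leaves w = D'.leaves w' := by
        refine set_eq (h.two_le w (by omega)) (h'.two_le w' (by omega)) (cop w hw) (cop' w' hw')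
          fun m => ?_
        have h4 := hFF m
        rw [hF, hF'] at h4
        constructor
        · intro h5
          rw [h5, mul_zero] at h4
          exact (mul_eq_zero.1 h4.symm).resolve_left hc'.ne'
        · intro h5
          rw [h5, mul_zero] at h4
          exact (mul_eq_zero.1 h4).resolve_left hc.ne'
      have hlw : lf D w = lf D' w' := by
        unfold lf
        rw [hLw]
      have hev := ed_of_mu h h' hn hn' hv hw hvw hv' hw' hvw' hμμ hlw
      have hew : ed D w = ed D' w' := by
        have hPw2 := hPw
        rw [P_two h hn hw, P_two h' hn' hw', hlw] at hPw2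
        exact Nat.eq_of_mul_eq_mul_left (lf_pos h' (by omega)) hPw2
      have hLv : D.leaves v = D'.leaves v' := by
        refine leaves_of_sq h h' (by omega) (by omega) fun k => ?_
        refine sq_eq h h' hGG (fun j => ?_) hμμ hνν k
        have h4 : D.node w = D'.node w' := by
          unfold Diagram.node
          rw [hLw, valence_two h hn hw, valence_two h' hn' hw', hLw]
        rw [sq, sq, coeff_yy, coeff_yy, h4]
      exact conclude h h' hn hn' hv hw hvw hv' hw' hvw' hLv hLw hev hew
    · exfalso
      rcases hd with h3 | h3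
      · rw [hPw, ht', ← hPP] at h3
        exact lt_irrefl _ h3
      · omega
  · rcases S'.desc with ⟨hd', -⟩ | ⟨ht', hd', α', β', hα', hβ', hF', eα', eβ'⟩
    · exfalso
      rcases hd' with h3 | h3
      · rw [← hPw, ht, hPP] at h3
        exact lt_irrefl _ h3
      · omega
    · have hms : muv D w v = muv D v w := by
        unfold muv
        rw [ht, lk_symm h (by omega) (by omega)]
      have hms' : muv D' w' v' = muv D' v' w' := by
        unfold muv
        rw [ht', lk_symm h' (by omega) (by omega)]
      have hprod : (∏ a ∈ D.leaves w, a) * ∏ b ∈ D.leaves v, b =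
          (∏ a ∈ D'.leaves w', a) * ∏ b ∈ D'.leaves v', b := by
        have e1 := lf_mul h hn hv hw hvw
        have e2 := lf_mul h' hn' hv' hw' hvw'
        rw [hμμ, hPP, ← e2] at e1
        have e3 : lf D v * lf D w = lf D' v' * lf D' w' := by exact_mod_cast e1
        unfold lf at e3
        rw [mul_comm, e3, mul_comm]
      have hvals : ∀ m : ℕ, α * sp (D.leaves w) m + β * sp (D.leaves v) m =
          α' * sp (D'.leaves w') m + β' * sp (D'.leaves v') m := fun m => by
        have h4 := hFF m
        rwa [hF, hF'] at h4
      have hfour : (D.leaves w = D'.leaves w' ∧ D.leaves v = D'.leaves v') ∨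
          (D.leaves w = D'.leaves v' ∧ D.leaves v = D'.leaves w') := by
        by_cases hne : ∏ a ∈ D.leaves w, a = ∏ b ∈ D.leaves v, b
        · by_cases hne' : ∏ a ∈ D'.leaves w', a = ∏ b ∈ D'.leaves v', b
          · have hgg : ∏ a ∈ D'.leaves w', a = ∏ a ∈ D.leaves w, a := by
              rw [← hne, ← hne', ← pow_two, ← pow_two] at hprod
              exact (Nat.pow_left_injective two_ne_zero hprod).symm
            rcases lt_or_ge 2 (D.leaves v).card with hc3 | hc2'
            · have hmk := muv_two h hn hv hw hvw
              have hed : (1 : ℝ) ≤ ed D v := by exact_mod_cast ed_pos h hn v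
              have hmk' : muv D v w * ed D v = (∏ a ∈ D.leaves w, a : ℕ) := by
                rw [hmk, div_mul_cancel₀ _ (by linarith)]
                rfl
              refine four_exc (K := (D.leaves v).card) (k := ed D v) (g := ∏ a ∈ D.leaves w, a)
                (μ := muv D v w) (ν := nuv D v w)
                (c := D.P v / (Q.factorial * Real.pi ^ (Q + 3))) (α' := α') (β' := β')
                (h.two_le w (by omega)) (h.two_le v (by omega))
                (h'.two_le w' (by omega)) (h'.two_le v' (by omega)) (cop w hw) (cop v hv)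
                (cop' w' hw') (cop' v' hv') hc3 hd rfl (by omega) (by omega) rfl hne.symm hgg
                (by rw [← hne', hgg]) (three_le_ed h hn hv hw hvw hP) ?_ ?_ hmk'
                (nuv_pos h hn hv hw hvw) eα eβ ?_ ?_ fun T h1 h2 => ?_
              · rw [hne]
                exact ed_coprime h hn hv
              · have := Real.pi_pos
                have : (0 : ℝ) < Q.factorial := by exact_mod_cast Nat.factorial_pos _
                positivity
              · rw [eα', hPP, hQQ]
              · rw [eβ', hPP, hQQ]
              · have h3 := hTT T h1 h2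
                rw [hF, hF, hF', hF', hd] at h3
                exact h3
            have hc2 : (D.leaves v).card = 2 := by
              have h5 := card_two_le h hn hv
              omega
            exact four_pairs (h.two_le w (by omega)) (h.two_le v (by omega))
              (h'.two_le w' (by omega)) (h'.two_le v' (by omega)) (cop w hw) (cop v hv)
              (cop' w' hw') (cop' v' hv') (by omega) hc2 (by omega) (by omega) rfl hne.symm hgg
              (by rw [← hne', hgg]) hα hβ hα' hβ' hvals
          · rcases four_sets (h'.two_le w' (by omega)) (h'.two_le v' (by omega))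
              (h.two_le w (by omega)) (h.two_le v (by omega)) (cop' w' hw') (cop' v' hv')
              (cop w hw) (cop v hv) hα' hβ' hα hβ hne' hprod.symm (fun m => (hvals m).symm)
              with ⟨e1, e2⟩ | ⟨e1, e2⟩
            · exact Or.inl ⟨e1.symm, e2.symm⟩
            · exact Or.inr ⟨e2.symm, e1.symm⟩
        · exact four_sets (h.two_le w (by omega)) (h.two_le v (by omega)) (h'.two_le w' (by omega))
            (h'.two_le v' (by omega)) (cop w hw) (cop v hv) (cop' w' hw') (cop' v' hv') hα hβ hα'
            hβ' hne hprod hvals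
      rcases hfour with ⟨e1, e2⟩ | ⟨e1, e2⟩
      · have hlw : lf D w = lf D' w' := by
          unfold lf
          rw [e1]
        have hlv : lf D v = lf D' v' := by
          unfold lf
          rw [e2]
        exact conclude h h' hn hn' hv hw hvw hv' hw' hvw' e2 e1
          (ed_of_mu h h' hn hn' hv hw hvw hv' hw' hvw' hμμ hlw)
          (ed_of_mu h h' hn hn' hw hv (Ne.symm hvw) hw' hv' (Ne.symm hvw')
            (by rw [hms, hms', hμμ]) hlv)
      · have hlw : lf D w = lf D' v' := by
          unfold lf
          rw [e1]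
        have hlv : lf D v = lf D' w' := by
          unfold lf
          rw [e2]
        exact conclude h h' hn hn' hv hw hvw hw' hv' (Ne.symm hvw') e2 e1
          (ed_of_mu h h' hn hn' hv hw hvw hw' hv' (Ne.symm hvw') (by rw [hms', hμμ]) hlw)
          (ed_of_mu h h' hn hn' hw hv (Ne.symm hvw) hv' hw' hvw' (by rw [hms, hμμ]) hlv)

end Pool.Agent.Zk79.LN
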