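import Pool.Agent.Zk79.LN.Base

set_option autoImplicit false
set_option maxHeartbeats 400000

/-! The function with the coefficients `TT`. -/

namespace Pool.Agent.Zk79.LN

open Finset Filter Topology

/-- the double factorials -/
noncomputable def dd (k : ℕ) : ℝ := ∏ t ∈ range k, (2 * (t : ℝ) + 1)

theorem dd_pos (k : ℕ) : 0 < dd k := prod_pos fun t _ => by positivity

theorem choose_id (n : ℕ) : ∀ k, k ≤ n → (n.choose k : ℝ) *
    ∏ t ∈ range k, (2 * ((n : ℝ) - t) + 1) = ((2 * n + 1).choose (2 * k) : ℝ) * dd k := by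
  intro k
  induction k with
  | zero => intro _; simp [dd]
  | succ k ih =>
    intro hk
    have h1 := ih (by omega)
    obtain ⟨m, rfl⟩ : ∃ m, n = k + 1 + m := ⟨n - (k + 1), by omega⟩
    have e1 : ((k + 1 + m).choose (k + 1) : ℝ) * (k + 1) =
        ((k + 1 + m).choose k : ℝ) * (m + 1) := by
      have := Nat.choose_succ_right_eq (k + 1 + m) k
      rw [(by omega : k + 1 + m - k = m + 1)] at this
      exact_mod_cast this
    have e2 : ((2 * (k + 1 + m) + 1).choose (2 * k + 1) : ℝ) * (2 * k + 1) =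
        ((2 * (k + 1 + m) + 1).choose (2 * k) : ℝ) * (2 * m + 3) := by
      have := Nat.choose_succ_right_eq (2 * (k + 1 + m) + 1) (2 * k)
      rw [(by omega : 2 * (k + 1 + m) + 1 - 2 * k = 2 * m + 3)] at this
      exact_mod_cast this
    have e3 : ((2 * (k + 1 + m) + 1).choose (2 * (k + 1)) : ℝ) * (2 * k + 2) =
        ((2 * (k + 1 + m) + 1).choose (2 * k + 1) : ℝ) * (2 * m + 2) := by
      have := Nat.choose_succ_right_eq (2 * (k + 1 + m) + 1) (2 * k + 1)
      rw [(by omega : 2 * (k + 1 + m) + 1 - (2 * k + 1) = 2 * m + 2)] at this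
      rw [(by ring : 2 * (k + 1) = 2 * k + 1 + 1)]
      exact_mod_cast this
    have e4 : (k : ℝ) + 1 ≠ 0 := by positivity
    have e5 : 2 * (k : ℝ) + 1 ≠ 0 := by positivity
    have hdd : dd (k + 1) = dd k * (2 * k + 1) := by
      unfold dd
      rw [prod_range_succ]
    rw [prod_range_succ, hdd]
    have e6 : 2 * (((k + 1 + m : ℕ) : ℝ) - k) + 1 = 2 * m + 3 := by
      push_cast
      ring
    rw [e6]
    have e7 : ((k + 1 + m).choose (k + 1) : ℝ) = ((k + 1 + m).choose k : ℝ) * (m + 1) / (k + 1) := by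
      rw [eq_div_iff e4]
      exact e1
    have e8 : ((2 * (k + 1 + m) + 1).choose (2 * (k + 1)) : ℝ) =
        ((2 * (k + 1 + m) + 1).choose (2 * k) : ℝ) * (2 * m + 3) / (2 * k + 1) * (m + 1) /
          (k + 1) := by
      rw [eq_div_iff e4, div_mul_eq_mul_div, eq_div_iff e5, ← e2]
      linear_combination ((2 * (k : ℝ) + 1) / 2) * e3
    rw [e7, e8]
    field_simp
    linear_combination h1

/-- the function -/
noncomputable def Ps (g : ℕ → ℝ) (z : ℝ) : ℝ := ∑' j, g j * z ^ (2 * j + 1)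

/-- the coefficients of the expansion at `μ` -/
noncomputable def BB (g : ℕ → ℝ) (μ : ℝ) (l : ℕ) : ℝ :=
  ∑' j, g j * ((2 * j + 1).choose l : ℝ) * μ ^ (2 * j + 1 - l)

variable {g : ℕ → ℝ}

theorem expand (hg0 : ∀ i, 0 ≤ g i)
    (hg : ∀ ρ : ℝ, 0 ≤ ρ → ρ < 1 → Summable fun j => g j * ρ ^ j) {μ : ℝ} (hμ : 0 < μ) {y : ℝ}
    (hy : μ + |y| < 1) : HasSum (fun l => BB g μ l * y ^ l) (Ps g (μ + y)) := by
  obtain ⟨a, ha⟩ : ∃ a : ℕ × ℕ → ℝ, a = fun p => g p.1 * ((2 * p.1 + 1).choose p.2 : ℝ) *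
    μ ^ (2 * p.1 + 1 - p.2) * y ^ p.2 := ⟨_, rfl⟩
  have key : ∀ (j : ℕ) (x : ℝ), HasSum (fun l => g j * ((2 * j + 1).choose l : ℝ) *
      μ ^ (2 * j + 1 - l) * x ^ l) (g j * (μ + x) ^ (2 * j + 1)) := by
    intro j x
    have h1 : g j * (μ + x) ^ (2 * j + 1) = ∑ l ∈ range (2 * j + 1 + 1),
        g j * ((2 * j + 1).choose l : ℝ) * μ ^ (2 * j + 1 - l) * x ^ l := by
      rw [add_comm μ x, add_pow, mul_sum]
      refine sum_congr rfl fun l _ => ?_
      ring
    rw [h1]
    refine hasSum_sum_of_ne_finset_zero fun l hl => ?_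
    rw [mem_range, not_lt] at hl
    rw [Nat.choose_eq_zero_of_lt (by omega)]
    simp
  have habs : ∀ p, ‖a p‖ = g p.1 * ((2 * p.1 + 1).choose p.2 : ℝ) *
      μ ^ (2 * p.1 + 1 - p.2) * |y| ^ p.2 := by
    intro p
    rw [ha, Real.norm_eq_abs, abs_mul, abs_pow, abs_of_nonneg]
    exact mul_nonneg (mul_nonneg (hg0 _) (Nat.cast_nonneg _)) (pow_nonneg hμ.le _)
  have hs : Summable fun p => ‖a p‖ := by
    rw [summable_prod_of_nonneg fun p => norm_nonneg _]
    constructor
    · intro j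
      simp only [habs]
      exact (key j |y|).summable
    · have h1 : (fun j : ℕ => ∑' l, ‖a (j, l)‖) = fun j => g j * (μ + |y|) ^ (2 * j + 1) := by
        funext j
        simp only [habs]
        exact (key j |y|).tsum_eq
      rw [h1]
      have hy0 : 0 ≤ μ + |y| := by positivity
      have h2 := (hg ((μ + |y|) ^ 2) (by positivity) (pow_lt_one₀ hy0 hy two_ne_zero)).mul_right
        (μ + |y|)
      refine h2.congr fun j => ?_
      rw [← pow_mul, mul_assoc, ← pow_succ]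
  have hs' : Summable a := hs.of_norm
  have h1 : HasSum (fun j => g j * (μ + y) ^ (2 * j + 1)) (∑' p, a p) := by
    refine hs'.hasSum.prod_fiberwise fun j => ?_
    rw [ha]
    exact key j y
  have h2 : ∑' p, a p = Ps g (μ + y) := h1.tsum_eq.symm
  have h3 : HasSum (fun p : ℕ × ℕ => a p.swap) (∑' p, a p) :=
    (Equiv.prodComm ℕ ℕ).hasSum_iff.2 hs'.hasSum
  rw [← h2]
  refine h3.prod_fiberwise fun l => ?_
  have h4 : Summable fun j => a (j, l) := by
    have := hs'.comp_injective (i := fun j : ℕ => (j, l)) (fun x y h => (Prod.ext_iff.1 h).1)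
    exact this
  have h5 : (fun c => a (Prod.swap (l, c))) = fun j => a (j, l) := rfl
  rw [h5]
  have h6 : BB g μ l * y ^ l = ∑' j, a (j, l) := by
    rw [BB, ha, ← tsum_mul_right]
  rw [h6]
  exact h4.hasSum

theorem summable_BB (hg0 : ∀ i, 0 ≤ g i)
    (hg : ∀ ρ : ℝ, 0 ≤ ρ → ρ < 1 → Summable fun j => g j * ρ ^ j) {μ : ℝ} (hμ : 0 < μ)
    (hμ1 : μ < 1) (l : ℕ) :
    Summable fun j => g j * ((2 * j + 1).choose l : ℝ) * μ ^ (2 * j + 1 - l) := by
  obtain ⟨y, hy0, hy1⟩ := exists_between (sub_pos.2 hμ1)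
  have hy0' : y ≠ 0 := hy0.ne'
  have h1 : ∀ j : ℕ, g j * ((2 * j + 1).choose l : ℝ) * μ ^ (2 * j + 1 - l) * y ^ l ≤
      g j * (μ + y) ^ (2 * j + 1) := by
    intro j
    rcases Nat.lt_or_ge (2 * j + 1) l with h | h
    · rw [Nat.choose_eq_zero_of_lt h]
      have := hg0 j
      simp only [Nat.cast_zero, mul_zero, zero_mul]
      positivity
    · rw [add_comm μ y, add_pow, mul_sum]
      have h2 := single_le_sum (f := fun m => g j * (y ^ m * μ ^ (2 * j + 1 - m) *
        ((2 * j + 1).choose m : ℝ))) (fun m _ => by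
          have := hg0 j
          positivity) (mem_range.2 (by omega : l < 2 * j + 1 + 1))
      refine le_trans (le_of_eq ?_) h2
      ring
  have h2 : Summable fun j => g j * (μ + y) ^ (2 * j + 1) := by
    have h3 := (hg ((μ + y) ^ 2) (by positivity)
      (pow_lt_one₀ (by positivity) (by linarith) two_ne_zero)).mul_right (μ + y)
    refine h3.congr fun j => ?_
    rw [← pow_mul, mul_assoc, ← pow_succ]
  have h3 := Summable.of_nonneg_of_le (fun j => by
    have := hg0 j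
    positivity) h1 h2
  have h4 := h3.mul_right (y ^ l)⁻¹
  refine h4.congr fun j => ?_
  have : y ^ l ≠ 0 := pow_ne_zero _ hy0'
  field_simp

theorem TT_eq (hg0 : ∀ i, 0 ≤ g i)
    (hg : ∀ ρ : ℝ, 0 ≤ ρ → ρ < 1 → Summable fun j => g j * ρ ^ j) {μ : ℝ} (hμ : 0 < μ)
    (hμ1 : μ < 1) (r ν : ℝ) (k : ℕ) : TT r g μ ν k = r / μ * dd k * ν ^ (2 * k) * BB g μ (2 * k) := by
  have h1 : BB g μ (2 * k) = ∑' j, g (j + k) * ((2 * (j + k) + 1).choose (2 * k) : ℝ) *
      μ ^ (2 * (j + k) + 1 - 2 * k) := by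
    rw [BB, ← (summable_BB hg0 hg hμ hμ1 (2 * k)).sum_add_tsum_nat_add k]
    rw [sum_eq_zero, zero_add]
    intro j hj
    rw [mem_range] at hj
    rw [Nat.choose_eq_zero_of_lt (by omega)]
    simp
  rw [TT, h1, ← tsum_mul_left, ← tsum_mul_left]
  refine tsum_congr fun j => ?_
  have h2 := choose_id (j + k) k (by omega)
  rw [(by omega : 2 * (j + k) + 1 - 2 * k = 2 * j + 1), pow_succ]
  push_cast at h2 ⊢
  field_simp
  linear_combination r * g (j + k) * ν ^ (2 * k) * h2

/-- **the function with the coefficients `TT`** -/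
theorem hasSum_TT (hg0 : ∀ i, 0 ≤ g i)
    (hg : ∀ ρ : ℝ, 0 ≤ ρ → ρ < 1 → Summable fun j => g j * ρ ^ j) {μ ν : ℝ} (hμ : 0 < μ)
    (r : ℝ) {T : ℝ} (hT : μ + |ν * T| < 1) :
    HasSum (fun k => TT r g μ ν k / dd k * T ^ (2 * k))
      (r / (2 * μ) * (Ps g (μ + ν * T) + Ps g (μ - ν * T))) := by
  have hμ1 : μ < 1 := by
    have := abs_nonneg (ν * T)
    linarith
  have h1 := expand hg0 hg hμ hT
  have h2 := expand hg0 hg hμ (y := -(ν * T)) (by rwa [abs_neg])
  have h3 := h1.add h2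
  rw [← sub_eq_add_neg] at h3
  have hinj : Function.Injective (fun k : ℕ => 2 * k) := fun x y h => by
    simp only at h
    omega
  have h4 := (hinj.hasSum_iff (fun l hl => ?_)).2 h3
  · have h5 := h4.mul_left (r / (2 * μ))
    have h6 : (fun k => TT r g μ ν k / dd k * T ^ (2 * k)) = fun k => r / (2 * μ) *
        (((fun l => BB g μ l * (ν * T) ^ l + BB g μ l * (-(ν * T)) ^ l) ∘ fun k => 2 * k) k) := by
      funext k
      have hd := (dd_pos k).ne'
      rw [TT_eq hg0 hg hμ hμ1, Function.comp_apply, (even_two_mul k).neg_pow]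
      field_simp
      ring
    rw [h6]
    exact h5
  · have hodd : Odd l := by
      rw [← Nat.not_even_iff_odd]
      rintro ⟨m, hm⟩
      exact hl ⟨m, by simp only; omega⟩
    rw [hodd.neg_pow]
    ring

end Pool.Agent.Zk79.LN
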