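import Pool.Agent.Zk79.LN.Base3

set_option autoImplicit false
set_option maxHeartbeats 400000

/-! Growth and uniqueness for the expansions of nodes of any valence. -/

namespace Pool.Agent.Zk79.LN

open Finset Filter Topology Asymptotics

theorem coeffs_zero_shift {c : ℕ → ℝ} {Q : ℕ} (h : ∀ K : ℕ,
    (fun n : ℕ => ∑ k ∈ range K, c k * be k (n + Q)) =O[atTop] fun n : ℕ => ((n : ℝ) ^ K)⁻¹)
    (k : ℕ) : c k = 0 := by
  refine coeffs_zero (fun K => ?_) k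
  obtain ⟨C, hC⟩ := (h K).bound
  rw [eventually_atTop] at hC
  obtain ⟨N, hN⟩ := hC
  refine IsBigO.of_bound (|C| * 2 ^ K) ?_
  filter_upwards [eventually_ge_atTop (N + 2 * Q + 2)] with n hn
  have h1 := hN (n - Q) (by omega)
  rw [Nat.sub_add_cancel (by omega : Q ≤ n)] at h1
  refine h1.trans ?_
  have e0 : ∀ m : ℕ, ‖((m : ℝ) ^ K)⁻¹‖ = ((m : ℝ) ^ K)⁻¹ := fun m => by
    rw [Real.norm_eq_abs, abs_of_nonneg (by positivity)]
  rw [e0, e0]
  have h2 : (0 : ℝ) < ((n - Q : ℕ) : ℝ) := by exact_mod_cast (by omega : 0 < n - Q)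
  have h3 : (0 : ℝ) < (n : ℝ) := by exact_mod_cast (by omega : 0 < n)
  have h4 : (n : ℝ) ≤ 2 * ((n - Q : ℕ) : ℝ) := by exact_mod_cast (by omega : n ≤ 2 * (n - Q))
  have h5 : (n : ℝ) ^ K ≤ 2 ^ K * ((n - Q : ℕ) : ℝ) ^ K := by
    rw [← mul_pow]
    exact pow_le_pow_left₀ h3.le h4 K
  have h6 : (((n - Q : ℕ) : ℝ) ^ K)⁻¹ ≤ 2 ^ K * ((n : ℝ) ^ K)⁻¹ := by
    rw [← div_eq_mul_inv, le_div_iff₀ (by positivity), inv_mul_le_iff₀ (by positivity)]
    linarith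
  calc C * (((n - Q : ℕ) : ℝ) ^ K)⁻¹ ≤ |C| * (((n - Q : ℕ) : ℝ) ^ K)⁻¹ :=
        mul_le_mul_of_nonneg_right (le_abs_self C) (by positivity)
    _ ≤ |C| * (2 ^ K * ((n : ℝ) ^ K)⁻¹) := mul_le_mul_of_nonneg_left h6 (abs_nonneg C)
    _ = _ := by ring

theorem eq_of_expandQ {G : ℕ → ℝ} {c c' : ℕ → ℝ} {Q : ℕ}
    (h : ∀ K : ℕ, (fun n : ℕ => G n - ∑ k ∈ range K, c k * be k (n + Q)) =O[atTop]
      fun n : ℕ => ((n : ℝ) ^ K)⁻¹)
    (h' : ∀ K : ℕ, (fun n : ℕ => G n - ∑ k ∈ range K, c' k * be k (n + Q)) =O[atTop]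
      fun n : ℕ => ((n : ℝ) ^ K)⁻¹) (k : ℕ) : c k = c' k := by
  have h1 : c k - c' k = 0 := by
    refine coeffs_zero_shift (c := fun k => c k - c' k) (Q := Q) (fun K => ?_) k
    refine ((h' K).sub (h K)).congr_left fun n => ?_
    simp_rw [sub_mul]
    rw [sum_sub_distrib]
    ring
  linarith

theorem dk_zero (μ ν : ℝ) (j : ℕ) : dk μ ν 0 j = μ ^ (2 * j) := by
  simp [dk]

theorem ee_zero (p : ℕ → ℝ) (Q : ℕ) (g : ℕ → ℝ) (μ ν : ℝ) :
    ee p Q g μ ν 0 = p Q * ∑' j, g j * μ ^ (2 * j) := by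
  unfold ee
  rw [sum_eq_single Q, sum_eq_single Q]
  · rw [if_pos (by omega), Nat.choose_self, Nat.sub_self, zero_add, Nat.sub_self, DD]
    simp only [range_zero, prod_empty, mul_one, dk_zero]
    simp
  · intro l hl hne
    have := mem_range.1 hl
    rw [if_neg (by omega)]
  · intro hl
    exact absurd (mem_range.2 (by omega)) hl
  · intro r hr hne
    have := mem_range.1 hr
    refine sum_eq_zero fun l hl => ?_
    have := mem_range.1 hl
    rw [if_neg (by omega)]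
  · intro hr
    exact absurd (mem_range.2 (by omega)) hr

theorem rf_pos (r : ℕ) {x : ℝ} (hx : 0 ≤ x) : 0 < rf r x := by
  unfold rf
  exact prod_pos fun t _ => by positivity

theorem rf_le (Q m : ℕ) {x : ℝ} (hx : 0 ≤ x) : rf Q x * (2 * x + 3) ≤ rf (Q + 1 + m) x := by
  induction m with
  | zero =>
    unfold rf
    rw [add_zero, prod_range_succ]
    have h1 := rf_pos Q hx
    unfold rf at h1
    refine mul_le_mul_of_nonneg_left ?_ h1.le
    have : (0 : ℝ) ≤ Q := Nat.cast_nonneg Q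
    linarith
  | succ m ih =>
    have h1 : rf (Q + 1 + (m + 1)) x = rf (Q + 1 + m) x * (2 * x + 3 + 2 * (Q + 1 + m : ℕ)) := by
      unfold rf
      rw [← add_assoc, prod_range_succ]
    rw [h1]
    refine ih.trans (le_mul_of_one_le_right (rf_pos _ hx).le ?_)
    have : (0 : ℝ) ≤ ((Q + 1 + m : ℕ) : ℝ) := Nat.cast_nonneg _
    linarith

theorem tendsto_rf_div {Q Q' : ℕ} (h : Q < Q') :
    Tendsto (fun n : ℕ => rf Q n / rf Q' n) atTop (𝓝 0) := by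
  obtain ⟨m, rfl⟩ : ∃ m, Q' = Q + 1 + m := ⟨Q' - (Q + 1), by omega⟩
  have h1 : Tendsto (fun n : ℕ => ((n : ℝ))⁻¹) atTop (𝓝 0) :=
    tendsto_inv_atTop_zero.comp tendsto_natCast_atTop_atTop
  refine squeeze_zero' (Eventually.of_forall fun n =>
    (div_pos (rf_pos _ (Nat.cast_nonneg n)) (rf_pos _ (Nat.cast_nonneg n))).le) ?_ h1
  filter_upwards [eventually_ge_atTop 1] with n hn
  have h2 : (1 : ℝ) ≤ n := by exact_mod_cast hn
  have h3 := rf_le Q m (x := (n : ℝ)) (by linarith)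
  have h4 := rf_pos Q (x := (n : ℝ)) (by linarith)
  have h5 := rf_pos (Q + 1 + m) (x := (n : ℝ)) (by linarith)
  rw [div_le_iff₀ h5, inv_mul_eq_div, le_div_iff₀ (by linarith)]
  refine le_trans ?_ h3
  refine mul_le_mul_of_nonneg_left ?_ h4.le
  linarith

theorem tendsto_first {G : ℕ → ℝ} {c : ℕ → ℝ} {Q : ℕ}
    (h : (fun n : ℕ => G n / rf Q n - ∑ k ∈ range 1, c k * be k (n + Q)) =O[atTop]
      fun n : ℕ => ((n : ℝ) ^ 1)⁻¹) : Tendsto (fun n : ℕ => G n / rf Q n) atTop (𝓝 (c 0)) := by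
  have h1 : Tendsto (fun n : ℕ => ((n : ℝ) ^ 1)⁻¹) atTop (𝓝 0) := by
    simp only [pow_one]
    exact tendsto_inv_atTop_zero.comp tendsto_natCast_atTop_atTop
  have h2 := (h.trans_tendsto h1).add_const (c 0)
  rw [zero_add] at h2
  refine h2.congr fun n => ?_
  rw [sum_range_one]
  simp [be]

theorem degree_le {G : ℕ → ℝ} {c c' : ℕ → ℝ} {Q Q' : ℕ} (hc : c' 0 ≠ 0)
    (h : (fun n : ℕ => G n / rf Q n - ∑ k ∈ range 1, c k * be k (n + Q)) =O[atTop]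
      fun n : ℕ => ((n : ℝ) ^ 1)⁻¹)
    (h' : (fun n : ℕ => G n / rf Q' n - ∑ k ∈ range 1, c' k * be k (n + Q')) =O[atTop]
      fun n : ℕ => ((n : ℝ) ^ 1)⁻¹) : Q' ≤ Q := by
  by_contra hcon
  push Not at hcon
  have h1 := (tendsto_first h).mul (tendsto_rf_div hcon)
  rw [mul_zero] at h1
  refine hc (tendsto_nhds_unique (tendsto_first h') (h1.congr fun n => ?_))
  have h4 := rf_pos Q (x := (n : ℝ)) (Nat.cast_nonneg n)
  field_simp

theorem tsum_pos' {g : ℕ → ℝ} (hg0 : ∀ i, 0 ≤ g i) (h1 : 0 < g 0)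
    (hg : ∀ ρ : ℝ, 0 ≤ ρ → ρ < 1 → Summable fun j => g j * ρ ^ j) {μ : ℝ} (hμ : 0 < μ)
    (hμ1 : μ < 1) : 0 < ∑' j, g j * μ ^ (2 * j) := by
  have h2 : Summable fun j => g j * μ ^ (2 * j) := by
    have := hg (μ ^ 2) (by positivity) (pow_lt_one₀ hμ.le hμ1 two_ne_zero)
    refine this.congr fun j => ?_
    rw [pow_mul]
  refine h2.tsum_pos (fun j => mul_nonneg (hg0 j) (by positivity)) 0 ?_
  simpa using h1

end Pool.Agent.Zk79.LN
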