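import Pool.Agent.Zk79.LN.Base

set_option autoImplicit false
set_option maxHeartbeats 400000

/-! The joint law of `x_v`, `x_w` for two nodes. -/

namespace Pool.Agent.Zk79.LN

open Finset MeasureTheory ProbabilityTheory WithLp Matrix Pool.Agent.Zk79.LM
  Pool.Agent.Zk79.LM.Diagram

/-- the slope of the regression of `x_w` on `x_v` -/
noncomputable def muv (D : Diagram) (v w : ℕ) : ℝ := D.lk v w / D.P v

/-- the normalised conditional deviation -/
noncomputable def nuv (D : Diagram) (v w : ℕ) : ℝ := √((D.P w : ℝ) / D.P v - muv D v w ^ 2)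

theorem quad_gen (D : Diagram) (t : Sp D.n) :
    ofLp t ⬝ᵥ (D.cov *ᵥ ofLp t) =
      ∑ x : Fin (D.n + 1), ∑ y : Fin (D.n + 1), D.lk x y / 2 * inner ℝ (pr x t) (pr y t) := by
  rw [dotProduct, Fintype.sum_prod_type]
  refine sum_congr rfl fun x _ => ?_
  have h1 : ∀ a : Fin 3, (D.cov *ᵥ ofLp t) (x, a) =
      ∑ y : Fin (D.n + 1), D.lk x y / 2 * t (y, a) := by
    intro a
    rw [mulVec, dotProduct, Fintype.sum_prod_type]
    refine sum_congr rfl fun y _ => ?_
    rw [Finset.sum_eq_single a]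
    · simp [Diagram.cov]
    · intro b _ hb
      simp [Diagram.cov, Ne.symm hb]
    · intro h
      exact absurd (mem_univ a) h
  simp_rw [h1, mul_sum]
  rw [sum_comm]
  refine sum_congr rfl fun y _ => ?_
  rw [PiLp.inner_apply, mul_sum]
  refine sum_congr rfl fun a _ => ?_
  simp only [pr, RCLike.inner_apply, conj_trivial]
  ring

theorem quad_two {D : Diagram} (hS : D.IsSplice) (hn : D.n = 1) {v w : Fin (D.n + 1)} (hvw : v ≠ w) (t : Sp D.n) :
    ofLp t ⬝ᵥ (D.cov *ᵥ ofLp t) = (D.P v : ℝ) / 2 * ‖pr v t‖ ^ 2 +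
      D.lk v w * inner ℝ (pr v t) (pr w t) + (D.P w : ℝ) / 2 * ‖pr w t‖ ^ 2 := by
  have hx : ∀ x : Fin (D.n + 1), ¬ (x ≠ v ∧ x ≠ w) := by
    rintro x ⟨h1, h2⟩
    have h3 : (x : ℕ) ≠ v := fun h => h1 (Fin.ext h)
    have h4 : (x : ℕ) ≠ w := fun h => h2 (Fin.ext h)
    have h5 : (v : ℕ) ≠ w := fun h => hvw (Fin.ext h)
    have := x.2
    have := v.2
    have := w.2
    omega
  rw [quad_gen, Fintype.sum_eq_add v w hvw fun x h => absurd h (hx x),
    Fintype.sum_eq_add v w hvw fun x h => absurd h (hx x),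
    Fintype.sum_eq_add v w hvw fun x h => absurd h (hx x), lk_self, lk_self,
    lk_symm hS (i := w) (j := v) (by omega) (by omega), real_inner_self_eq_norm_sq,
    real_inner_self_eq_norm_sq, real_inner_comm (pr v t) (pr w t)]
  ring

theorem pr_io_same {n : ℕ} (v : Fin (n + 1)) (t : E3) : pr v (io v t) = t := by
  ext a
  simp [pr, io]

theorem pr_io_ne {n : ℕ} {v w : Fin (n + 1)} (h : v ≠ w) (t : E3) : pr w (io v t) = 0 := by
  ext a
  simp [pr, io, Ne.symm h]

theorem pr_add {n : ℕ} (v : Fin (n + 1)) (x y : Sp n) : pr v (x + y) = pr v x + pr v y := by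
  ext a
  simp [pr]

theorem continuous_io {n : ℕ} (v : Fin (n + 1)) : Continuous (io v : E3 → Sp n) := by
  unfold io
  refine (PiLp.continuous_toLp 2 _).comp ?_
  refine continuous_pi fun p => ?_
  by_cases h : p.1 = v
  · simp only [h, if_true]
    fun_prop
  · simp only [h, if_false]
    fun_prop

/-- the linear map to `Sp` -/
noncomputable def Phi (D : Diagram) (v w : Fin (D.n + 1)) (p : E3 × E3) : Sp D.n :=
  io v (√((D.P v : ℝ) / 2) • p.1) +
    io w (√((D.P v : ℝ) / 2) • (muv D v w • p.1 + nuv D v w • p.2))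

theorem continuous_Phi (D : Diagram) (v w : Fin (D.n + 1)) : Continuous (Phi D v w) := by
  unfold Phi
  exact ((continuous_io v).comp (by fun_prop)).add ((continuous_io w).comp (by fun_prop))

theorem law_two {D : Diagram} (h : D.IsSplice) (hn : D.n = 1) {v w : Fin (D.n + 1)} (hvw : v ≠ w)
    (hnu : 0 ≤ (D.P w : ℝ) / D.P v - muv D v w ^ 2) :
    D.gauss = ((stdGaussian E3).prod (stdGaussian E3)).map (Phi D v w) := by
  have hm : Measurable (Phi D v w) := (continuous_Phi D v w).measurable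
  have hPv : (1 : ℝ) ≤ D.P v := by exact_mod_cast P_pos h (by omega : (v : ℕ) ≤ D.n)
  have : IsProbabilityMeasure (((stdGaussian E3).prod (stdGaussian E3)).map (Phi D v w)) :=
    Measure.isProbabilityMeasure_map hm.aemeasurable
  have : IsProbabilityMeasure D.gauss := by unfold Diagram.gauss; infer_instance
  apply Measure.ext_of_charFun
  funext t
  rw [Diagram.gauss, charFun_multivariateGaussian (cov_posDef h).posSemidef, charFun_apply,
    integral_map hm.aemeasurable (by fun_prop)]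
  obtain ⟨a, ha⟩ : ∃ a, a = √((D.P v : ℝ) / 2) := ⟨_, rfl⟩
  have e1 : ∀ p : E3 × E3, Complex.exp ((inner ℝ (Phi D v w p) t : ℝ) * Complex.I) =
      Complex.exp ((inner ℝ p.1 (a • (pr v t + muv D v w • pr w t)) : ℝ) * Complex.I) *
      Complex.exp ((inner ℝ p.2 (a • nuv D v w • pr w t) : ℝ) * Complex.I) := by
    intro p
    rw [← Complex.exp_add, ← add_mul]
    congr 2
    rw [← Complex.ofReal_add]
    congr 1
    unfold Phi
    rw [← ha, inner_add_left, real_inner_comm t (io v _), real_inner_comm t (io w _)]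
    have e2 : ∀ (x : Fin (D.n + 1)) (s : E3), inner ℝ t (io x s) = inner ℝ (pr x t) s :=
      fun x s => (inner_pr x t s).symm
    rw [e2, e2]
    simp only [inner_smul_left, inner_smul_right, inner_add_left, inner_add_right, conj_trivial]
    rw [real_inner_comm (pr v t) p.1, real_inner_comm (pr w t) p.1, real_inner_comm (pr w t) p.2]
    ring
  simp_rw [e1]
  rw [integral_prod_mul (μ := stdGaussian E3) (ν := stdGaussian E3)
    (fun x : E3 => Complex.exp ((inner ℝ x (a • (pr v t + muv D v w • pr w t)) : ℝ) * Complex.I))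
    (fun x : E3 => Complex.exp ((inner ℝ x (a • nuv D v w • pr w t) : ℝ) * Complex.I)),
    ← charFun_apply, ← charFun_apply, charFun_stdGaussian, charFun_stdGaussian, ← Complex.exp_add,
    quad_two h hn hvw, inner_zero_right]
  congr 1
  have ha2 : a ^ 2 = (D.P v : ℝ) / 2 := by
    rw [ha, Real.sq_sqrt (by positivity)]
  have e3 : ‖a • (pr v t + muv D v w • pr w t)‖ ^ 2 = (D.P v : ℝ) / 2 * (‖pr v t‖ ^ 2 +
      2 * (muv D v w * inner ℝ (pr v t) (pr w t)) + muv D v w ^ 2 * ‖pr w t‖ ^ 2) := by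
    rw [norm_smul, mul_pow, Real.norm_eq_abs, sq_abs, ha2, norm_add_sq_real, inner_smul_right,
      norm_smul, mul_pow, Real.norm_eq_abs, sq_abs]
  have e4 : ‖a • nuv D v w • pr w t‖ ^ 2 = (D.P v : ℝ) / 2 *
      (((D.P w : ℝ) / D.P v - muv D v w ^ 2) * ‖pr w t‖ ^ 2) := by
    rw [norm_smul, norm_smul, mul_pow, mul_pow, Real.norm_eq_abs, sq_abs, ha2, Real.norm_eq_abs,
      sq_abs, nuv, Real.sq_sqrt hnu]
  have e5 : (D.P v : ℝ) * muv D v w = D.lk v w := by
    unfold muv
    field_simp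
  have e6 : (D.P v : ℝ) / 2 * ‖pr v t‖ ^ 2 + D.lk v w * inner ℝ (pr v t) (pr w t) +
      (D.P w : ℝ) / 2 * ‖pr w t‖ ^ 2 = ‖a • (pr v t + muv D v w • pr w t)‖ ^ 2 +
      ‖a • nuv D v w • pr w t‖ ^ 2 := by
    rw [e3, e4, ← e5]
    field_simp
    ring
  rw [e6]
  push_cast
  ring

theorem nsq_Phi_v {D : Diagram} {v w : Fin (D.n + 1)} (hvw : v ≠ w) (p : E3 × E3) :
    nsq (Phi D v w p) v = (D.P v : ℝ) / 2 * ‖p.1‖ ^ 2 := by
  rw [nsq_eq_pr, Phi, pr_add, pr_io_same, pr_io_ne (Ne.symm hvw), add_zero, norm_smul, mul_pow,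
    Real.norm_eq_abs, sq_abs, Real.sq_sqrt (by positivity)]

theorem nsq_Phi_w {D : Diagram} {v w : Fin (D.n + 1)} (hvw : v ≠ w) (p : E3 × E3) :
    nsq (Phi D v w p) w = (D.P v : ℝ) / 2 * ‖muv D v w • p.1 + nuv D v w • p.2‖ ^ 2 := by
  rw [nsq_eq_pr, Phi, pr_add, pr_io_same, pr_io_ne hvw, zero_add, norm_smul, mul_pow,
    Real.norm_eq_abs, sq_abs, Real.sq_sqrt (by positivity)]

end Pool.Agent.Zk79.LN
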