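import Pool.Agent.Zk79.LN.Node

set_option autoImplicit false
set_option maxHeartbeats 400000

/-! The limit of the coefficients of a node of valence 3. -/

namespace Pool.Agent.Zk79.LN

open Finset Pool.Agent.Zk79.LM Pool.Agent.Zk79.LM.Diagram PowerSeries Filter Topology

/-- `Sf (-z)` -/
noncomputable def Kf (z : ℂ) : ℂ := Sf (-z)

theorem differentiable_Kf : Differentiable ℂ Kf := by
  unfold Kf
  exact fun z => (differentiable_Sf _).comp z (by fun_prop)

theorem Kf_pi : Kf ((Real.pi : ℂ) ^ 2) = 0 := Sf_neg_pi_sq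

theorem Kf_ne {z : ℂ} (hz : ‖z‖ < 4 * Real.pi ^ 2) (hz2 : z ≠ (Real.pi : ℂ) ^ 2) : Kf z ≠ 0 := by
  intro h
  unfold Kf at h
  obtain ⟨w, hw⟩ : ∃ w : ℂ, w ^ 2 = -z := IsAlgClosed.exists_pow_nat_eq _ two_pos
  have h1 := mul_Sf w
  rw [hw, h, mul_zero] at h1
  have h2 : Complex.sin (w * Complex.I) = 0 := by
    rw [Complex.sin_mul_I, ← h1, zero_mul]
  obtain ⟨k, hk⟩ := Complex.sin_eq_zero_iff.1 h2
  have hz3 : z = ((k : ℂ) * Real.pi) ^ 2 := by
    rw [← hk, mul_pow, hw, Complex.I_sq]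
    ring
  have hk2 : |(k : ℝ)| < 2 := by
    rw [hz3, norm_pow, norm_mul, Complex.norm_real, Real.norm_eq_abs, abs_of_pos Real.pi_pos,
      Complex.norm_intCast] at hz
    by_contra hcon
    push Not at hcon
    have := Real.pi_pos
    nlinarith [mul_le_mul_of_nonneg_right hcon Real.pi_pos.le]
  have hk3 : |k| < 2 := by exact_mod_cast hk2
  have hk4 := abs_lt.1 hk3
  obtain h5 | h5 | h5 : k = 0 ∨ k = 1 ∨ k = -1 := by omega
  · rw [hz3, h5] at h
    simp [Sf_zero] at h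
  · apply hz2
    rw [hz3, h5]
    simp
  · apply hz2
    rw [hz3, h5]
    simp

theorem deriv_Kf : deriv Kf ((Real.pi : ℂ) ^ 2) ≠ 0 := by
  intro h0
  have hp : (Real.pi : ℂ) ≠ 0 := by exact_mod_cast Real.pi_ne_zero
  -- `x * Kf (x ^ 2) = sin x`
  have h1 : (fun x : ℂ => x * Kf (x ^ 2)) = Complex.sin := by
    funext x
    have h2 := mul_Sf (x * Complex.I)
    rw [Complex.sinh_mul_I, mul_pow, Complex.I_sq, mul_neg_one] at h2
    have : Complex.I * (x * Kf (x ^ 2)) = Complex.I * Complex.sin x := by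
      unfold Kf
      linear_combination h2
    exact mul_left_cancel₀ Complex.I_ne_zero this
  have h3 : HasDerivAt (fun x : ℂ => x * Kf (x ^ 2))
      (1 * Kf ((Real.pi : ℂ) ^ 2) + Real.pi * (deriv Kf ((Real.pi : ℂ) ^ 2) *
        (((2 : ℕ) : ℂ) * (Real.pi : ℂ) ^ (2 - 1)))) (Real.pi : ℂ) := by
    have h4 : HasDerivAt Kf (deriv Kf ((Real.pi : ℂ) ^ 2)) ((Real.pi : ℂ) ^ 2) :=
      (differentiable_Kf _).hasDerivAt
    have h5 : HasDerivAt (Kf ∘ fun x : ℂ => x ^ 2) (deriv Kf ((Real.pi : ℂ) ^ 2) *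
        (((2 : ℕ) : ℂ) * (Real.pi : ℂ) ^ (2 - 1))) (Real.pi : ℂ) :=
      HasDerivAt.comp (h₂ := Kf) (h := fun x : ℂ => x ^ 2) (Real.pi : ℂ) h4 (hasDerivAt_pow 2 _)
    exact (hasDerivAt_id _).mul h5
  rw [h1] at h3
  have h5 := h3.unique (Complex.hasDerivAt_sin _)
  rw [h0, Kf_pi, Complex.cos_pi] at h5
  norm_num at h5

/-- the quotient -/
noncomputable def Qf (z : ℂ) : ℂ := dslope Kf ((Real.pi : ℂ) ^ 2) z

theorem Kf_eq (z : ℂ) : Kf z = (z - (Real.pi : ℂ) ^ 2) * Qf z := by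
  have h := sub_smul_dslope Kf ((Real.pi : ℂ) ^ 2) z
  rw [Kf_pi, sub_zero, smul_eq_mul] at h
  exact h.symm

theorem Qf_ne {z : ℂ} (hz : ‖z‖ < 4 * Real.pi ^ 2) : Qf z ≠ 0 := by
  rcases eq_or_ne z ((Real.pi : ℂ) ^ 2) with h | h
  · rw [h, Qf, dslope_same]
    exact deriv_Kf
  · intro h0
    apply Kf_ne hz h
    rw [Kf_eq, h0, mul_zero]

theorem differentiable_Qf : Differentiable ℂ Qf := by
  have h : DifferentiableOn ℂ (dslope Kf ((Real.pi : ℂ) ^ 2)) Set.univ :=
    (Complex.differentiableOn_dslope univ_mem).2 differentiable_Kf.differentiableOn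
  exact fun z => (h z (Set.mem_univ z)).differentiableAt univ_mem

theorem coeff_lin (c : ℝ) (k : ℕ) : coeff k (1 - C c * X : PowerSeries ℝ) =
    if k = 0 then 1 else if k = 1 then -c else 0 := by
  rw [map_sub, coeff_one, coeff_C_mul, coeff_X]
  rcases k with _ | _ | k
  · simp
  · simp
  · simp

theorem Wr_lin (c r : ℝ) : Wr r (1 - C c * X : PowerSeries ℝ) := by
  refine summable_of_ne_finset_zero (s := range 2) fun k hk => ?_
  rw [mem_range] at hk
  rw [coeff_lin, if_neg (by omega), if_neg (by omega), abs_zero, zero_mul]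

theorem ev_lin (c : ℝ) (z : ℂ) : ev (1 - C c * X : PowerSeries ℝ) z = 1 - c * z := by
  unfold ev
  rw [tsum_eq_sum (s := range 2)]
  · rw [sum_range_succ, sum_range_one, coeff_lin, coeff_lin]
    simp
    ring
  · intro k hk
    rw [mem_range] at hk
    rw [coeff_lin, if_neg (by omega), if_neg (by omega), Complex.ofReal_zero, zero_mul]

variable {D : Diagram}

theorem Wr_H (v : ℕ) (hv : D.valence v = 3) {r : ℝ} (hr : 0 ≤ r) (hr4 : r < 4 * Real.pi ^ 2) :
    Wr r (yy D v * (1 - C (1 / Real.pi ^ 2) * X)) := by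
  have hp := Real.pi_gt_three
  have h2 : (2 : ℝ) < Real.pi ^ 2 := by nlinarith
  have hpc : (Real.pi : ℂ) ^ 2 ≠ 0 := by
    have : (Real.pi : ℂ) ≠ 0 := by exact_mod_cast Real.pi_ne_zero
    exact pow_ne_zero 2 this
  refine Wr_of_holo (ρ := 2) (R := 4 * Real.pi ^ 2)
    (F := fun z => -(1 / (Real.pi : ℂ) ^ 2) *
      ((∏ a ∈ D.leaves v, Sf (((1 / (a : ℝ) ^ 2 : ℝ) : ℂ) * -z)) / Qf z)) (by norm_num)
    ((Wr_yy D v (by norm_num) h2).mul (by norm_num) (Wr_lin _ _)) ?_ ?_ hr hr4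
  · intro z hz
    have hz' : ‖z‖ < Real.pi ^ 2 := by linarith
    rw [ev_mul (Wr_yy D v (norm_nonneg _) hz') (Wr_lin _ _) le_rfl, ev_lin, ev_yy D v hz', psi, hv]
    have e1 : Sf (-z) = (z - (Real.pi : ℂ) ^ 2) * Qf z := Kf_eq z
    have h3 : Sf (-z) ≠ 0 := Sf_ne_of_norm (by rwa [norm_neg])
    have h4 : Qf z ≠ 0 := by
      intro h0
      apply h3
      rw [e1, h0, mul_zero]
    have h5 : z - (Real.pi : ℂ) ^ 2 ≠ 0 := by
      intro h0
      apply h3
      rw [e1, h0, zero_mul]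
    have e2 : (3 - 2 : ℕ) = 1 := rfl
    rw [e2, pow_one, e1]
    push_cast
    field_simp
    ring
  · intro z hz
    rw [mem_ball_zero_iff] at hz
    apply DifferentiableAt.differentiableWithinAt
    refine DifferentiableAt.const_mul ?_ _
    refine DifferentiableAt.div ?_ (differentiable_Qf z) (Qf_ne hz)
    refine DifferentiableAt.fun_finsetProd fun a _ => ?_
    exact (differentiable_Sf _).comp z (by fun_prop)

/-- the normalised coefficients of a node -/
noncomputable def sq (D : Diagram) (v i : ℕ) : ℝ := coeff i (yy D v) * Real.pi ^ (2 * i)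

theorem sq_nonneg' (h : D.IsSplice) {v : ℕ} (hv : v ≤ D.n) (i : ℕ) : 0 ≤ sq D v i :=
  mul_nonneg (NN_yy' h hv i) (by positivity)

theorem sum_H (v : ℕ) (i : ℕ) : ∑ l ∈ range (i + 1),
    coeff l (yy D v * (1 - C (1 / Real.pi ^ 2) * X)) * Real.pi ^ (2 * l) = sq D v i := by
  induction i with
  | zero =>
    rw [sum_range_one, sq]
    congr 1
    rw [coeff_zero_eq_constantCoeff_apply, map_mul, ← coeff_zero_eq_constantCoeff_apply,
      ← coeff_zero_eq_constantCoeff_apply, coeff_lin, if_pos rfl, mul_one]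
  | succ i ih =>
    rw [sum_range_succ, ih, sq, sq]
    have e1 : coeff (i + 1) (yy D v * (1 - C (1 / Real.pi ^ 2) * X)) =
        coeff (i + 1) (yy D v) - 1 / Real.pi ^ 2 * coeff i (yy D v) := by
      rw [mul_sub, mul_one, map_sub, mul_left_comm, coeff_C_mul, coeff_succ_mul_X]
    rw [e1]
    have hp := Real.pi_pos
    have e2 : Real.pi ^ (2 * (i + 1)) = Real.pi ^ 2 * Real.pi ^ (2 * i) := by ring
    rw [e2]
    field_simp
    ring

theorem exists_lim (v : ℕ) (hv : D.valence v = 3) : ∃ r A : ℝ, 0 ≤ A ∧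
    ∀ i, |sq D v i - r| ≤ A * (1 / 2) ^ i := by
  have hp := Real.pi_pos
  have hpp : 0 < Real.pi ^ 2 := by positivity
  obtain ⟨H, hH⟩ : ∃ H, H = yy D v * (1 - C (1 / Real.pi ^ 2) * X) := ⟨_, rfl⟩
  have h1 : Wr (2 * Real.pi ^ 2) H := by
    rw [hH]
    exact Wr_H v hv (by positivity) (by linarith)
  have h2 : ∀ l, |coeff l H * Real.pi ^ (2 * l)| =
      |coeff l H| * (2 * Real.pi ^ 2) ^ l * (1 / 2) ^ l := by
    intro l
    rw [abs_mul, abs_of_pos (pow_pos hp _), mul_assoc, ← mul_pow, pow_mul]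
    congr 2
    ring
  have hsum : Summable fun l => |coeff l H| * (2 * Real.pi ^ 2) ^ l := h1
  have h3 : Summable fun l => coeff l H * Real.pi ^ (2 * l) := by
    refine Summable.of_norm_bounded hsum fun l => ?_
    rw [Real.norm_eq_abs, h2]
    refine mul_le_of_le_one_right (by positivity) ?_
    exact pow_le_one₀ (by norm_num) (by norm_num)
  refine ⟨∑' l, coeff l H * Real.pi ^ (2 * l), ∑' l, |coeff l H| * (2 * Real.pi ^ 2) ^ l,
    tsum_nonneg fun l => by positivity, fun i => ?_⟩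
  have h4 := h3.sum_add_tsum_nat_add (i + 1)
  have h5 := sum_H (D := D) v i
  rw [← hH] at h5
  rw [h5] at h4
  rw [← h4, abs_sub_comm, add_sub_cancel_left]
  have h6 : Summable fun l => |coeff (l + (i + 1)) H * Real.pi ^ (2 * (l + (i + 1)))| :=
    ((summable_nat_add_iff (i + 1)).2 h3).abs
  have h7 : |∑' l, coeff (l + (i + 1)) H * Real.pi ^ (2 * (l + (i + 1)))| ≤
      ∑' l, |coeff (l + (i + 1)) H * Real.pi ^ (2 * (l + (i + 1)))| := by
    have := norm_tsum_le_tsum_norm (f := fun l => coeff (l + (i + 1)) H *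
      Real.pi ^ (2 * (l + (i + 1)))) (by simpa only [Real.norm_eq_abs] using h6)
    simpa only [Real.norm_eq_abs] using this
  refine h7.trans ?_
  have h8 : Summable fun l => |coeff (l + (i + 1)) H| * (2 * Real.pi ^ 2) ^ (l + (i + 1)) :=
    (summable_nat_add_iff (i + 1)).2 hsum
  have h9 : ∑' l, |coeff (l + (i + 1)) H| * (2 * Real.pi ^ 2) ^ (l + (i + 1)) ≤
      ∑' l, |coeff l H| * (2 * Real.pi ^ 2) ^ l := by
    rw [← hsum.sum_add_tsum_nat_add (i + 1)]
    have : 0 ≤ ∑ l ∈ range (i + 1), |coeff l H| * (2 * Real.pi ^ 2) ^ l :=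
      sum_nonneg fun l _ => by positivity
    linarith
  calc ∑' l, |coeff (l + (i + 1)) H * Real.pi ^ (2 * (l + (i + 1)))| ≤
      ∑' l, |coeff (l + (i + 1)) H| * (2 * Real.pi ^ 2) ^ (l + (i + 1)) * (1 / 2) ^ i := by
        refine h6.tsum_le_tsum (fun l => ?_) (h8.mul_right _)
        rw [h2]
        refine mul_le_mul_of_nonneg_left ?_ (by positivity)
        exact pow_le_pow_of_le_one (by norm_num) (by norm_num) (by omega)
    _ = (∑' l, |coeff (l + (i + 1)) H| * (2 * Real.pi ^ 2) ^ (l + (i + 1))) * (1 / 2) ^ i :=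
        tsum_mul_right
    _ ≤ _ := mul_le_mul_of_nonneg_right h9 (by positivity)

end Pool.Agent.Zk79.LN
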