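import Pool.Agent.Zk79.LN.Tf

set_option autoImplicit false
set_option maxHeartbeats 400000

/-! The functions are determined by the symmetrised functions. -/

namespace Pool.Agent.Zk79.LN

open Finset Polynomial

/-- the polynomial of a set -/
noncomputable def We (g : ℕ) (A : Finset ℕ) : Polynomial ℂ := ∏ a ∈ A, (X ^ (2 * (g / a)) - 1)

/-- the exponential -/
noncomputable def xe (g : ℕ) (z : ℝ) : ℂ := Complex.exp (Real.pi * z / g * Complex.I)

theorem xe_ne (g : ℕ) (z : ℝ) : xe g z ≠ 0 := Complex.exp_ne_zero _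

theorem xe_pow {g a : ℕ} (hg : 0 < g) (ha : 0 < a) (hag : a ∣ g) (z : ℝ) :
    xe g z ^ (g / a) = Complex.exp (Real.pi * z / a * Complex.I) := by
  obtain ⟨c, rfl⟩ := hag
  rw [Nat.mul_div_cancel_left _ ha, xe, ← Complex.exp_nat_mul]
  congr 1
  have h1 : (a : ℂ) ≠ 0 := by exact_mod_cast ha.ne'
  have h2 : (c : ℂ) ≠ 0 := by
    have : c ≠ 0 := by
      rintro rfl
      simp at hg
    exact_mod_cast this
  push_cast
  field_simp

theorem exp_sin (x : ℝ) : Complex.exp (x * Complex.I) ^ 2 - 1 =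
    Complex.exp (x * Complex.I) * (2 * Complex.I) * (Real.sin x : ℝ) := by
  rw [Complex.ofReal_sin, Complex.sin]
  have h1 : Complex.exp (-(x : ℂ) * Complex.I) = (Complex.exp (x * Complex.I))⁻¹ := by
    rw [neg_mul, Complex.exp_neg]
  rw [h1]
  have h2 := Complex.exp_ne_zero ((x : ℂ) * Complex.I)
  have h3 := Complex.I_sq
  field_simp
  linear_combination (Complex.exp (x * Complex.I) ^ 2 - 1) * h3

theorem We_eval {g : ℕ} (hg : 0 < g) {A : Finset ℕ} (hA : ∀ a ∈ A, 2 ≤ a) (hd : ∀ a ∈ A, a ∣ g)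
    (z : ℝ) : (We g A).eval (xe g z) =
      xe g z ^ (∑ a ∈ A, g / a) * (2 * Complex.I) ^ A.card * (sp A z : ℝ) := by
  unfold We sp
  rw [eval_prod, ← prod_pow_eq_pow_sum, ← prod_const, Complex.ofReal_prod, ← prod_mul_distrib,
    ← prod_mul_distrib]
  refine prod_congr rfl fun a ha => ?_
  have h1 : 0 < a := by have := hA a ha; omega
  rw [eval_sub, eval_pow, eval_X, eval_one, mul_comm 2 (g / a), pow_mul,
    xe_pow hg h1 (hd a ha)]
  have h2 := exp_sin (Real.pi * z / a)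
  push_cast at h2
  rw [h2]
  push_cast
  rfl

theorem We_deg {g : ℕ} (A : Finset ℕ) (hd : ∀ a ∈ A, 0 < g / a) :
    (We g A).natDegree ≤ 2 * ∑ a ∈ A, g / a := by
  unfold We
  refine (natDegree_prod_le _ _).trans ?_
  rw [mul_sum]
  refine sum_le_sum fun a ha => ?_
  have h1 : (X ^ (2 * (g / a)) - 1 : Polynomial ℂ) = X ^ (2 * (g / a)) - C 1 := by rw [map_one]
  rw [h1, natDegree_X_pow_sub_C]

/-- the identity of the functions -/
theorem full_ident {A B A' B' : Finset ℕ} {g κ k : ℕ} (hg : 0 < g) (hκ : 2 ≤ κ) (hk : 3 ≤ k)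
    (hkg : k.Coprime g)
    (hA : ∀ a ∈ A, 2 ≤ a) (hB : ∀ a ∈ B, 2 ≤ a) (hA' : ∀ a ∈ A', 2 ≤ a) (hB' : ∀ a ∈ B', 2 ≤ a)
    (dA : ∀ a ∈ A, a ∣ g) (dB : ∀ a ∈ B, a ∣ g) (dA' : ∀ a ∈ A', a ∣ g) (dB' : ∀ a ∈ B', a ∣ g)
    (kA : A.card = κ + 1) (kB : B.card = κ + 1) (kA' : A'.card = κ + 1) (kB' : B'.card = κ + 1)
    {α β α' β' μ ν : ℝ} (hμ : μ * k = g) (hν : 0 < ν)
    (h : ∀ T : ℝ, Real.sin (Real.pi * (μ + ν * T)) ≠ 0 → Real.sin (Real.pi * (μ - ν * T)) ≠ 0 →
      (α * sp A (μ + ν * T) + β * sp B (μ + ν * T)) / Real.sin (Real.pi * (μ + ν * T)) ^ κ +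
      (α * sp A (μ - ν * T) + β * sp B (μ - ν * T)) / Real.sin (Real.pi * (μ - ν * T)) ^ κ =
      (α' * sp A' (μ + ν * T) + β' * sp B' (μ + ν * T)) / Real.sin (Real.pi * (μ + ν * T)) ^ κ +
      (α' * sp A' (μ - ν * T) + β' * sp B' (μ - ν * T)) / Real.sin (Real.pi * (μ - ν * T)) ^ κ)
    (z : ℝ) : α * sp A z + β * sp B z = α' * sp A' z + β' * sp B' z := by
  obtain ⟨F, hF⟩ : ∃ F : ℝ → ℝ, ∀ z, F z = α * sp A z + β * sp B z - α' * sp A' z - β' * sp B' z :=
    ⟨_, fun _ => rfl⟩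
  -- the symmetry
  have hpar : ∀ z, F (-z) = (-1) ^ (κ + 1) * F z := by
    intro z
    rw [hF, hF, sp_neg, sp_neg, sp_neg, sp_neg, kA, kB, kA', kB']
    ring
  have hper : ∀ z : ℝ, Real.sin (Real.pi * z) ≠ 0 → Real.sin (Real.pi * (z + 2 * μ)) ≠ 0 →
      F (z + 2 * μ) * Real.sin (Real.pi * z) ^ κ = F z * Real.sin (Real.pi * (z + 2 * μ)) ^ κ := by
    intro z h1 h2
    have e1 : μ + ν * ((μ + z) / ν) = z + 2 * μ := by
      field_simp
      ring
    have e2 : μ - ν * ((μ + z) / ν) = -z := by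
      field_simp
      ring
    have h3 := h ((μ + z) / ν)
    rw [e1, e2] at h3
    have e3 : Real.sin (Real.pi * -z) = -Real.sin (Real.pi * z) := by
      rw [mul_neg, Real.sin_neg]
    rw [e3] at h3
    have h4 := h3 h2 (neg_ne_zero.2 h1)
    have h5 : F (z + 2 * μ) / Real.sin (Real.pi * (z + 2 * μ)) ^ κ +
        F (-z) / (-Real.sin (Real.pi * z)) ^ κ = 0 := by
      rw [hF, hF]
      linear_combination h4
    rw [hpar, neg_pow (Real.sin (Real.pi * z))] at h5
    have h6 : (-1 : ℝ) ^ κ ≠ 0 := pow_ne_zero _ (by norm_num)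
    have h7 : (-1 : ℝ) ^ κ * (-1) ^ κ = 1 := by
      rw [← mul_pow]
      norm_num
    have h8 := pow_ne_zero κ h1
    have h9 := pow_ne_zero κ h2
    rw [pow_succ, mul_assoc, mul_div_mul_left _ _ h6, div_add_div _ _ h9 h8,
      div_eq_zero_iff, or_iff_left (mul_ne_zero h9 h8)] at h5
    linear_combination h5
  -- the polynomial
  obtain ⟨n, hn⟩ : ∃ n, n + 1 = g * κ := ⟨g * κ - 1, by
    have : 0 < g * κ := Nat.mul_pos hg (by omega)
    omega⟩
  have hsum : ∀ S : Finset ℕ, (∀ a ∈ S, 2 ≤ a) → S.card = κ + 1 → ∑ a ∈ S, g / a ≤ n := by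
    intro S hS hc
    have h1 : ∑ a ∈ S, 2 * (g / a) ≤ ∑ _a ∈ S, g := by
      refine sum_le_sum fun a ha => ?_
      have h2 := hS a ha
      have h3 : g / a ≤ g / 2 := Nat.div_le_div_left h2 (by norm_num)
      omega
    rw [sum_const, hc, smul_eq_mul, ← mul_sum] at h1
    have h2 : (κ + 1) * g < 2 * (g * κ) := by nlinarith
    omega
  have hpos : ∀ S : Finset ℕ, (∀ a ∈ S, 2 ≤ a) → (∀ a ∈ S, a ∣ g) → ∀ a ∈ S, 0 < g / a :=
    fun S hS hd a ha => Nat.div_pos (Nat.le_of_dvd hg (hd a ha)) (by have := hS a ha; omega)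
  obtain ⟨D, hD⟩ : ∃ D : Polynomial ℂ, D =
      C (α : ℂ) * (X ^ (n - ∑ a ∈ A, g / a) * We g A) +
      C (β : ℂ) * (X ^ (n - ∑ a ∈ B, g / a) * We g B) -
      C (α' : ℂ) * (X ^ (n - ∑ a ∈ A', g / a) * We g A') -
      C (β' : ℂ) * (X ^ (n - ∑ a ∈ B', g / a) * We g B') := ⟨_, rfl⟩
  have hterm : ∀ S : Finset ℕ, (∀ a ∈ S, 2 ≤ a) → (∀ a ∈ S, a ∣ g) → S.card = κ + 1 → ∀ z : ℝ,
      (X ^ (n - ∑ a ∈ S, g / a) * We g S).eval (xe g z) =
        xe g z ^ n * (2 * Complex.I) ^ (κ + 1) * (sp S z : ℝ) := by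
    intro S hS hd hc z
    rw [eval_mul, eval_pow, eval_X, We_eval hg hS hd, hc, ← mul_assoc, ← mul_assoc, ← pow_add,
      Nat.sub_add_cancel (hsum S hS hc)]
  have hDe : ∀ z : ℝ, D.eval (xe g z) = xe g z ^ n * (2 * Complex.I) ^ (κ + 1) * (F z : ℝ) := by
    intro z
    rw [hD, eval_sub, eval_sub, eval_add, eval_C_mul, eval_C_mul, eval_C_mul, eval_C_mul,
      hterm A hA dA kA, hterm B hB dB kB, hterm A' hA' dA' kA', hterm B' hB' dB' kB', hF]
    push_cast
    ring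
  have hdeg1 : ∀ (c : ℂ) (S : Finset ℕ), (∀ a ∈ S, 2 ≤ a) → (∀ a ∈ S, a ∣ g) → S.card = κ + 1 →
      (C c * (X ^ (n - ∑ a ∈ S, g / a) * We g S)).natDegree ≤ 2 * n := by
    intro c S hS hd hc
    refine (natDegree_C_mul_le _ _).trans (natDegree_mul_le.trans ?_)
    rw [natDegree_X_pow]
    have h1 := We_deg S (hpos S hS hd)
    have h2 := hsum S hS hc
    omega
  have hdeg : D.natDegree ≤ 2 * n := by
    rw [hD]
    refine (natDegree_sub_le _ _).trans (max_le ((natDegree_sub_le _ _).trans (max_le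
      ((natDegree_add_le _ _).trans (max_le ?_ ?_)) ?_)) ?_)
    · exact hdeg1 _ A hA dA kA
    · exact hdeg1 _ B hB dB kB
    · exact hdeg1 _ A' hA' dA' kA'
    · exact hdeg1 _ B' hB' dB' kB'
  obtain ⟨S, hS⟩ : ∃ S : Polynomial ℂ, S = X ^ (2 * g) - 1 := ⟨_, rfl⟩
  have hSe : ∀ z : ℝ, S.eval (xe g z) = xe g z ^ g * (2 * Complex.I) *
      (Real.sin (Real.pi * z) : ℝ) := by
    intro z
    have h1 := exp_sin (Real.pi * z)
    have h2 := xe_pow hg Nat.one_pos (one_dvd g) z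
    rw [Nat.div_one, Nat.cast_one, div_one] at h2
    rw [hS, eval_sub, eval_pow, eval_X, eval_one, mul_comm 2 g, pow_mul, h2]
    push_cast at h1
    rw [h1]
    push_cast
    rfl
  obtain ⟨w, hw⟩ : ∃ w : ℂ, w = xe g (2 * μ) := ⟨_, rfl⟩
  have hw0 : w ≠ 0 := by
    rw [hw]
    exact xe_ne _ _
  have hadd : ∀ z : ℝ, xe g (z + 2 * μ) = w * xe g z := by
    intro z
    rw [hw, xe, xe, xe, ← Complex.exp_add]
    congr 1
    push_cast
    ring
  -- the polynomial identity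
  have hpoly : C (w ^ (g * κ)) * (D.comp (C w * X) * S ^ κ) =
      C (w ^ n) * (D * (S.comp (C w * X)) ^ κ) := by
    refine Polynomial.eq_of_infinite_eval_eq _ _ ?_
    have hgood : ∀ z : ℝ, Real.sin (Real.pi * z) ≠ 0 → Real.sin (Real.pi * (z + 2 * μ)) ≠ 0 →
        xe g z ∈ {x | eval x (C (w ^ (g * κ)) * (D.comp (C w * X) * S ^ κ)) =
          eval x (C (w ^ n) * (D * (S.comp (C w * X)) ^ κ))} := by
      intro z h1 h2
      simp only [Set.mem_setOf_eq, eval_mul, eval_C, eval_comp, eval_X, eval_pow]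
      rw [← hadd, hDe, hDe, hSe, hSe, hadd]
      have h3 := hper z h1 h2
      have h4 : ((F (z + 2 * μ) : ℝ) : ℂ) * ((Real.sin (Real.pi * z) : ℝ) : ℂ) ^ κ =
          ((F z : ℝ) : ℂ) * ((Real.sin (Real.pi * (z + 2 * μ)) : ℝ) : ℂ) ^ κ := by
        exact_mod_cast h3
      rw [mul_pow (xe g z ^ g * (2 * Complex.I)), mul_pow ((w * xe g z) ^ g * (2 * Complex.I))]
      have e1 : (w * xe g z) ^ g = w ^ g * xe g z ^ g := mul_pow _ _ _
      have e2 : w ^ (g * κ) = (w ^ g) ^ κ := pow_mul _ _ _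
      rw [e1, e2, mul_pow w (xe g z) n]
      have e3 : (w ^ g * xe g z ^ g * (2 * Complex.I)) ^ κ =
          (w ^ g) ^ κ * (xe g z ^ g * (2 * Complex.I)) ^ κ := by
        rw [← mul_pow]
        ring
      rw [e3]
      linear_combination (w ^ g) ^ κ * w ^ n * xe g z ^ n * (2 * Complex.I) ^ (κ + 1) *
        (xe g z ^ g * (2 * Complex.I)) ^ κ * h4
    -- infinitely many points
    have hinj : ∀ x ∈ Set.Ioo (0 : ℝ) 1, ∀ y ∈ Set.Ioo (0 : ℝ) 1, xe g x = xe g y → x = y := by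
      intro x hx y hy hxy
      unfold xe at hxy
      rw [Complex.exp_eq_exp_iff_exists_int] at hxy
      obtain ⟨m, hm⟩ := hxy
      have hg' : (g : ℂ) ≠ 0 := by exact_mod_cast hg.ne'
      have hpi : (Real.pi : ℂ) ≠ 0 := by exact_mod_cast Real.pi_ne_zero
      have h1 : (x : ℂ) = y + 2 * m * g := by
        have h2 : (Real.pi : ℂ) * x / g * Complex.I = (Real.pi * (y + 2 * m * g) / g) *
            Complex.I := by
          rw [hm]
          field_simp
        have h3 := mul_right_cancel₀ Complex.I_ne_zero h2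
        field_simp at h3
        linear_combination h3
      have h2 : x = y + 2 * m * g := by exact_mod_cast h1
      have hg1 : (1 : ℝ) ≤ g := by exact_mod_cast hg
      have hm0 : m = 0 := by
        have h3 : |2 * (m : ℝ) * g| < 1 := by
          rw [abs_lt]
          constructor <;> linarith [hx.1, hx.2, hy.1, hy.2]
        by_contra hne
        have h4 : (1 : ℝ) ≤ |(m : ℝ)| := by
          have := Int.one_le_abs hne
          exact_mod_cast this
        rw [abs_mul, abs_mul, abs_of_pos (by linarith : (0 : ℝ) < g)] at h3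
        norm_num at h3
        nlinarith
      rw [h2, hm0]
      simp
    have hfin : {z ∈ Set.Ioo (0 : ℝ) 1 | Real.sin (Real.pi * (z + 2 * μ)) = 0}.Finite := by
      refine Set.Subsingleton.finite ?_
      intro x hx y hy
      obtain ⟨a, ha⟩ := Real.sin_eq_zero_iff.1 hx.2
      obtain ⟨b, hb⟩ := Real.sin_eq_zero_iff.1 hy.2
      have hp := Real.pi_pos
      have ha' : (a : ℝ) = x + 2 * μ := by
        have : Real.pi * a = Real.pi * (x + 2 * μ) := by linarith
        exact mul_left_cancel₀ hp.ne' this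
      have hb' : (b : ℝ) = y + 2 * μ := by
        have : Real.pi * b = Real.pi * (y + 2 * μ) := by linarith
        exact mul_left_cancel₀ hp.ne' this
      have h1 : |(a : ℝ) - b| < 1 := by
        rw [ha', hb', abs_lt]
        constructor <;> linarith [hx.1.1, hx.1.2, hy.1.1, hy.1.2]
      have h2 : |a - b| < 1 := by exact_mod_cast h1
      have h3 : a = b := by
        have := Int.abs_lt_one_iff.1 h2
        omega
      rw [h3] at ha'
      linarith
    have hinf : (Set.Ioo (0 : ℝ) 1 \ {z ∈ Set.Ioo (0 : ℝ) 1 |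
        Real.sin (Real.pi * (z + 2 * μ)) = 0}).Infinite :=
      (Set.Ioo_infinite (by norm_num)).diff hfin
    have himg : (xe g '' (Set.Ioo (0 : ℝ) 1 \ {z ∈ Set.Ioo (0 : ℝ) 1 |
        Real.sin (Real.pi * (z + 2 * μ)) = 0})).Infinite := by
      refine hinf.image fun x hx y hy hxy => ?_
      exact hinj x hx.1 y hy.1 hxy
    refine himg.mono ?_
    rintro - ⟨z, hz, rfl⟩
    refine hgood z ?_ fun h0 => hz.2 ⟨hz.1, h0⟩
    refine (Real.sin_pos_of_pos_of_lt_pi ?_ ?_).ne'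
    · exact mul_pos Real.pi_pos hz.1.1
    · have := Real.pi_pos
      nlinarith [hz.1.2]
  -- the two sine polynomials are coprime
  have hw2 : w ^ (2 * g) ≠ 1 := by
    intro h0
    have hkk : (k : ℝ) ≠ 0 := by exact_mod_cast (by omega : k ≠ 0)
    have h1 : w ^ (2 * g) = Complex.exp (2 * Real.pi * Complex.I * ((2 * g : ℕ) / k)) := by
      rw [hw, xe, ← Complex.exp_nat_mul]
      congr 1
      have h2 : μ = g / k := by
        rw [eq_div_iff hkk, hμ]
      have hg' : (g : ℂ) ≠ 0 := by exact_mod_cast hg.ne'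
      have hk' : (k : ℂ) ≠ 0 := by exact_mod_cast (by omega : k ≠ 0)
      rw [h2]
      push_cast
      field_simp
    rw [h1, Complex.exp_eq_one_iff] at h0
    obtain ⟨m, hm⟩ := h0
    have hk' : (k : ℂ) ≠ 0 := by exact_mod_cast (by omega : k ≠ 0)
    have h2 : ((2 * g : ℕ) : ℂ) / k = m := by
      have h3 : (2 * Real.pi * Complex.I) * (((2 * g : ℕ) : ℂ) / k) =
          (2 * Real.pi * Complex.I) * m := by
        rw [hm]
        ring
      exact mul_left_cancel₀ Complex.two_pi_I_ne_zero h3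
    rw [div_eq_iff hk'] at h2
    have h3 : ((2 * g : ℕ) : ℤ) = m * k := by exact_mod_cast h2
    have h4 : (k : ℤ) ∣ ((2 * g : ℕ) : ℤ) := ⟨m, by rw [h3]; ring⟩
    have h5 : k ∣ 2 * g := by exact_mod_cast h4
    have h6 : k ∣ 2 := Nat.Coprime.dvd_of_dvd_mul_right hkg h5
    have := Nat.le_of_dvd (by norm_num) h6
    omega
  have hcop : IsCoprime S (S.comp (C w * X)) := by
    refine ⟨-C (w ^ (2 * g) / (w ^ (2 * g) - 1)), C (1 / (w ^ (2 * g) - 1)), ?_⟩
    have hne : w ^ (2 * g) - 1 ≠ 0 := sub_ne_zero.2 hw2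
    have e1 : S.comp (C w * X) = C (w ^ (2 * g)) * X ^ (2 * g) - 1 := by
      rw [hS]
      simp only [sub_comp, pow_comp, X_comp, one_comp, mul_pow]
      rw [C_pow]
    rw [e1, hS]
    have e2 : C (w ^ (2 * g) / (w ^ (2 * g) - 1)) = C (w ^ (2 * g)) *
        C (1 / (w ^ (2 * g) - 1)) := by
      rw [← C_mul]
      congr 1
      ring
    have e3 : C (1 / (w ^ (2 * g) - 1)) * (1 - C (w ^ (2 * g))) = -1 := by
      rw [← C_1, ← C_sub, ← C_mul, ← C_neg]
      congr 1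
      field_simp
      ring
    rw [e2]
    linear_combination -e3
  have hdvd : S ^ κ ∣ D := by
    have h1 : S ^ κ ∣ D * (S.comp (C w * X)) ^ κ := by
      have h2 : C (w ^ n) * (D * (S.comp (C w * X)) ^ κ) =
          S ^ κ * (C (w ^ (g * κ)) * D.comp (C w * X)) := by
        rw [← hpoly]
        ring
      have h3 : D * (S.comp (C w * X)) ^ κ =
          S ^ κ * (C (w ^ n)⁻¹ * (C (w ^ (g * κ)) * D.comp (C w * X))) := by
        have h4 : C (w ^ n)⁻¹ * C (w ^ n) = (1 : Polynomial ℂ) := by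
          rw [← C_mul, inv_mul_cancel₀ (pow_ne_zero _ hw0), C_1]
        calc D * (S.comp (C w * X)) ^ κ =
            C (w ^ n)⁻¹ * C (w ^ n) * (D * (S.comp (C w * X)) ^ κ) := by rw [h4, one_mul]
          _ = _ := by
            rw [mul_assoc, h2]
            ring
      exact ⟨_, h3⟩
    exact (hcop.pow).dvd_of_dvd_mul_right h1
  have hD0 : D = 0 := by
    by_contra hne
    have h1 := natDegree_le_of_dvd hdvd hne
    have h2 : (S ^ κ).natDegree = κ * (2 * g) := by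
      rw [natDegree_pow, hS]
      congr 1
      have h3 : (X ^ (2 * g) - 1 : Polynomial ℂ) = X ^ (2 * g) - C 1 := by rw [C_1]
      rw [h3, natDegree_X_pow_sub_C]
    rw [h2] at h1
    have h4 : κ * (2 * g) = 2 * (g * κ) := by ring
    omega
  have hF0 : F z = 0 := by
    have h1 := hDe z
    rw [hD0, eval_zero] at h1
    have h2 : xe g z ^ n * (2 * Complex.I) ^ (κ + 1) ≠ 0 :=
      mul_ne_zero (pow_ne_zero _ (xe_ne _ _)) (pow_ne_zero _ (mul_ne_zero two_ne_zero
        Complex.I_ne_zero))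
    have h3 := (mul_eq_zero.1 h1.symm).resolve_left h2
    exact_mod_cast h3
  rw [hF] at hF0
  linarith

end Pool.Agent.Zk79.LN
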