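import Mathlib

set_option autoImplicit false
set_option maxHeartbeats 400000

/-! Products of sines. -/

namespace Pool.Agent.Zk79.LN

open Finset Filter Topology

/-- `∏ sin (π z / b)` -/
noncomputable def sp (B : Finset ℕ) (z : ℝ) : ℝ := ∏ b ∈ B, Real.sin (Real.pi * z / b)

theorem analyticAt_sinc (x : ℝ) : AnalyticAt ℝ Real.sinc x := by
  rcases eq_or_ne x 0 with h | h
  · rw [h, Real.sinc_eq_dslope]
    obtain ⟨p, hp⟩ := (Real.analyticAt_sin (x := 0))
    exact ⟨_, hp.has_fpower_series_dslope_fslope⟩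
  · have h1 : AnalyticAt ℝ (fun y : ℝ => Real.sin y / y) x :=
      Real.analyticAt_sin.div analyticAt_id h
    refine h1.congr ?_
    filter_upwards [isOpen_ne.mem_nhds h] with y hy
    exact (Real.sinc_of_ne_zero hy).symm

theorem analyticAt_sp (B : Finset ℕ) (x : ℝ) : AnalyticAt ℝ (sp B) x := by
  unfold sp
  refine Finset.analyticAt_fun_prod _ fun b _ => ?_
  exact Real.analyticAt_sin.comp' ((analyticAt_const.mul analyticAt_id).div_const)

theorem sin_eq_sinc (x : ℝ) : Real.sin x = x * Real.sinc x := by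
  rcases eq_or_ne x 0 with h | h
  · rw [h]
    simp
  · rw [Real.sinc_of_ne_zero h]
    field_simp

/-- the quotient by the power of `z` -/
noncomputable def sg (B : Finset ℕ) (z : ℝ) : ℝ :=
  ∏ b ∈ B, (Real.pi / b * Real.sinc (Real.pi * z / b))

theorem analyticAt_sg (B : Finset ℕ) (x : ℝ) : AnalyticAt ℝ (sg B) x := by
  unfold sg
  refine Finset.analyticAt_fun_prod _ fun b _ => ?_
  exact analyticAt_const.mul ((analyticAt_sinc _).comp' ((analyticAt_const.mul analyticAt_id).div_const))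

theorem sp_eq (B : Finset ℕ) (z : ℝ) : sp B z = z ^ B.card * sg B z := by
  unfold sp sg
  rw [← prod_const, ← prod_mul_distrib]
  refine prod_congr rfl fun b _ => ?_
  rw [sin_eq_sinc]
  ring

theorem sp_neg (B : Finset ℕ) (z : ℝ) : sp B (-z) = (-1) ^ B.card * sp B z := by
  unfold sp
  rw [← prod_const, ← prod_mul_distrib]
  refine prod_congr rfl fun b _ => ?_
  rw [mul_neg, neg_div, Real.sin_neg]
  ring

variable {B : Finset ℕ}

theorem sp_one (B : Finset ℕ) : sp B 1 = ∏ b ∈ B, Real.sin (Real.pi / b) := by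
  unfold sp
  simp only [mul_one]

theorem sp_one_pos (hB : ∀ b ∈ B, 2 ≤ b) : 0 < sp B 1 := by
  rw [sp_one]
  refine prod_pos fun b hb => ?_
  have h2 : (2 : ℝ) ≤ b := by exact_mod_cast hB b hb
  have hp := Real.pi_pos
  refine Real.sin_pos_of_pos_of_lt_pi (by positivity) ?_
  rw [div_lt_iff₀ (by linarith)]
  nlinarith

/-- `∏ 2 cos (π / b)` -/
noncomputable def cp (B : Finset ℕ) : ℝ := ∏ b ∈ B, (2 * Real.cos (Real.pi / b))

theorem sp_two (B : Finset ℕ) : sp B 2 = sp B 1 * cp B := by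
  rw [sp_one, sp, cp, ← prod_mul_distrib]
  refine prod_congr rfl fun b _ => ?_
  rw [show Real.pi * 2 / b = 2 * (Real.pi / b) by ring, Real.sin_two_mul]
  ring

theorem cos_nonneg' {b : ℕ} (hb : 2 ≤ b) : 0 ≤ 2 * Real.cos (Real.pi / b) := by
  have h2 : (2 : ℝ) ≤ b := by exact_mod_cast hb
  have hp := Real.pi_pos
  have h3 : Real.pi / b ≤ Real.pi / 2 := div_le_div_of_nonneg_left hp.le (by norm_num) h2
  have h4 : 0 ≤ Real.pi / b := by positivity
  have := Real.cos_nonneg_of_neg_pi_div_two_le_of_le (by linarith) h3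
  linarith

theorem cos_mono {a b : ℕ} (ha : 2 ≤ a) (hab : a ≤ b) :
    Real.cos (Real.pi / a) ≤ Real.cos (Real.pi / b) := by
  have h2 : (2 : ℝ) ≤ a := by exact_mod_cast ha
  have h3 : (a : ℝ) ≤ b := by exact_mod_cast hab
  have hp := Real.pi_pos
  refine Real.cos_le_cos_of_nonneg_of_le_pi (by positivity) ?_ ?_
  · rw [div_le_iff₀ (by linarith)]
    nlinarith
  · exact div_le_div_of_nonneg_left hp.le (by linarith) h3

theorem one_le_cos {b : ℕ} (hb : 3 ≤ b) : 1 ≤ 2 * Real.cos (Real.pi / b) := by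
  have h := cos_mono (a := 3) (by norm_num) hb
  rw [show ((3 : ℕ) : ℝ) = 3 by norm_num, Real.cos_pi_div_three] at h
  linarith

theorem sqrt_le_cos {b : ℕ} (hb : 4 ≤ b) : √2 ≤ 2 * Real.cos (Real.pi / b) := by
  have h := cos_mono (a := 4) (by norm_num) hb
  rw [show ((4 : ℕ) : ℝ) = 4 by norm_num, Real.cos_pi_div_four] at h
  linarith

theorem five_le_cos {b : ℕ} (hb : 5 ≤ b) : 1618 / 1000 ≤ 2 * Real.cos (Real.pi / b) := by
  have h := cos_mono (a := 5) (by norm_num) hb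
  rw [show ((5 : ℕ) : ℝ) = 5 by norm_num, Real.cos_pi_div_five] at h
  have h5 : (2.236 : ℝ) ≤ √5 := by
    apply Real.le_sqrt_of_sq_le
    norm_num
  linarith

theorem one_lt_sqrt : (1.414 : ℝ) ≤ √2 := by
  apply Real.le_sqrt_of_sq_le
  norm_num

theorem cp_nonneg (hB : ∀ b ∈ B, 2 ≤ b) : 0 ≤ cp B := prod_nonneg fun b hb => cos_nonneg' (hB b hb)

theorem cp_zero (h2 : 2 ∈ B) : cp B = 0 := by
  refine prod_eq_zero h2 ?_
  rw [show ((2 : ℕ) : ℝ) = 2 by norm_num, Real.cos_pi_div_two, mul_zero]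

/-- the product is `0` or at least `√2` -/
theorem cp_large (hB : ∀ b ∈ B, 2 ≤ b) (hc : 2 ≤ B.card) (h2 : 2 ∉ B) : √2 ≤ cp B := by
  have h3 : ∀ b ∈ B, 3 ≤ b := by
    intro b hb
    have := hB b hb
    have : b ≠ 2 := fun h => h2 (h ▸ hb)
    omega
  obtain ⟨b, hb, hb4⟩ : ∃ b ∈ B, 4 ≤ b := by
    by_contra hcon
    push Not at hcon
    have : B ⊆ {3} := fun b hb => by
      rw [mem_singleton]
      have := h3 b hb
      have := hcon b hb
      omega
    have := card_le_card this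
    rw [card_singleton] at this
    omega
  unfold cp
  rw [← mul_prod_erase _ _ hb]
  have h4 : 1 ≤ ∏ x ∈ B.erase b, (2 * Real.cos (Real.pi / x)) := by
    refine one_le_prod' fun x hx => ?_
    exact one_le_cos (h3 x (mem_of_mem_erase hx))
  have h5 := sqrt_le_cos hb4
  have h6 : (0 : ℝ) ≤ √2 := Real.sqrt_nonneg 2
  nlinarith
where
  one_le_prod' {s : Finset ℕ} {f : ℕ → ℝ} (h : ∀ x ∈ s, 1 ≤ f x) : 1 ≤ ∏ x ∈ s, f x := by
    have := prod_le_prod (s := s) (f := fun _ => (1 : ℝ)) (g := f) (fun _ _ => zero_le_one) h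
    simpa using this

theorem cp_ne_one (hB : ∀ b ∈ B, 2 ≤ b) (hc : 2 ≤ B.card) : cp B ≠ 1 := by
  by_cases h2 : 2 ∈ B
  · rw [cp_zero h2]
    norm_num
  · have := cp_large hB hc h2
    have := one_lt_sqrt
    intro h
    linarith

theorem cp_ne_two (hB : ∀ b ∈ B, 2 ≤ b) (hc : B.card = 2) (h2 : 2 ∉ B) : cp B ≠ 2 := by
  obtain ⟨x, y, hxy, rfl⟩ := card_eq_two.1 hc
  have e1 : cp {x, y} = 2 * Real.cos (Real.pi / x) * (2 * Real.cos (Real.pi / y)) := by
    unfold cp
    rw [prod_pair hxy]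
  have hx : 3 ≤ x := by
    have := hB x (by simp)
    have : x ≠ 2 := fun h => h2 (by simp [h])
    omega
  have hy : 3 ≤ y := by
    have := hB y (by simp)
    have : y ≠ 2 := fun h => h2 (by simp [h])
    omega
  have hlt : ∀ z : ℕ, 3 ≤ z → Real.cos (Real.pi / z) < 1 := by
    intro z hz
    have h2 : (3 : ℝ) ≤ z := by exact_mod_cast hz
    have hp := Real.pi_pos
    have h3 : 0 < Real.pi / z := by positivity
    have h4 : Real.pi / z ≤ Real.pi := by
      rw [div_le_iff₀ (by linarith)]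
      nlinarith
    have := Real.cos_lt_cos_of_nonneg_of_le_pi le_rfl h4 h3
    rwa [Real.cos_zero] at this
  have key : ∀ x y : ℕ, 3 ≤ x → x < y → 2 * Real.cos (Real.pi / x) *
      (2 * Real.cos (Real.pi / y)) ≠ 2 := by
    intro x y hx hxy h
    rcases Nat.lt_or_ge x 4 with h3 | h3
    · obtain rfl : x = 3 := by omega
      rw [show ((3 : ℕ) : ℝ) = 3 by norm_num, Real.cos_pi_div_three] at h
      have := hlt y (by omega)
      linarith
    · have h4 := sqrt_le_cos h3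
      have h5 := five_le_cos (by omega : 5 ≤ y)
      have h6 := one_lt_sqrt
      nlinarith
  rw [e1]
  rcases lt_trichotomy x y with h | h | h
  · exact key x y hx h
  · exact absurd h hxy
  · rw [mul_comm]
    exact key y x hy h

theorem cp_add_ne {A : Finset ℕ} (hB : ∀ b ∈ B, 2 ≤ b) (hA : ∀ a ∈ A, 2 ≤ a) (hcB : B.card = 2)
    (hcA : A.card = 2) : cp B + cp A ≠ 2 := by
  have h1 := one_lt_sqrt
  by_cases h2 : 2 ∈ B
  · rw [cp_zero h2, zero_add]
    by_cases h3 : 2 ∈ A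
    · rw [cp_zero h3]
      norm_num
    · exact cp_ne_two hA hcA h3
  · by_cases h3 : 2 ∈ A
    · rw [cp_zero h3, add_zero]
      exact cp_ne_two hB hcB h2
    · have h4 := cp_large hB (by omega) h2
      have h5 := cp_large hA (by omega) h3
      intro h
      linarith

theorem sp_nat_zero_iff (hB : ∀ b ∈ B, 2 ≤ b) (m : ℕ) : sp B m = 0 ↔ ∃ b ∈ B, b ∣ m := by
  unfold sp
  rw [prod_eq_zero_iff]
  refine exists_congr fun b => and_congr_right fun hb => ?_
  have h2 : (2 : ℝ) ≤ b := by exact_mod_cast hB b hb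
  have hp := Real.pi_pos
  rw [Real.sin_eq_zero_iff]
  constructor
  · rintro ⟨k, hk⟩
    have h3 : (k : ℝ) * b = m := by
      rw [eq_div_iff (by linarith)] at hk
      have : Real.pi * (k * b) = Real.pi * m := by linarith
      exact mul_left_cancel₀ hp.ne' this
    have h4 : k * (b : ℤ) = m := by exact_mod_cast h3
    have h5 : (b : ℤ) ∣ m := ⟨k, by rw [← h4, mul_comm]⟩
    exact_mod_cast h5
  · rintro ⟨k, hk⟩
    refine ⟨k, ?_⟩
    rw [hk]
    push_cast
    field_simp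

/-- the values at the integers determine the set -/
theorem set_eq {B' : Finset ℕ} (hB : ∀ b ∈ B, 2 ≤ b) (hB' : ∀ b ∈ B', 2 ≤ b)
    (hc : ∀ a ∈ B, ∀ b ∈ B, a ≠ b → a.Coprime b) (hc' : ∀ a ∈ B', ∀ b ∈ B', a ≠ b → a.Coprime b)
    (h : ∀ m : ℕ, sp B m = 0 ↔ sp B' m = 0) : B = B' := by
  have key : ∀ B B' : Finset ℕ, (∀ b ∈ B, 2 ≤ b) → (∀ b ∈ B', 2 ≤ b) →
      (∀ a ∈ B, ∀ b ∈ B, a ≠ b → a.Coprime b) →
      (∀ m : ℕ, sp B m = 0 ↔ sp B' m = 0) → B ⊆ B' := by
    intro B B' hB hB' hc h c hcB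
    obtain ⟨a, ha, hac⟩ := (sp_nat_zero_iff hB' c).1 ((h c).1 ((sp_nat_zero_iff hB c).2
      ⟨c, hcB, dvd_rfl⟩))
    obtain ⟨c', hc', hca⟩ := (sp_nat_zero_iff hB a).1 ((h a).2 ((sp_nat_zero_iff hB' a).2
      ⟨a, ha, dvd_rfl⟩))
    have h1 : c' ∣ c := hca.trans hac
    have h2 : c' = c := by
      by_contra hne
      have h3 := hc c' hc' c hcB hne
      have h4 := Nat.gcd_eq_left h1
      rw [Nat.Coprime, h4] at h3
      have := hB c' hc'
      omega
    rw [h2] at hca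
    have h3 : a = c := Nat.dvd_antisymm hac hca
    rw [← h3]
    exact ha
  exact Subset.antisymm (key B B' hB hB' hc h) (key B' B hB' hB hc' fun m => (h m).symm)

end Pool.Agent.Zk79.LN
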