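import Pool.Agent.Zk79.LN.Val
import Pool.Agent.Zk79.LN.Fun2
import Pool.Agent.Zk79.LN.Cmp2
import Pool.Agent.Zk79.LN.Tf
import Pool.Agent.Zk52.LN.Ex

set_option autoImplicit false
set_option maxHeartbeats 400000

/-! Comparison of two diagrams with two nodes. -/

namespace Pool.Agent.Zk79.LN

open Finset Pool.Agent.Zk79.LM Pool.Agent.Zk79.LM.Diagram PowerSeries Filter Topology Asymptotics
open Pool.Agent.Zk52.LN (expansion)

variable {D D' : Diagram}

/-- the normalised coefficients -/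
noncomputable def GG (D : Diagram) (v w : ℕ) (n : ℕ) : ℝ :=
  ∑ j ∈ range (n + 1), sq D v (n - j) * sq D w j * mm (muv D v w) (nuv D v w) n j

theorem coeff_GG (h : D.IsSplice) (hn : D.n = 1) {v w : Fin (D.n + 1)} (hvw : v ≠ w) (k : ℕ) :
    |coeff k D.gaussSeries| * Real.pi ^ (2 * k) = ((D.P v : ℝ) / 2) ^ k * mom k * GG D v w k := by
  rw [coeff_two h hn hvw, GG, mul_assoc, sum_mul]
  congr 1
  refine sum_congr rfl fun j hj => ?_
  have hj' := mem_range.1 hj
  have e1 : Real.pi ^ (2 * k) = Real.pi ^ (2 * (k - j)) * Real.pi ^ (2 * j) := by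
    rw [← pow_add]
    congr 1
    omega
  rw [e1, sq, sq]
  ring

theorem GG_eq (h : D.IsSplice) (h' : D'.IsSplice) (hn : D.n = 1) (hn' : D'.n = 1)
    (hG : ∀ k, |coeff k D.gaussSeries| = |coeff k D'.gaussSeries|) {v w v' w' : ℕ} (hv : v ≤ 1)
    (hw : w ≤ 1) (hvw : v ≠ w) (hv' : v' ≤ 1) (hw' : w' ≤ 1) (hvw' : v' ≠ w')
    (hP : D.P v = D'.P v') (k : ℕ) : GG D v w k = GG D' v' w' k := by
  have h1 := coeff_GG h hn (v := ⟨v, by omega⟩) (w := ⟨w, by omega⟩)
    (fun h => hvw (by simpa using congrArg Fin.val h)) k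
  have h2 := coeff_GG h' hn' (v := ⟨v', by omega⟩) (w := ⟨w', by omega⟩)
    (fun h => hvw' (by simpa using congrArg Fin.val h)) k
  simp only at h1 h2
  rw [← hG k, h1, ← hP] at h2
  have hP1 : (1 : ℝ) ≤ D.P v := by exact_mod_cast P_pos h (by omega : v ≤ D.n)
  have h3 : ((D.P v : ℝ) / 2) ^ k * mom k ≠ 0 := by
    have := mom_pos k
    positivity
  exact mul_left_cancel₀ h3 h2

theorem sq_zero (v : ℕ) : sq D v 0 = 1 := by
  rw [sq, yy_zero]
  simp

theorem summable_sq (D : Diagram) (h : D.IsSplice) {v : ℕ} (hv : v ≤ D.n) (ρ : ℝ) (h0 : 0 ≤ ρ)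
    (h1 : ρ < 1) : Summable fun j => sq D v j * ρ ^ j := by
  have hp : 0 < Real.pi ^ 2 := by have := Real.pi_pos; positivity
  have h2 : Wr (Real.pi ^ 2 * ρ) (yy D v) := Wr_yy D v (by positivity) (by nlinarith)
  refine h2.congr fun j => ?_
  rw [abs_of_nonneg (NN_yy' h hv j), sq, mul_pow, ← pow_mul]
  ring

/-- the triangular system -/
theorem sq_eq (h : D.IsSplice) (h' : D'.IsSplice) {v w v' w' : ℕ}
    (hG : ∀ k, GG D v w k = GG D' v' w' k) (hw : ∀ j, sq D w j = sq D' w' j)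
    (hμ : muv D v w = muv D' v' w') (hν : nuv D v w = nuv D' v' w') (k : ℕ) :
    sq D v k = sq D' v' k := by
  induction k using Nat.strong_induction_on with
  | _ k ih =>
    have h1 := hG k
    unfold GG at h1
    rw [sum_range_succ', sum_range_succ', ← hμ, ← hν] at h1
    have h2 : ∑ j ∈ range k, sq D v (k - (j + 1)) * sq D w (j + 1) *
        mm (muv D v w) (nuv D v w) k (j + 1) = ∑ j ∈ range k, sq D' v' (k - (j + 1)) *
        sq D' w' (j + 1) * mm (muv D v w) (nuv D v w) k (j + 1) := by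
      refine sum_congr rfl fun j hj => ?_
      have := mem_range.1 hj
      rw [ih (k - (j + 1)) (by omega), hw]
    rw [h2] at h1
    have h3 := add_left_cancel h1
    rwa [mm_zero, sq_zero, sq_zero, mul_one, mul_one, Nat.sub_zero, mul_one, mul_one] at h3

theorem leaves_of_sq (h : D.IsSplice) (h' : D'.IsSplice) {v v' : ℕ} (hv : v ≤ D.n)
    (hv' : v' ≤ D'.n) (hs : ∀ k, sq D v k = sq D' v' k) : D.leaves v = D'.leaves v' := by
  have h1 : D.node v = D'.node v' := by
    ext k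
    have h2 := hs k
    rw [sq, sq, coeff_yy, coeff_yy] at h2
    have hp : Real.pi ^ (2 * k) ≠ 0 := pow_ne_zero _ Real.pi_ne_zero
    have h3 := mul_right_cancel₀ hp h2
    exact mul_left_cancel₀ (pow_ne_zero k (by norm_num : (-1 : ℝ) ≠ 0)) h3
  unfold Diagram.node at h1
  exact leaves_eq (h.two_le v hv) (h'.two_le v' hv') (fun a ha b hb => leaves_coprime h hv ha hb)
    (fun a ha b hb => leaves_coprime h' hv' ha hb) h1

theorem GG_split (v w n : ℕ) : GG D v w n =
    ∑ j ∈ range (n / 2 + 1), sq D v (n - j) * sq D w j * mm (muv D v w) (nuv D v w) n j +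
    ∑ j ∈ Ico (n / 2 + 1) (n + 1), sq D v (n - j) * sq D w j * mm (muv D v w) (nuv D v w) n j := by
  rw [GG, sum_range_add_sum_Ico _ (by omega)]

theorem sq_bdd (h : D.IsSplice) (hn : D.n = 1) {v : ℕ} (hv : v ≤ 1) (hc : (D.leaves v).card = 2) :
    ∃ C : ℝ, 0 ≤ C ∧ ∀ i, sq D v i ≤ C := by
  obtain ⟨A, hA, hr⟩ := sq_lim h hn hv hc
  refine ⟨|rr D v| + A, by positivity, fun i => ?_⟩
  have h1 := (abs_le.1 (hr i)).2
  have h2 : A * (1 / 2 : ℝ) ^ i ≤ A := mul_le_of_le_one_right hA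
    (pow_le_one₀ (by norm_num) (by norm_num))
  have := le_abs_self (rr D v)
  linarith

/-- the expansion of the first half -/
theorem half (h : D.IsSplice) (hn : D.n = 1) {v w : ℕ} (hv : v ≤ 1) (hw : w ≤ 1) (hvw : v ≠ w)
    (hP : D.P w ≤ D.P v) (hc : (D.leaves v).card = 2) (J : ℕ → ℕ) (hJ : ∀ n, n ≤ 3 * J n + 3)
    (hJ' : ∀ n, 2 * J n ≤ n) (K : ℕ) :
    (fun n : ℕ => (∑ j ∈ range (J n + 1), sq D v (n - j) * sq D w j *
      mm (muv D v w) (nuv D v w) n j) - ∑ k ∈ range K,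
        TT (rr D v) (sq D w) (muv D v w) (nuv D v w) k * be k n) =O[atTop]
      fun n : ℕ => ((n : ℝ) ^ K)⁻¹ := by
  obtain ⟨A, hA, hr⟩ := sq_lim h hn hv hc
  have hP1 : (1 : ℝ) ≤ D.P v := by exact_mod_cast P_pos h (by omega : v ≤ D.n)
  have h1 := sq_add_sq h hn hv hw hvw
  have h2 : (D.P w : ℝ) / D.P v ≤ 1 := by
    rw [div_le_one (by linarith)]
    exact_mod_cast hP
  have h3 := nuv_pos h hn hv hw hvw
  have h4 : 0 < nuv D v w ^ 2 := by positivity
  exact expansion hA (by norm_num) (by norm_num) (sq_nonneg' h (by omega))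
    (sq_nonneg' h (by omega)) hr (summable_sq D h (by omega)) (muv_pos h hn hv hw hvw) h3
    (by linarith) J hJ hJ' K

/-- the expansion if `P w < P v` -/
theorem expand_lt (h : D.IsSplice) (hn : D.n = 1) {v w : ℕ} (hv : v ≤ 1) (hw : w ≤ 1)
    (hvw : v ≠ w) (hP : D.P w < D.P v) (hc : (D.leaves v).card = 2) (K : ℕ) :
    (fun n : ℕ => GG D v w n - ∑ k ∈ range K,
        TT (rr D v) (sq D w) (muv D v w) (nuv D v w) k * be k n) =O[atTop]
      fun n : ℕ => ((n : ℝ) ^ K)⁻¹ := by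
  obtain ⟨C, hC, hb⟩ := sq_bdd h hn hv hc
  have hP1 : (1 : ℝ) ≤ D.P v := by exact_mod_cast P_pos h (by omega : v ≤ D.n)
  have h1 := sq_add_sq h hn hv hw hvw
  have h2 : (D.P w : ℝ) / D.P v < 1 := by
    rw [div_lt_one (by linarith)]
    exact_mod_cast hP
  have h3 := half h hn hv hw hvw hP.le hc (fun n => n / 2) (fun n => by omega)
    (fun n => by omega) K
  have h4 := tail_small (s := sq D v) (g := sq D w) hC (sq_nonneg' h (by omega)) hb
    (sq_nonneg' h (by omega)) (summable_sq D h (by omega)) (by rw [h1]; exact h2) K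
  refine (h3.add h4).congr_left fun n => ?_
  rw [GG_split]
  ring

/-- the two descriptions of the moments -/
theorem mm_swap (h : D.IsSplice) (hn : D.n = 1) {v w : ℕ} (hv : v ≤ 1) (hw : w ≤ 1)
    (hvw : v ≠ w) (hP : D.P w = D.P v) (i j : ℕ) :
    mm (muv D v w) (nuv D v w) (i + j) j = mm (muv D w v) (nuv D w v) (i + j) i := by
  have h1 := int_joint h hn (v := ⟨v, by omega⟩) (w := ⟨w, by omega⟩)
    (fun h => hvw (by simpa using congrArg Fin.val h)) i j
  have h2 := int_joint h hn (v := ⟨w, by omega⟩) (w := ⟨v, by omega⟩)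
    (fun h => hvw (by simpa using (congrArg Fin.val h).symm)) j i
  simp only at h1 h2
  have h3 : (fun x : Pool.Agent.Zk79.LM.Sp D.n => nsq x ⟨v, by omega⟩ ^ i * nsq x ⟨w, by omega⟩ ^ j) =
      fun x => nsq x ⟨w, by omega⟩ ^ j * nsq x ⟨v, by omega⟩ ^ i := by
    funext x
    ring
  rw [h3, h2, add_comm j i, hP] at h1
  have hP1 : (1 : ℝ) ≤ D.P v := by exact_mod_cast P_pos h (by omega : v ≤ D.n)
  have h4 : ((D.P v : ℝ) / 2) ^ (i + j) * mom (i + j) ≠ 0 := by
    have := mom_pos (i + j)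
    positivity
  exact (mul_left_cancel₀ h4 h1).symm

/-- the expansion if `P w = P v` -/
theorem expand_eq (h : D.IsSplice) (hn : D.n = 1) {v w : ℕ} (hv : v ≤ 1) (hw : w ≤ 1)
    (hvw : v ≠ w) (hP : D.P w = D.P v) (hc : (D.leaves v).card = 2) (hc' : (D.leaves w).card = 2)
    (K : ℕ) :
    (fun n : ℕ => GG D v w n - ∑ k ∈ range K,
        (TT (rr D v) (sq D w) (muv D v w) (nuv D v w) k +
          TT (rr D w) (sq D v) (muv D w v) (nuv D w v) k) * be k n) =O[atTop]
      fun n : ℕ => ((n : ℝ) ^ K)⁻¹ := by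
  have h3 := half h hn hv hw hvw hP.le hc (fun n => n / 2) (fun n => by omega)
    (fun n => by omega) K
  have h4 := half h hn hw hv (Ne.symm hvw) hP.ge hc' (fun n => (n - 1) / 2) (fun n => by omega)
    (fun n => by omega) K
  refine (h3.add h4).congr' ?_ EventuallyEq.rfl
  filter_upwards [eventually_ge_atTop 1] with n hn1
  rw [GG_split]
  have h5 : ∑ j ∈ Ico (n / 2 + 1) (n + 1), sq D v (n - j) * sq D w j *
      mm (muv D v w) (nuv D v w) n j = ∑ i ∈ range ((n - 1) / 2 + 1), sq D w (n - i) * sq D v i *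
      mm (muv D w v) (nuv D w v) n i := by
    refine sum_nbij' (fun j => n - j) (fun i => n - i) ?_ ?_ ?_ ?_ ?_
    · intro j hj
      rw [mem_Ico] at hj
      rw [mem_range]
      omega
    · intro i hi
      rw [mem_range] at hi
      rw [mem_Ico]
      omega
    · intro j hj
      rw [mem_Ico] at hj
      omega
    · intro i hi
      rw [mem_range] at hi
      omega
    · intro j hj
      rw [mem_Ico] at hj
      have h6 := mm_swap h hn hv hw hvw hP (n - j) j
      rw [(by omega : n - j + j = n)] at h6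
      rw [h6, (by omega : n - (n - j) = j)]
      ring
  rw [h5]
  simp_rw [add_mul]
  rw [sum_add_distrib]
  ring

end Pool.Agent.Zk79.LN
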