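import Pool.Agent.Zk79.LN.Two

set_option autoImplicit false
set_option maxHeartbeats 400000

/-! The series of a node as a function. -/

namespace Pool.Agent.Zk79.LN

open Finset Pool.Agent.Zk79.LM Pool.Agent.Zk79.LM.Diagram PowerSeries Filter Topology

variable {D : Diagram}

theorem ev_node' (D : Diagram) (v : ℕ) {z : ℂ} (hz : ‖z‖ < Real.pi ^ 2) :
    ev (D.node v) z = psi D v z := by
  have h1 : Wr ‖z‖ (D.node v) := Wr_node_of_lt D v (norm_nonneg _) hz
  have h2 : ev (D.node v * sinhc ^ (D.valence v - 2)) z =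
      ev (∏ a ∈ D.leaves v, PowerSeries.rescale (1 / (a : ℝ) ^ 2) sinhc) z := by
    rw [node_mul_pow]
  rw [ev_mul h1 ((Wr_sinhc _).pow (norm_nonneg _) _) le_rfl,
    ev_pow (norm_nonneg _) (Wr_sinhc _) le_rfl,
    ev_prod (norm_nonneg _) _ _ (fun a _ => Wr_rescale (by positivity) (Wr_sinhc _)) le_rfl] at h2
  have h3 : ev sinhc z ≠ 0 := Sf_ne_of_norm hz
  have h4 : ev sinhc z ^ (D.valence v - 2) ≠ 0 := pow_ne_zero _ h3
  rw [← eq_div_iff h4] at h2
  rw [h2, psi, div_eq_mul_inv, ← inv_pow]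
  congr 1
  refine prod_congr rfl fun a _ => ?_
  rw [ev_rescale]
  rfl

theorem ev_yy (D : Diagram) (v : ℕ) {z : ℂ} (hz : ‖z‖ < Real.pi ^ 2) :
    ev (yy D v) z = psi D v (-z) := by
  have h1 : ev (yy D v) z = ev (D.node v) (-z) := by
    rw [yy, ev_rescale]
    congr 1
    push_cast
    ring
  rw [h1, ev_node' D v (by rwa [norm_neg])]

/-- `sin x / x` -/
noncomputable def snc (x : ℝ) : ℝ := if x = 0 then 1 else Real.sin x / x

theorem Sf_neg_sq (x : ℝ) : Sf (-(x : ℂ) ^ 2) = (snc x : ℝ) := by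
  unfold snc
  split_ifs with hx
  · rw [hx]
    simp [Sf_zero]
  · have h1 := mul_Sf ((x : ℂ) * Complex.I)
    rw [Complex.sinh_mul_I, mul_pow, Complex.I_sq, mul_neg_one] at h1
    have h2 : (x : ℂ) ≠ 0 := by exact_mod_cast hx
    have h3 : (x : ℂ) * Sf (-(x : ℂ) ^ 2) = Complex.sin x := by
      have : Complex.I * ((x : ℂ) * Sf (-(x : ℂ) ^ 2)) = Complex.I * Complex.sin x := by
        linear_combination h1
      exact mul_left_cancel₀ Complex.I_ne_zero this
    push_cast
    rw [eq_div_iff h2, ← h3]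
    ring

theorem psi_neg_sq (D : Diagram) (v : ℕ) (x : ℝ) : psi D v (-(x : ℂ) ^ 2) =
    (((∏ a ∈ D.leaves v, snc (x / a)) * (snc x)⁻¹ ^ (D.valence v - 2) : ℝ) : ℂ) := by
  unfold psi
  rw [Sf_neg_sq]
  push_cast
  congr 1
  refine prod_congr rfl fun a _ => ?_
  rw [← Sf_neg_sq]
  congr 1
  push_cast
  ring

/-- the sum of the series of a node at a real point -/
theorem hasSum_yy (D : Diagram) (v : ℕ) {x : ℝ} (hx : |x| < Real.pi) :
    HasSum (fun j => coeff j (yy D v) * x ^ (2 * j))
      ((∏ a ∈ D.leaves v, snc (x / a)) * (snc x)⁻¹ ^ (D.valence v - 2)) := by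
  have hp := Real.pi_pos
  have h1 : ‖((x : ℂ) ^ 2)‖ < Real.pi ^ 2 := by
    rw [norm_pow, Complex.norm_real, Real.norm_eq_abs]
    exact pow_lt_pow_left₀ hx (abs_nonneg _) two_ne_zero
  have h2 := (Wr_yy D v (norm_nonneg _) h1).hasSum (z := (x : ℂ) ^ 2) le_rfl
  rw [ev_yy D v h1, psi_neg_sq] at h2
  rw [← Complex.hasSum_ofReal]
  convert h2 using 2 with j
  push_cast
  rw [pow_mul]

variable (D) in
/-- the function with poles at the integers -/
noncomputable def gf (v : ℕ) (z : ℝ) : ℝ :=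
  (∏ a ∈ D.leaves v, Real.sin (Real.pi * z / a)) / Real.sin (Real.pi * z) ^ ((D.leaves v).card - 1)

theorem hasSum_node (h : D.IsSplice) (hn : D.n = 1) {v : ℕ} (hv : v ≤ 1) {z : ℝ} (hz : |z| < 1) :
    HasSum (fun j => coeff j (yy D v) * Real.pi ^ (2 * j) * z ^ (2 * j + 1))
      (lf D v / Real.pi * gf D v z) := by
  have hp := Real.pi_pos
  have hval := valence_two h hn hv
  have hval3 := h.three_le v (by omega)
  rcases eq_or_ne z 0 with h0 | h0
  · have e1 : (fun j => coeff j (yy D v) * Real.pi ^ (2 * j) * z ^ (2 * j + 1)) = fun _ => 0 := by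
      funext j
      rw [h0, zero_pow (by omega), mul_zero]
    have e2 : gf D v z = 0 := by
      unfold gf
      rw [h0]
      have : (∏ a ∈ D.leaves v, Real.sin (Real.pi * 0 / a)) = 0 := by
        obtain ⟨a, ha⟩ := card_pos.1 (by omega : 0 < (D.leaves v).card)
        exact prod_eq_zero ha (by simp)
      rw [this, zero_div]
    rw [e1, e2, mul_zero]
    exact hasSum_zero
  · have h1 : |Real.pi * z| < Real.pi := by
      rw [abs_mul, abs_of_pos hp]
      nlinarith
    have h2 := (hasSum_yy D v h1).mul_right z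
    have hz' : Real.pi * z ≠ 0 := mul_ne_zero hp.ne' h0
    have e3 : (∏ a ∈ D.leaves v, snc (Real.pi * z / a)) * (snc (Real.pi * z))⁻¹ ^
        (D.valence v - 2) * z = lf D v / Real.pi * gf D v z := by
      have e4 : ∏ a ∈ D.leaves v, snc (Real.pi * z / a) =
          (∏ a ∈ D.leaves v, Real.sin (Real.pi * z / a)) * lf D v /
            (Real.pi * z) ^ (D.leaves v).card := by
        unfold lf
        push_cast
        rw [← prod_const, ← prod_mul_distrib, ← prod_div_distrib]
        refine prod_congr rfl fun a ha => ?_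
        have h2 : (2 : ℝ) ≤ a := by exact_mod_cast h.two_le v (by omega) a ha
        have h3 : Real.pi * z / a ≠ 0 := div_ne_zero hz' (by positivity)
        rw [snc, if_neg h3]
        have h4 : (a : ℝ) ≠ 0 := by positivity
        field_simp
      rw [e4, snc, if_neg hz', gf, hval]
      obtain ⟨q, hq⟩ : ∃ q, (D.leaves v).card = q + 1 := ⟨(D.leaves v).card - 1, by omega⟩
      rw [hq]
      have e5 : q + 1 + 1 - 2 = q := by omega
      have e6 : q + 1 - 1 = q := by omega
      rw [e5, e6, inv_div, div_pow, pow_succ]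
      have hs : (Real.pi * z) ^ q ≠ 0 := pow_ne_zero _ hz'
      rcases eq_or_ne (Real.sin (Real.pi * z) ^ q) 0 with h5 | h5
      · rw [h5]
        simp
      · field_simp
    rw [e3] at h2
    have e7 : (fun j => coeff j (yy D v) * Real.pi ^ (2 * j) * z ^ (2 * j + 1)) =
        fun j => coeff j (yy D v) * (Real.pi * z) ^ (2 * j) * z := by
      funext j
      rw [mul_pow, pow_succ]
      ring
    rw [e7]
    exact h2

end Pool.Agent.Zk79.LN
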