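import Pool.Agent.Zk79.LN.Val
import Pool.Agent.Zk79.LN.Base3

set_option autoImplicit false
set_option maxHeartbeats 400000

/-! The coefficients of a node of any valence: polynomial up to an exponentially small error. -/

namespace Pool.Agent.Zk79.LN

open Finset Pool.Agent.Zk79.LM Pool.Agent.Zk79.LM.Diagram PowerSeries Filter Topology

theorem rf_succ (r : ℕ) (x : ℝ) : rf (r + 1) x = rf r x * (2 * x + 3 + 2 * r) := by
  unfold rf
  rw [prod_range_succ]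

theorem rf_shift (r : ℕ) (x : ℝ) : rf (r + 1) x = (2 * x + 3) * rf r (x + 1) := by
  unfold rf
  rw [prod_range_succ']
  rw [mul_comm]
  congr 1
  · push_cast
    ring
  · refine prod_congr rfl fun t _ => ?_
    push_cast
    ring

theorem sum_rf (r i : ℕ) : ∑ l ∈ range (i + 1), rf r l =
    (rf (r + 1) i - rf r 0) / (2 * (r + 1)) := by
  have hr : (2 * ((r : ℝ) + 1)) ≠ 0 := by positivity
  induction i with
  | zero =>
    rw [sum_range_one, rf_succ]
    push_cast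
    field_simp
    ring
  | succ i ih =>
    rw [sum_range_succ, ih]
    have h1 := rf_succ r ((i : ℝ) + 1)
    have h2 := rf_shift r (i : ℝ)
    push_cast
    rw [h1, h2]
    field_simp
    ring

theorem sum_step {N : ℕ} {p u : ℕ → ℝ} {A : ℝ} (hA : 0 ≤ A)
    (h : ∀ i : ℕ, |u i - ∑ r ∈ range N, p r * rf r i| ≤ A * (1 / 2) ^ i) :
    ∃ (p' : ℕ → ℝ) (A' : ℝ), 0 ≤ A' ∧ (∀ r : ℕ, p' (r + 1) = p r / (2 * (r + 1))) ∧
      (N = 0 → p' 0 = ∑' l, u l) ∧
      ∀ i : ℕ, |∑ l ∈ range (i + 1), u l - ∑ r ∈ range (N + 1), p' r * rf r i| ≤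
        A' * (1 / 2) ^ i := by
  obtain ⟨e, he⟩ : ∃ e : ℕ → ℝ, ∀ i : ℕ, e i = u i - ∑ r ∈ range N, p r * rf r i :=
    ⟨_, fun _ => rfl⟩
  have hgeo : Summable fun i : ℕ => A * (1 / 2 : ℝ) ^ i :=
    (summable_geometric_of_lt_one (by norm_num) (by norm_num)).mul_left A
  have hb : ∀ i, ‖e i‖ ≤ A * (1 / 2) ^ i := by
    intro i
    rw [he, Real.norm_eq_abs]
    exact h i
  have hs : Summable e := Summable.of_norm_bounded hgeo hb
  refine ⟨fun r => if r = 0 then ∑' l, e l - ∑ r ∈ range N, p r * rf r 0 / (2 * (r + 1))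
    else p (r - 1) / (2 * ((r - 1 : ℕ) + 1)), A, hA, fun r => ?_, fun hN => ?_, fun i => ?_⟩
  · simp
  · subst hN
    simp only [if_true, range_zero, sum_empty, sub_zero]
    refine tsum_congr fun l => ?_
    rw [he]
    simp
  · have h1 := hs.sum_add_tsum_nat_add (i + 1)
    have h2 : ∑ l ∈ range (i + 1), u l = ∑ l ∈ range (i + 1), e l +
        ∑ r ∈ range N, p r * ((rf (r + 1) i - rf r 0) / (2 * (r + 1))) := by
      have h3 : ∑ r ∈ range N, p r * ((rf (r + 1) i - rf r 0) / (2 * (r + 1))) =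
          ∑ r ∈ range N, ∑ l ∈ range (i + 1), p r * rf r l := by
        refine sum_congr rfl fun r _ => ?_
        rw [← mul_sum, sum_rf]
      rw [h3, sum_comm, ← sum_add_distrib]
      refine sum_congr rfl fun l _ => ?_
      rw [he]
      ring
    have h4 : ∑ l ∈ range (i + 1), u l - ∑ r ∈ range (N + 1),
        (if r = 0 then ∑' l, e l - ∑ r ∈ range N, p r * rf r 0 / (2 * (r + 1))
          else p (r - 1) / (2 * ((r - 1 : ℕ) + 1))) * rf r i =
        -∑' l, e (l + (i + 1)) := by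
      rw [h2, sum_range_succ' _ N]
      simp only [if_true, Nat.add_eq_zero_iff, one_ne_zero, and_false, if_false,
        Nat.add_sub_cancel]
      have h5 : ∑ r ∈ range N, p r * ((rf (r + 1) i - rf r 0) / (2 * (r + 1))) =
          ∑ r ∈ range N, p r / (2 * ((r : ℝ) + 1)) * rf (r + 1) i -
            ∑ r ∈ range N, p r * rf r 0 / (2 * (r + 1)) := by
        rw [← sum_sub_distrib]
        refine sum_congr rfl fun r _ => ?_
        ring
      have h6 : rf 0 (i : ℝ) = 1 := by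
        unfold rf
        simp
      rw [h5, h6, ← h1]
      ring
    rw [h4, abs_neg]
    have h5 : HasSum (fun l : ℕ => A * (1 / 2 : ℝ) ^ (l + (i + 1))) (A * (1 / 2) ^ i) := by
      have h6 := (hasSum_geometric_of_lt_one (by norm_num : (0 : ℝ) ≤ 1 / 2)
        (by norm_num)).mul_left (A * (1 / 2 : ℝ) ^ (i + 1))
      have e1 : A * (1 / 2 : ℝ) ^ (i + 1) * (1 - 1 / 2)⁻¹ = A * (1 / 2) ^ i := by
        rw [pow_succ]
        norm_num
        ring
      rw [e1] at h6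
      have e2 : (fun l : ℕ => A * (1 / 2 : ℝ) ^ (l + (i + 1))) =
          fun l => A * (1 / 2 : ℝ) ^ (i + 1) * (1 / 2) ^ l := by
        funext l
        rw [pow_add]
        ring
      rw [e2]
      exact h6
    have h6 := tsum_of_norm_bounded h5 fun l => hb (l + (i + 1))
    rwa [Real.norm_eq_abs] at h6

/-- the normalised coefficients are the partial sums of those of the product with `1 - X / π ^ 2` -/
theorem sum_lin (f : PowerSeries ℝ) (i : ℕ) : ∑ l ∈ range (i + 1),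
    coeff l (f * (1 - C (1 / Real.pi ^ 2) * X)) * Real.pi ^ (2 * l) =
      coeff i f * Real.pi ^ (2 * i) := by
  induction i with
  | zero =>
    rw [sum_range_one]
    congr 1
    rw [coeff_zero_eq_constantCoeff_apply, map_mul, ← coeff_zero_eq_constantCoeff_apply,
      ← coeff_zero_eq_constantCoeff_apply, coeff_lin, if_pos rfl, mul_one]
  | succ i ih =>
    rw [sum_range_succ, ih]
    have e1 : coeff (i + 1) (f * (1 - C (1 / Real.pi ^ 2) * X)) =
        coeff (i + 1) f - 1 / Real.pi ^ 2 * coeff i f := by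
      rw [mul_sub, mul_one, map_sub, mul_left_comm, coeff_C_mul, coeff_succ_mul_X]
    rw [e1]
    have hp := Real.pi_pos
    have e2 : Real.pi ^ (2 * (i + 1)) = Real.pi ^ 2 * Real.pi ^ (2 * i) := by ring
    rw [e2]
    field_simp
    ring

open scoped NNReal ENNReal

/-- the sum in a disc of holomorphy -/
theorem ev_of_holo {f : PowerSeries ℝ} {F : ℂ → ℂ} {R ρ : ℝ} (hρ : 0 < ρ) (hf : Wr ρ f)
    (heq : ∀ z, ‖z‖ ≤ ρ → ev f z = F z) (hF : DifferentiableOn ℂ F (Metric.ball 0 R)) {z : ℂ}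
    (hz : ‖z‖ < R) : ev f z = F z := by
  obtain ⟨s, hrs, hsR⟩ := exists_between hz
  have hs0 : 0 < s := lt_of_le_of_lt (norm_nonneg _) hrs
  obtain ⟨S, hS⟩ : ∃ S : ℝ≥0, (S : ℝ) = s := ⟨⟨s, hs0.le⟩, rfl⟩
  obtain ⟨P, hP⟩ : ∃ P : ℝ≥0, (P : ℝ) = ρ := ⟨⟨ρ, hρ.le⟩, rfl⟩
  have hS0 : 0 < S := by
    rw [← NNReal.coe_pos, hS]
    exact hs0
  have h1 : HasFPowerSeriesOnBall F (cauchyPowerSeries F 0 S) 0 S := by
    refine DifferentiableOn.hasFPowerSeriesOnBall (hF.mono ?_) hS0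
    intro z hz
    rw [mem_closedBall_zero_iff, hS] at hz
    rw [mem_ball_zero_iff]
    linarith
  have h2 : HasFPowerSeriesAt (ev f) (fms f) 0 := hasF (r := P) (by
    rw [← NNReal.coe_pos, hP]
    exact hρ) (by rw [hP]; exact hf)
  have h3 : F =ᶠ[𝓝 0] ev f := by
    filter_upwards [Metric.closedBall_mem_nhds (0 : ℂ) hρ] with z hz
    rw [mem_closedBall_zero_iff] at hz
    exact (heq z hz).symm
  have h4 := h1.hasFPowerSeriesAt.eq_formalMultilinearSeries_of_eventually h2 h3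
  rw [h4] at h1
  have h5 := h1.hasSum (y := z) (by
    rw [Metric.mem_eball, edist_zero_right, ← ofReal_norm, ENNReal.ofReal_lt_coe_iff (norm_nonneg _),
      hS]
    exact hrs)
  rw [zero_add] at h5
  have e2 : (fun k => fms f k fun _ : Fin k => z) = fun k => ((coeff k f : ℝ) : ℂ) * z ^ k := by
    funext k
    unfold fms
    rw [FormalMultilinearSeries.ofScalars_apply_eq, smul_eq_mul]
  rw [e2] at h5
  exact h5.tsum_eq

variable {D : Diagram}

/-- the product with the power of `1 - X / π ^ 2` -/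
theorem HG_props (D : Diagram) (v q : ℕ) (hv : D.valence v = q + 2) :
    (∀ r : ℝ, 0 ≤ r → r < 4 * Real.pi ^ 2 →
      Wr r (yy D v * (1 - C (1 / Real.pi ^ 2) * X) ^ q)) ∧
    ev (yy D v * (1 - C (1 / Real.pi ^ 2) * X) ^ q) ((Real.pi : ℂ) ^ 2) =
      (-(1 / (Real.pi : ℂ) ^ 2)) ^ q *
      ((∏ a ∈ D.leaves v, Sf (((1 / (a : ℝ) ^ 2 : ℝ) : ℂ) * -((Real.pi : ℂ) ^ 2))) /
        Qf ((Real.pi : ℂ) ^ 2) ^ q) := by
  have hp := Real.pi_gt_three
  have h2 : (2 : ℝ) < Real.pi ^ 2 := by nlinarith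
  have hpc : (Real.pi : ℂ) ^ 2 ≠ 0 := by
    have : (Real.pi : ℂ) ≠ 0 := by exact_mod_cast Real.pi_ne_zero
    exact pow_ne_zero 2 this
  obtain ⟨F, hF⟩ : ∃ F : ℂ → ℂ, F = fun z => (-(1 / (Real.pi : ℂ) ^ 2)) ^ q *
      ((∏ a ∈ D.leaves v, Sf (((1 / (a : ℝ) ^ 2 : ℝ) : ℂ) * -z)) / Qf z ^ q) := ⟨_, rfl⟩
  have hW : Wr 2 (yy D v * (1 - C (1 / Real.pi ^ 2) * X) ^ q) :=
    (Wr_yy D v (by norm_num) h2).mul (by norm_num) ((Wr_lin _ _).pow (by norm_num) q)
  have heq : ∀ z : ℂ, ‖z‖ ≤ 2 → ev (yy D v * (1 - C (1 / Real.pi ^ 2) * X) ^ q) z = F z := by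
    intro z hz
    have hz' : ‖z‖ < Real.pi ^ 2 := by linarith
    rw [ev_mul (Wr_yy D v (norm_nonneg _) hz') ((Wr_lin _ _).pow (norm_nonneg _) q) le_rfl,
      ev_pow (norm_nonneg _) (Wr_lin _ _) le_rfl, ev_lin, ev_yy D v hz', psi, hv, hF]
    have e1 : Sf (-z) = (z - (Real.pi : ℂ) ^ 2) * Qf z := Kf_eq z
    have h3 : Sf (-z) ≠ 0 := Sf_ne_of_norm (by rwa [norm_neg])
    have h4 : Qf z ≠ 0 := by
      intro h0
      apply h3
      rw [e1, h0, mul_zero]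
    have h5 : z - (Real.pi : ℂ) ^ 2 ≠ 0 := by
      intro h0
      apply h3
      rw [e1, h0, zero_mul]
    have e2 : (q + 2 - 2 : ℕ) = q := by omega
    have e3 : (1 - ((1 / Real.pi ^ 2 : ℝ) : ℂ) * z) =
        -(1 / (Real.pi : ℂ) ^ 2) * (z - (Real.pi : ℂ) ^ 2) := by
      push_cast
      field_simp
      ring
    rw [e2, e1, e3, mul_pow (-(1 / (Real.pi : ℂ) ^ 2)), inv_pow, mul_pow (z - (Real.pi : ℂ) ^ 2)]
    have h6 : (z - (Real.pi : ℂ) ^ 2) ^ q ≠ 0 := pow_ne_zero _ h5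
    have h7 : Qf z ^ q ≠ 0 := pow_ne_zero _ h4
    show _ * _ = (-(1 / (Real.pi : ℂ) ^ 2)) ^ q * (_ / _)
    rw [mul_inv, div_eq_mul_inv]
    have h8 : ((z - (Real.pi : ℂ) ^ 2) ^ q)⁻¹ * (z - (Real.pi : ℂ) ^ 2) ^ q = 1 :=
      inv_mul_cancel₀ h6
    linear_combination (∏ a ∈ D.leaves v, Sf (((1 / (a : ℝ) ^ 2 : ℝ) : ℂ) * -z)) *
      (Qf z ^ q)⁻¹ * (-(1 / (Real.pi : ℂ) ^ 2)) ^ q * h8
  have hD : DifferentiableOn ℂ F (Metric.ball 0 (4 * Real.pi ^ 2)) := by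
    intro z hz
    rw [mem_ball_zero_iff] at hz
    apply DifferentiableAt.differentiableWithinAt
    rw [hF]
    refine DifferentiableAt.const_mul ?_ _
    refine DifferentiableAt.div ?_ ((differentiable_Qf z).pow q) (pow_ne_zero _ (Qf_ne hz))
    refine DifferentiableAt.fun_finsetProd fun a _ => ?_
    exact (differentiable_Sf _).comp z (by fun_prop)
  refine ⟨fun r hr hr4 => Wr_of_holo (by norm_num) hW heq hD hr hr4, ?_⟩
  rw [ev_of_holo (by norm_num) hW heq hD (z := (Real.pi : ℂ) ^ 2), hF]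
  rw [norm_pow, Complex.norm_real, Real.norm_eq_abs, abs_of_pos Real.pi_pos]
  nlinarith

theorem deriv_Kf_val : deriv Kf ((Real.pi : ℂ) ^ 2) = -(1 / (2 * (Real.pi : ℂ) ^ 2)) := by
  have hp : (Real.pi : ℂ) ≠ 0 := by exact_mod_cast Real.pi_ne_zero
  -- `x * Kf (x ^ 2) = sin x`
  have h1 : (fun x : ℂ => x * Kf (x ^ 2)) = Complex.sin := by
    funext x
    have h2 := mul_Sf (x * Complex.I)
    rw [Complex.sinh_mul_I, mul_pow, Complex.I_sq, mul_neg_one] at h2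
    have : Complex.I * (x * Kf (x ^ 2)) = Complex.I * Complex.sin x := by
      unfold Kf
      linear_combination h2
    exact mul_left_cancel₀ Complex.I_ne_zero this
  have h3 : HasDerivAt (fun x : ℂ => x * Kf (x ^ 2))
      (1 * Kf ((Real.pi : ℂ) ^ 2) + Real.pi * (deriv Kf ((Real.pi : ℂ) ^ 2) *
        (((2 : ℕ) : ℂ) * (Real.pi : ℂ) ^ (2 - 1)))) (Real.pi : ℂ) := by
    have h4 : HasDerivAt Kf (deriv Kf ((Real.pi : ℂ) ^ 2)) ((Real.pi : ℂ) ^ 2) :=
      (differentiable_Kf _).hasDerivAt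
    have h5 : HasDerivAt (Kf ∘ fun x : ℂ => x ^ 2) (deriv Kf ((Real.pi : ℂ) ^ 2) *
        (((2 : ℕ) : ℂ) * (Real.pi : ℂ) ^ (2 - 1))) (Real.pi : ℂ) :=
      HasDerivAt.comp (h₂ := Kf) (h := fun x : ℂ => x ^ 2) (Real.pi : ℂ) h4 (hasDerivAt_pow 2 _)
    exact (hasDerivAt_id _).mul h5
  rw [h1] at h3
  have h5 := h3.unique (Complex.hasDerivAt_sin _)
  rw [Kf_pi, Complex.cos_pi] at h5
  have h6 : deriv Kf ((Real.pi : ℂ) ^ 2) * (2 * (Real.pi : ℂ) ^ 2) = -1 := by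
    rw [← h5]
    norm_num
    ring
  rw [eq_neg_iff_add_eq_zero]
  field_simp
  linear_combination h6

theorem Qf_pi : Qf ((Real.pi : ℂ) ^ 2) = -(1 / (2 * (Real.pi : ℂ) ^ 2)) := by
  rw [Qf, dslope_same, deriv_Kf_val]

theorem leaf_val {a : ℕ} (ha : 2 ≤ a) : Sf (((1 / (a : ℝ) ^ 2 : ℝ) : ℂ) * -((Real.pi : ℂ) ^ 2)) =
    (((a : ℝ) / Real.pi * Real.sin (Real.pi / a) : ℝ) : ℂ) := by
  have h2 : (2 : ℝ) ≤ a := by exact_mod_cast ha
  have hp := Real.pi_pos
  have h3 := Sf_neg_sq (Real.pi / a)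
  have h4 : Real.pi / (a : ℝ) ≠ 0 := by positivity
  rw [snc, if_neg h4] at h3
  have e1 : ((1 / (a : ℝ) ^ 2 : ℝ) : ℂ) * -((Real.pi : ℂ) ^ 2) = -((Real.pi / a : ℝ) : ℂ) ^ 2 := by
    push_cast
    ring
  rw [e1, h3]
  congr 1
  have : (a : ℝ) ≠ 0 := by positivity
  field_simp

/-- the sum of the normalised coefficients of the product -/
theorem tsum_HG (h : D.IsSplice) {v q : ℕ} (hv : v ≤ D.n) (hval : D.valence v = q + 2) :
    ∑' l, coeff l (yy D v * (1 - C (1 / Real.pi ^ 2) * X) ^ q) * Real.pi ^ (2 * l) =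
      2 ^ q * ∏ a ∈ D.leaves v, ((a : ℝ) / Real.pi * Real.sin (Real.pi / a)) := by
  obtain ⟨-, h1⟩ := HG_props D v q hval
  have h2 : ev (yy D v * (1 - C (1 / Real.pi ^ 2) * X) ^ q) ((Real.pi : ℂ) ^ 2) =
      ((∑' l, coeff l (yy D v * (1 - C (1 / Real.pi ^ 2) * X) ^ q) * Real.pi ^ (2 * l) : ℝ) :
        ℂ) := by
    unfold ev
    rw [Complex.ofReal_tsum]
    refine tsum_congr fun l => ?_
    push_cast
    rw [pow_mul]
  rw [h1, Qf_pi, prod_congr rfl fun a ha => leaf_val (h.two_le v hv a ha), ← Complex.ofReal_prod]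
    at h2
  have hpc : (Real.pi : ℂ) ^ 2 ≠ 0 := by
    have : (Real.pi : ℂ) ≠ 0 := by exact_mod_cast Real.pi_ne_zero
    exact pow_ne_zero 2 this
  have h3 : (-(1 / (Real.pi : ℂ) ^ 2)) ^ q * (((∏ a ∈ D.leaves v,
      ((a : ℝ) / Real.pi * Real.sin (Real.pi / a)) : ℝ) : ℂ) /
        (-(1 / (2 * (Real.pi : ℂ) ^ 2))) ^ q) = ((2 ^ q * ∏ a ∈ D.leaves v,
      ((a : ℝ) / Real.pi * Real.sin (Real.pi / a)) : ℝ) : ℂ) := by
    have e1 : (-(1 / (Real.pi : ℂ) ^ 2)) = 2 * (-(1 / (2 * (Real.pi : ℂ) ^ 2))) := by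
      field_simp
    have e2 : (-(1 / (2 * (Real.pi : ℂ) ^ 2))) ≠ 0 :=
      neg_ne_zero.2 (one_div_ne_zero (mul_ne_zero two_ne_zero hpc))
    rw [e1, mul_pow 2]
    have e3 := pow_ne_zero q e2
    push_cast
    field_simp
  rw [h3] at h2
  exact_mod_cast h2.symm

/-- the sum of the normalised coefficients of the product is not zero -/
theorem tsum_HG_ne (h : D.IsSplice) {v q : ℕ} (hv : v ≤ D.n) (hval : D.valence v = q + 2) :
    ∑' l, coeff l (yy D v * (1 - C (1 / Real.pi ^ 2) * X) ^ q) * Real.pi ^ (2 * l) ≠ 0 := by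
  intro h0
  obtain ⟨-, h1⟩ := HG_props D v q hval
  have h2 : ev (yy D v * (1 - C (1 / Real.pi ^ 2) * X) ^ q) ((Real.pi : ℂ) ^ 2) =
      ((∑' l, coeff l (yy D v * (1 - C (1 / Real.pi ^ 2) * X) ^ q) * Real.pi ^ (2 * l) : ℝ) :
        ℂ) := by
    unfold ev
    rw [Complex.ofReal_tsum]
    refine tsum_congr fun l => ?_
    push_cast
    rw [pow_mul]
  rw [h0, Complex.ofReal_zero, h1] at h2
  have hpc : (Real.pi : ℂ) ^ 2 ≠ 0 := by
    have : (Real.pi : ℂ) ≠ 0 := by exact_mod_cast Real.pi_ne_zero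
    exact pow_ne_zero 2 this
  refine mul_ne_zero (pow_ne_zero _ (neg_ne_zero.2 (one_div_ne_zero hpc))) (div_ne_zero
    (prod_ne_zero_iff.2 fun a ha => leaf_at h hv ha) (pow_ne_zero _ (Qf_ne ?_))) h2
  rw [norm_pow, Complex.norm_real, Real.norm_eq_abs, abs_of_pos Real.pi_pos]
  have := Real.pi_pos
  nlinarith

/-- **the coefficients of a node of valence `Q + 3`** -/
theorem exists_pol (h : D.IsSplice) {v Q : ℕ} (hv : v ≤ D.n) (hval : D.valence v = Q + 3) :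
    ∃ (p : ℕ → ℝ) (A : ℝ), 0 ≤ A ∧
      p Q * Q.factorial = 2 * ∏ a ∈ D.leaves v, ((a : ℝ) / Real.pi * Real.sin (Real.pi / a)) ∧
      ∀ i : ℕ, |sq D v i - ∑ r ∈ range (Q + 1), p r * rf r i| ≤ A * (1 / 2) ^ i := by
  have hp := Real.pi_pos
  have hpp : 0 < Real.pi ^ 2 := by positivity
  -- the sequences
  obtain ⟨c, hc⟩ : ∃ c : ℕ → ℕ → ℝ, ∀ m i, c m i =
      coeff i (yy D v * (1 - C (1 / Real.pi ^ 2) * X) ^ m) * Real.pi ^ (2 * i) :=
    ⟨_, fun _ _ => rfl⟩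
  have hstep : ∀ m i, ∑ l ∈ range (i + 1), c (m + 1) l = c m i := by
    intro m i
    simp only [hc]
    rw [← sum_lin, pow_succ, mul_assoc]
  obtain ⟨hW, -⟩ := HG_props D v (Q + 1) (by omega)
  have hE := tsum_HG h (q := Q + 1) hv (by omega)
  obtain ⟨L, hL⟩ : ∃ L : ℝ, L = ∏ a ∈ D.leaves v, ((a : ℝ) / Real.pi * Real.sin (Real.pi / a)) :=
    ⟨_, rfl⟩
  have hbase : ∃ A : ℝ, 0 ≤ A ∧ ∀ i, |c (Q + 1) i| ≤ A * (1 / 2) ^ i := by
    have h1 := hW (2 * Real.pi ^ 2) (by positivity) (by linarith)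
    obtain ⟨H, hH⟩ : ∃ H, H = yy D v * (1 - C (1 / Real.pi ^ 2) * X) ^ (Q + 1) := ⟨_, rfl⟩
    rw [← hH] at h1
    have hsum : Summable fun l => |coeff l H| * (2 * Real.pi ^ 2) ^ l := h1
    refine ⟨∑' l, |coeff l H| * (2 * Real.pi ^ 2) ^ l, tsum_nonneg fun l => by positivity,
      fun i => ?_⟩
    have h2 : |coeff i H| * (2 * Real.pi ^ 2) ^ i ≤ ∑' l, |coeff l H| * (2 * Real.pi ^ 2) ^ l :=
      hsum.le_tsum i fun l _ => by positivity
    have h3 : |c (Q + 1) i| = |coeff i H| * (2 * Real.pi ^ 2) ^ i * (1 / 2) ^ i := by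
      rw [hc, ← hH, abs_mul, abs_of_pos (pow_pos hp _), mul_assoc, ← mul_pow, pow_mul]
      congr 2
      ring
    rw [h3]
    exact mul_le_mul_of_nonneg_right h2 (by positivity)
  rw [← hL] at hE ⊢
  have key : ∀ k : ℕ, k ≤ Q → ∃ (p : ℕ → ℝ) (A : ℝ), 0 ≤ A ∧
      p k * (2 ^ k * k.factorial) = 2 ^ (Q + 1) * L ∧
      ∀ i : ℕ, |c (Q - k) i - ∑ r ∈ range (k + 1), p r * rf r i| ≤ A * (1 / 2) ^ i := by
    intro k
    induction k with
    | zero =>
      intro _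
      obtain ⟨A, hA, h1⟩ := hbase
      obtain ⟨p', A', hA', -, h2, h3⟩ := sum_step (N := 0) (p := fun _ => 0) (u := c (Q + 1)) hA
        (fun i => by simpa using h1 i)
      refine ⟨p', A', hA', ?_, fun i => ?_⟩
      · rw [h2 rfl]
        simp only [hc]
        rw [hE]
        simp
      · have h4 := h3 i
        rw [hstep] at h4
        exact h4
    | succ k ih =>
      intro hk
      obtain ⟨p, A, hA, hpk, h1⟩ := ih (by omega)
      obtain ⟨p', A', hA', h2, -, h3⟩ := sum_step (N := k + 1) hA h1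
      refine ⟨p', A', hA', ?_, fun i => ?_⟩
      · rw [h2 k, ← hpk, Nat.factorial_succ]
        push_cast
        field_simp
        ring
      · have h4 := h3 i
        have e1 : Q - k = Q - (k + 1) + 1 := by omega
        rw [e1, hstep] at h4
        exact h4
  obtain ⟨p, A, hA, hpQ, h1⟩ := key Q le_rfl
  refine ⟨p, A, hA, ?_, fun i => ?_⟩
  · have h2 : (2 : ℝ) ^ Q ≠ 0 := pow_ne_zero _ two_ne_zero
    refine mul_left_cancel₀ h2 ?_
    rw [pow_succ] at hpQ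
    linear_combination hpQ
  · have h2 := h1 i
    rw [Nat.sub_self, hc, pow_zero, mul_one] at h2
    exact h2

end Pool.Agent.Zk79.LN
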