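import Pool.Agent.Zk79.LN.Main2
import Pool.Agent.Zk20.LN.Id

set_option autoImplicit false
set_option maxHeartbeats 400000

/-! Separation of diagrams with two nodes. -/

namespace Pool.Agent.Zk79.LN

open Finset Pool.Agent.Zk79.LM Pool.Agent.Zk79.LM.Diagram PowerSeries Filter Topology Asymptotics
open Pool.Agent.Zk20.LN (ident)

variable {D D' : Diagram}

theorem gf_eq (D : Diagram) (w : ℕ) (z : ℝ) :
    gf D w z = sp (D.leaves w) z / Real.sin (Real.pi * z) ^ ((D.leaves w).card - 1) := rfl

theorem muv_lt_one (h : D.IsSplice) (hn : D.n = 1) {v w : ℕ} (hv : v ≤ 1) (hw : w ≤ 1)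
    (hvw : v ≠ w) (hP : D.P w ≤ D.P v) : muv D v w < 1 := by
  have hP1 : (1 : ℝ) ≤ D.P v := by exact_mod_cast P_pos h (by omega : v ≤ D.n)
  have h1 := sq_add_sq h hn hv hw hvw
  have h2 : (D.P w : ℝ) / D.P v ≤ 1 := by
    rw [div_le_one (by linarith)]
    exact_mod_cast hP
  have h3 := nuv_pos h hn hv hw hvw
  have h4 : 0 < nuv D v w ^ 2 := by positivity
  by_contra hcon
  push Not at hcon
  nlinarith

/-- the function of the expansion at the node `v` -/
noncomputable def EF (D : Diagram) (v w : ℕ) (T : ℝ) : ℝ :=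
  sp (D.leaves v) 1 * (gf D w (muv D v w + nuv D v w * T) + gf D w (muv D v w - nuv D v w * T))

theorem hasSum_EF (h : D.IsSplice) (hn : D.n = 1) {v w : ℕ} (hv : v ≤ 1) (hw : w ≤ 1)
    (hvw : v ≠ w) {T : ℝ} (hT : muv D v w + |nuv D v w * T| < 1) :
    HasSum (fun k => TT (rr D v) (sq D w) (muv D v w) (nuv D v w) k / dd k * T ^ (2 * k))
      (D.P v / Real.pi ^ 3 * EF D v w T) := by
  have hμ := muv_pos h hn hv hw hvw
  have h1 := hasSum_TT (g := sq D w) (ν := nuv D v w) (sq_nonneg' h (by omega))
    (summable_sq D h (by omega)) hμ (rr D v) hT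
  have h2 : ∀ z : ℝ, |z| < 1 → Ps (sq D w) z = lf D w / Real.pi * gf D w z := fun z hz =>
    (hasSum_sq h hn hw hz).tsum_eq
  have habs := abs_le.1 (le_refl |nuv D v w * T|)
  rw [h2 _ (by rw [abs_lt]; constructor <;> linarith),
    h2 _ (by rw [abs_lt]; constructor <;> linarith)] at h1
  convert h1 using 1
  rw [EF, rr, sp_one, P_two h hn hv, muv_two h hn hv hw hvw]
  have e1 : (1 : ℝ) ≤ lf D w := by exact_mod_cast lf_pos h (by omega)
  have e2 : (1 : ℝ) ≤ ed D v := by exact_mod_cast ed_pos h hn v
  have e3 := Real.pi_ne_zero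
  push_cast
  field_simp

theorem eventually_near {μ ν : ℝ} (hμ1 : μ < 1) : ∀ᶠ T in 𝓝 (0 : ℝ), μ + |ν * T| < 1 := by
  have h1 : Continuous fun T : ℝ => μ + |ν * T| := by fun_prop
  have h2 := h1.tendsto 0
  simp only [mul_zero, abs_zero, add_zero] at h2
  exact h2.eventually (gt_mem_nhds hμ1)

theorem eq_of_expand {G : ℕ → ℝ} {c c' : ℕ → ℝ}
    (h : ∀ K : ℕ, (fun n : ℕ => G n - ∑ k ∈ range K, c k * be k n) =O[atTop]
      fun n : ℕ => ((n : ℝ) ^ K)⁻¹)
    (h' : ∀ K : ℕ, (fun n : ℕ => G n - ∑ k ∈ range K, c' k * be k n) =O[atTop]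
      fun n : ℕ => ((n : ℝ) ^ K)⁻¹) (k : ℕ) : c k = c' k := by
  have h1 : c k - c' k = 0 := by
    refine coeffs_zero (c := fun k => c k - c' k) (fun K => ?_) k
    refine ((h' K).sub (h K)).congr_left fun n => ?_
    simp_rw [sub_mul]
    rw [sum_sub_distrib]
    ring
  linarith

theorem card_two_le (h : D.IsSplice) (hn : D.n = 1) {v : ℕ} (hv : v ≤ 1) :
    2 ≤ (D.leaves v).card := by
  have h1 := h.three_le v (by omega)
  rw [valence_two h hn hv] at h1
  omega

/-- the valence of the dominating node -/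
theorem card_eq_two_of (h : D.IsSplice) (h' : D'.IsSplice) (hn : D.n = 1) (hn' : D'.n = 1)
    {v w v' w' : ℕ} (hv : v ≤ 1) (hw : w ≤ 1) (hvw : v ≠ w) (hv' : v' ≤ 1) (hw' : w' ≤ 1)
    (hG : ∀ k, GG D v w k = GG D' v' w' k) (hP : D.P w < D.P v)
    (hc : (D.leaves v).card = 2) : (D'.leaves v').card = 2 := by
  by_contra hcon
  have h2 := card_two_le h' hn' hv'
  have h3 := expand_lt h hn hv hw hvw hP hc 0
  simp only [range_zero, sum_empty, sub_zero, pow_zero, inv_one] at h3
  obtain ⟨C, hC⟩ := h3.bound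
  rw [eventually_atTop] at hC
  obtain ⟨N, hN⟩ := hC
  obtain ⟨M, hM⟩ : ∃ M : ℝ, ∀ n, GG D v w n ≤ M := by
    refine ⟨max C (∑ n ∈ range N, |GG D v w n|), fun n => ?_⟩
    rcases Nat.lt_or_ge n N with h4 | h4
    · refine le_trans ?_ (le_max_right _ _)
      exact (le_abs_self _).trans (single_le_sum (f := fun n => |GG D v w n|)
        (fun _ _ => abs_nonneg _) (mem_range.2 h4))
    · have := hN n h4
      rw [norm_one, mul_one, Real.norm_eq_abs] at this
      exact ((le_abs_self _).trans this).trans (le_max_left _ _)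
  obtain ⟨n, hn1⟩ := sq_unbounded h' hn' hv' (by omega) M
  have h4 := hM n
  rw [hG n, GG] at h4
  have h5 := single_le_sum (f := fun j => sq D' v' (n - j) * sq D' w' j *
    mm (muv D' v' w') (nuv D' v' w') n j) (s := range (n + 1)) (fun j hj => by
      have := mem_range.1 hj
      exact mul_nonneg (mul_nonneg (sq_nonneg' h' (by omega) _) (sq_nonneg' h' (by omega) _))
        (mm_nonneg n j (by omega))) (mem_range.2 (by omega : 0 < n + 1))
  simp only [mm_zero, sq_zero, Nat.sub_zero, mul_one] at h5
  linarith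

/-- **separation of diagrams with two nodes** -/
theorem sep_two (h : D.IsSplice) (h' : D'.IsSplice) (hn : D.n = 1) (hn' : D'.n = 1)
    (hG : ∀ k, |coeff k D.gaussSeries| = |coeff k D'.gaussSeries|) {v w v' w' : ℕ} (hv : v ≤ 1)
    (hw : w ≤ 1) (hvw : v ≠ w) (hv' : v' ≤ 1) (hw' : w' ≤ 1) (hvw' : v' ≠ w')
    (hPP : D.P v = D'.P v') (hP : D.P w < D.P v) (hP' : D'.P w' ≤ D'.P v')
    (hc : (D.leaves v).card = 2) :
    D.leaves v = D'.leaves v' ∧ D.leaves w = D'.leaves w' ∧ ed D v = ed D' v' ∧
      ed D w = ed D' w' := by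
  have hGG := GG_eq h h' hn hn' hG hv hw hvw hv' hw' hvw' hPP
  have hc1 := card_eq_two_of h h' hn hn' hv hw hvw hv' hw' hGG hP hc
  have hμ := muv_pos h hn hv hw hvw
  have hμ' := muv_pos h' hn' hv' hw' hvw'
  have hμ1 := muv_lt_one h hn hv hw hvw hP.le
  have hμ1' := muv_lt_one h' hn' hv' hw' hvw' hP'
  have hν := nuv_pos h hn hv hw hvw
  have hν' := nuv_pos h' hn' hv' hw' hvw'
  have hPv : (1 : ℝ) ≤ D.P v := by exact_mod_cast P_pos h (by omega : v ≤ D.n)
  have hE := expand_lt h hn hv hw hvw hP hc
  have hcw := card_two_le h hn hw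
  have hcw' := card_two_le h' hn' hw'
  have hpi := Real.pi_pos
  have hs1 : 0 < sp (D.leaves v) 1 := sp_one_pos (h.two_le v (by omega))
  have hs1' : 0 < sp (D'.leaves v') 1 := sp_one_pos (h'.two_le v' (by omega))
  have hw1 : 0 < sp (D.leaves w) 1 := sp_one_pos (h.two_le w (by omega))
  have hw1' : 0 < sp (D'.leaves w') 1 := sp_one_pos (h'.two_le w' (by omega))
  -- the hypotheses of `ident` for `F`
  have an : ∀ (c : ℝ) (B : Finset ℕ) (x : ℝ), AnalyticAt ℝ (fun z => c * sp B z) x :=
    fun c B x => analyticAt_const.mul (analyticAt_sp B x)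
  have F2 : sp (D.leaves v) 1 * sp (D.leaves w) 2 ≠ sp (D.leaves v) 1 * sp (D.leaves w) 1 := by
    intro h0
    have h1 := mul_left_cancel₀ hs1.ne' h0
    rw [sp_two] at h1
    have h2 : cp (D.leaves w) = 1 := by
      refine mul_left_cancel₀ hw1.ne' ?_
      rw [h1, mul_one]
    exact cp_ne_one (h.two_le w (by omega)) hcw h2
  have F2n : 0 ≤ sp (D.leaves v) 1 * sp (D.leaves w) 2 := by
    rw [sp_two]
    exact mul_nonneg hs1.le (mul_nonneg hw1.le (cp_nonneg (h.two_le w (by omega))))
  have hq : ∀ B : Finset ℕ, 2 ≤ B.card → B.card - 1 + 1 = B.card := fun B h => by omega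
  rcases hP'.lt_or_eq with hlt | heq
  · -- one dominating node
    have hE' := expand_lt h' hn' hv' hw' hvw' hlt hc1
    have hTT : ∀ k, TT (rr D v) (sq D w) (muv D v w) (nuv D v w) k =
        TT (rr D' v') (sq D' w') (muv D' v' w') (nuv D' v' w') k := by
      refine eq_of_expand hE fun K => ?_
      refine (hE' K).congr_left fun n => ?_
      rw [hGG n]
    have hnear : ∀ᶠ T in 𝓝 (0 : ℝ), EF D v w T = EF D' v' w' T := by
      filter_upwards [eventually_near (ν := nuv D v w) hμ1,
        eventually_near (ν := nuv D' v' w') hμ1'] with T h1 h2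
      have h3 := hasSum_EF h hn hv hw hvw h1
      have h4 := hasSum_EF h' hn' hv' hw' hvw' h2
      simp_rw [hTT] at h3
      have h5 := h3.unique h4
      rw [← hPP] at h5
      have h6 : (D.P v : ℝ) / Real.pi ^ 3 ≠ 0 := by positivity
      exact mul_left_cancel₀ h6 h5
    have F2' : sp (D'.leaves v') 1 * sp (D'.leaves w') 2 ≠
        sp (D'.leaves v') 1 * sp (D'.leaves w') 1 := by
      intro h0
      have h1 := mul_left_cancel₀ hs1'.ne' h0
      rw [sp_two] at h1
      have h2 : cp (D'.leaves w') = 1 := by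
        refine mul_left_cancel₀ hw1'.ne' ?_
        rw [h1, mul_one]
      exact cp_ne_one (h'.two_le w' (by omega)) hcw' h2
    have F2n' : 0 ≤ sp (D'.leaves v') 1 * sp (D'.leaves w') 2 := by
      rw [sp_two]
      exact mul_nonneg hs1'.le (mul_nonneg hw1'.le (cp_nonneg (h'.two_le w' (by omega))))
    obtain ⟨-, h1, h2, h3⟩ := ident (F := fun z => sp (D.leaves v) 1 * sp (D.leaves w) z)
      (F' := fun z => sp (D'.leaves v') 1 * sp (D'.leaves w') z)
      (q := (D.leaves w).card - 1) (q' := (D'.leaves w').card - 1) (by omega) (by omega)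
      (an _ _) (an _ _)
      (fun z => by
        try simp only
        rw [sp_neg, hq _ hcw]
        ring)
      (fun z => by
        try simp only
        rw [sp_neg, hq _ hcw']
        ring)
      ⟨fun z => sp (D.leaves v) 1 * sg (D.leaves w) z,
        fun x => analyticAt_const.mul (analyticAt_sg _ x), fun z => by
          try simp only
          rw [sp_eq (D.leaves w), hq _ hcw]
          ring⟩
      ⟨fun z => sp (D'.leaves v') 1 * sg (D'.leaves w') z,
        fun x => analyticAt_const.mul (analyticAt_sg _ x), fun z => by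
          try simp only
          rw [sp_eq (D'.leaves w'), hq _ hcw']
          ring⟩
      (mul_pos hs1 hw1) (mul_pos hs1' hw1') F2n F2n' F2 F2' hμ hμ1 hμ' hμ1' hν hν'
      (by
        filter_upwards [hnear] with T hT
        unfold EF at hT
        rw [gf_eq, gf_eq, gf_eq, gf_eq] at hT
        try simp only
        rw [mul_div_assoc, mul_div_assoc, mul_div_assoc, mul_div_assoc, ← mul_add, ← mul_add]
        exact hT)
    have hLw : D.leaves w = D'.leaves w' := by
      refine set_eq (h.two_le w (by omega)) (h'.two_le w' (by omega))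
        (fun a ha b hb => leaves_coprime h (by omega) ha hb)
        (fun a ha b hb => leaves_coprime h' (by omega) ha hb) fun m => ?_
      have h4 := h3 m
      constructor
      · intro h5
        rw [h5, mul_zero] at h4
        rcases mul_eq_zero.1 h4.symm with h6 | h6
        · exact absurd h6 hs1'.ne'
        · exact h6
      · intro h5
        rw [h5, mul_zero] at h4
        rcases mul_eq_zero.1 h4 with h6 | h6
        · exact absurd h6 hs1.ne'
        · exact h6
    have hlw : lf D w = lf D' w' := by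
      unfold lf
      rw [hLw]
    have hev : ed D v = ed D' v' := by
      rw [muv_two h hn hv hw hvw, muv_two h' hn' hv' hw' hvw', hlw] at h1
      have e1 : (1 : ℝ) ≤ lf D' w' := by exact_mod_cast lf_pos h' (by omega)
      have e2 : (1 : ℝ) ≤ ed D v := by exact_mod_cast ed_pos h hn v
      have e3 : (1 : ℝ) ≤ ed D' v' := by exact_mod_cast ed_pos h' hn' v'
      rw [div_eq_div_iff (by linarith) (by linarith)] at h1
      have e4 := mul_left_cancel₀ (by linarith : (lf D' w' : ℝ) ≠ 0) h1
      exact_mod_cast e4.symm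
    have hPw : D.P w = D'.P w' := by
      have e1 := sq_add_sq h hn hv hw hvw
      have e2 := sq_add_sq h' hn' hv' hw' hvw'
      rw [h1, h2, e2, ← hPP, div_left_inj' (by linarith)] at e1
      exact_mod_cast e1.symm
    have hew : ed D w = ed D' w' := by
      rw [P_two h hn hw, P_two h' hn' hw', hlw] at hPw
      exact Nat.eq_of_mul_eq_mul_left (lf_pos h' (by omega)) hPw
    refine ⟨?_, hLw, hev, hew⟩
    refine leaves_of_sq h h' (by omega) (by omega) fun k => ?_
    refine sq_eq h h' hGG (fun j => ?_) h1 h2 k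
    have h4 : D.node w = D'.node w' := by
      unfold Diagram.node
      rw [hLw, valence_two h hn hw, valence_two h' hn' hw', hLw]
    rw [sq, sq, coeff_yy, coeff_yy, h4]
  · -- two dominating nodes
    exfalso
    have hGG' := GG_eq h h' hn hn' hG hv hw hvw hw' hv' (Ne.symm hvw') (by rw [hPP, heq])
    have hc2 := card_eq_two_of h h' hn hn' hv hw hvw hw' hv' hGG' hP hc
    have hE' := expand_eq h' hn' hv' hw' hvw' heq hc1 hc2
    have hTT : ∀ k, TT (rr D v) (sq D w) (muv D v w) (nuv D v w) k =
        TT (rr D' v') (sq D' w') (muv D' v' w') (nuv D' v' w') k +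
        TT (rr D' w') (sq D' v') (muv D' w' v') (nuv D' w' v') k := by
      refine eq_of_expand hE fun K => ?_
      refine (hE' K).congr_left fun n => ?_
      rw [hGG n]
    have hms : muv D' w' v' = muv D' v' w' := by
      unfold muv
      rw [heq, lk_symm h' (by omega) (by omega)]
    have hns : nuv D' w' v' = nuv D' v' w' := by
      unfold nuv
      rw [hms, heq]
    have hnear : ∀ᶠ T in 𝓝 (0 : ℝ), EF D v w T = EF D' v' w' T + EF D' w' v' T := by
      filter_upwards [eventually_near (ν := nuv D v w) hμ1,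
        eventually_near (ν := nuv D' v' w') hμ1'] with T h1 h2
      have h3 := hasSum_EF h hn hv hw hvw h1
      have h4 := hasSum_EF h' hn' hv' hw' hvw' h2
      have h5 := hasSum_EF h' hn' hw' hv' (Ne.symm hvw') (T := T) (by rwa [hms, hns])
      simp_rw [hTT, add_div, add_mul] at h3
      have h6 := h3.unique (h4.add h5)
      rw [heq, ← hPP, ← mul_add] at h6
      have h7 : (D.P v : ℝ) / Real.pi ^ 3 ≠ 0 := by positivity
      exact mul_left_cancel₀ h7 h6
    have e1 : sp (D'.leaves v') 1 * sp (D'.leaves w') 2 + sp (D'.leaves w') 1 *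
        sp (D'.leaves v') 2 = sp (D'.leaves v') 1 * sp (D'.leaves w') 1 *
          (cp (D'.leaves w') + cp (D'.leaves v')) := by
      rw [sp_two, sp_two]
      ring
    have hprod : 0 < sp (D'.leaves v') 1 * sp (D'.leaves w') 1 := mul_pos hs1' hw1'
    obtain ⟨-, h1, h2, -⟩ := ident (F := fun z => sp (D.leaves v) 1 * sp (D.leaves w) z)
      (F' := fun z => sp (D'.leaves v') 1 * sp (D'.leaves w') z +
        sp (D'.leaves w') 1 * sp (D'.leaves v') z)
      (q := (D.leaves w).card - 1) (q' := 1) (by omega) (by omega)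
      (an _ _) (fun x => (an _ _ x).add (an _ _ x))
      (fun z => by
        try simp only
        rw [sp_neg, hq _ hcw]
        ring)
      (fun z => by
        try simp only
        rw [sp_neg, sp_neg, hc1, hc2]
        ring)
      ⟨fun z => sp (D.leaves v) 1 * sg (D.leaves w) z,
        fun x => analyticAt_const.mul (analyticAt_sg _ x), fun z => by
          try simp only
          rw [sp_eq (D.leaves w), hq _ hcw]
          ring⟩
      ⟨fun z => sp (D'.leaves v') 1 * sg (D'.leaves w') z +
          sp (D'.leaves w') 1 * sg (D'.leaves v') z,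
        fun x => (analyticAt_const.mul (analyticAt_sg _ x)).add
          (analyticAt_const.mul (analyticAt_sg _ x)), fun z => by
          try simp only
          rw [sp_eq (D'.leaves w') z, sp_eq (D'.leaves v') z, hc1, hc2]
          ring⟩
      (mul_pos hs1 hw1) (by positivity) F2n (by
        try simp only
        rw [e1]
        exact mul_nonneg hprod.le (add_nonneg (cp_nonneg (h'.two_le w' (by omega)))
          (cp_nonneg (h'.two_le v' (by omega))))) F2 (by
        try simp only
        rw [e1]
        intro h0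
        refine cp_add_ne (h'.two_le w' (by omega)) (h'.two_le v' (by omega)) hc2 hc1 ?_
        refine mul_left_cancel₀ hprod.ne' ?_
        rw [h0]
        ring) hμ hμ1 hμ' hμ1' hν hν'
      (by
        filter_upwards [hnear] with T hT
        unfold EF at hT
        rw [gf_eq, gf_eq, gf_eq, gf_eq, gf_eq, gf_eq, hms, hns, hc1, hc2] at hT
        try simp only
        rw [mul_div_assoc, mul_div_assoc, ← mul_add, hT]
        ring)
    have e2 := sq_add_sq h hn hv hw hvw
    have e3 := sq_add_sq h' hn' hv' hw' hvw'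
    have hPv' : (1 : ℝ) ≤ D'.P v' := by exact_mod_cast P_pos h' (by omega : v' ≤ D'.n)
    rw [heq, div_self (by linarith), ← h1, ← h2, e2, div_eq_one_iff_eq (by linarith)] at e3
    have e4 : D.P w = D.P v := by exact_mod_cast e3
    omega

end Pool.Agent.Zk79.LN
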