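import Pool.Agent.Zk79.LN.Pol
import Pool.Agent.Zk79.LN.Gr3
import Pool.Agent.Zk79.LN.Sep2
import Pool.Agent.Zk11.LN.VV
import Pool.Agent.Zk20.LN.IdC
import Pool.Agent.Zk52.LN.ExG
import Pool.Agent.Zk52.LN.ExH
import Pool.Agent.Zk62.LN.Sg

set_option autoImplicit false
set_option maxHeartbeats 400000

/-! Separation of diagrams with two nodes of any valence. -/

namespace Pool.Agent.Zk79.LN

open Finset Pool.Agent.Zk79.LM Pool.Agent.Zk79.LM.Diagram PowerSeries Filter Topology Asymptotics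
open Pool.Agent.Zk20.LN (NN NN_analytic iter HH WW ww ww_pos lim_HH)
open Pool.Agent.Zk11.LN (VVe)
open Pool.Agent.Zk52.LN (expansionG expansionH)
open Pool.Agent.Zk62.LN (Nice shift_gen)

variable {D D' : Diagram}

/-- the function of the node, without denominator -/
noncomputable def Fw (D : Diagram) (w : ℕ) (z : ℝ) : ℝ := lf D w / Real.pi * sp (D.leaves w) z

theorem analyticAt_Fw (D : Diagram) (w : ℕ) (x : ℝ) : AnalyticAt ℝ (Fw D w) x :=
  analyticAt_const.mul (analyticAt_sp _ x)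

theorem Fw_period (h : D.IsSplice) {w : ℕ} (hw : w ≤ D.n) (z : ℝ) :
    Fw D w (z + ((2 * lf D w : ℕ) : ℝ)) = Fw D w z := by
  unfold Fw sp
  congr 1
  refine prod_congr rfl fun b hb => ?_
  have h2 : (2 : ℝ) ≤ b := by exact_mod_cast h.two_le w hw b hb
  obtain ⟨c, hc⟩ : b ∣ lf D w := dvd_prod_of_mem _ hb
  have h3 : Real.pi * (z + ((2 * lf D w : ℕ) : ℝ)) / b = Real.pi * z / b + c * (2 * Real.pi) := by
    rw [hc]
    push_cast
    field_simp
  rw [h3, Real.sin_add_nat_mul_two_pi]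

theorem Ps_eq (h : D.IsSplice) (hn : D.n = 1) {w : ℕ} (hw : w ≤ 1) {z : ℝ} (hz : |z| < 1) :
    Ps (sq D w) z = Fw D w z / Real.sin (Real.pi * z) ^ ((D.leaves w).card - 1) := by
  have h1 : Ps (sq D w) z = lf D w / Real.pi * gf D w z := (hasSum_sq h hn hw hz).tsum_eq
  rw [h1, gf_eq, Fw]
  ring

theorem iter_Ps (h : D.IsSplice) (hn : D.n = 1) {w : ℕ} (hw : w ≤ 1) {z : ℝ} (hz : |z| < 1)
    (i : ℕ) : iteratedDeriv i (Ps (sq D w)) z = iteratedDeriv i (fun z => Fw D w z /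
      Real.sin (Real.pi * z) ^ ((D.leaves w).card - 1)) z := by
  refine Filter.EventuallyEq.iteratedDeriv_eq i ?_
  have h1 : ∀ᶠ y in 𝓝 z, |y| < 1 := (continuous_abs.tendsto z).eventually (gt_mem_nhds hz)
  filter_upwards [h1] with y hy
  exact Ps_eq h hn hw hy

/-- derivatives of periodic functions -/
theorem iter_period {f : ℝ → ℝ} {M : ℝ} (hf : ∀ z, f (z + M) = f z) (i : ℕ) :
    ∀ z, iteratedDeriv i f (z + M) = iteratedDeriv i f z := by
  induction i with
  | zero =>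
    intro z
    rw [iteratedDeriv_zero]
    exact hf z
  | succ i ih =>
    intro z
    rw [iteratedDeriv_succ, ← deriv_comp_add_const (iteratedDeriv i f) M z]
    congr 1
    funext y
    exact ih y

/-- the functions of the node `w` -/
noncomputable def fW (D : Diagram) (w : ℕ) (i : ℕ) : ℝ → ℝ :=
  iteratedDeriv i fun z => Fw D w z / Real.sin (Real.pi * z) ^ ((D.leaves w).card - 1)

theorem fW_nice (D : Diagram) (w : ℕ) (hc : 2 ≤ (D.leaves w).card) (i : ℕ) : Nice (fW D w i) :=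
  ⟨NN (Fw D w) ((D.leaves w).card - 1) i, (D.leaves w).card - 1 + i,
    NN_analytic (analyticAt_Fw D w) _ i, fun z hz => iter (analyticAt_Fw D w) (by omega) i z hz⟩

theorem sin_period (L : ℕ) (z : ℝ) :
    Real.sin (Real.pi * (z + ((2 * L : ℕ) : ℝ))) = Real.sin (Real.pi * z) := by
  have h3 : Real.pi * (z + ((2 * L : ℕ) : ℝ)) = Real.pi * z + L * (2 * Real.pi) := by
    push_cast
    ring
  rw [h3, Real.sin_add_nat_mul_two_pi]

theorem fW_period (h : D.IsSplice) {w : ℕ} (hw : w ≤ D.n) (i : ℕ) (z : ℝ) :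
    fW D w i (z + ((2 * lf D w : ℕ) : ℝ)) = fW D w i z := by
  refine iter_period (fun z => ?_) i z
  rw [Fw_period h hw, sin_period]

/-- the expansion of one of the halves of the sum -/
theorem half3 (h : D.IsSplice) (hn : D.n = 1) {v w Q : ℕ} (hv : v ≤ 1) (hw : w ≤ 1)
    (hvw : v ≠ w) (hP : D.P w ≤ D.P v) {p : ℕ → ℝ} {A : ℝ} (hA : 0 ≤ A)
    (hp : ∀ i : ℕ, |sq D v i - ∑ r ∈ range (Q + 1), p r * rf r i| ≤ A * (1 / 2) ^ i)
    (J : ℕ → ℕ) (hJ : ∀ n, n ≤ 3 * J n + 3) (hJ' : ∀ n, 2 * J n ≤ n) (K : ℕ) :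
    (fun n : ℕ => (∑ j ∈ range (J n + 1), sq D v (n - j) * sq D w j *
      mm (muv D v w) (nuv D v w) n j) / rf Q n - ∑ k ∈ range K,
        ee p Q (sq D w) (muv D v w) (nuv D v w) k * be k (n + Q)) =O[atTop]
      fun n : ℕ => ((n : ℝ) ^ K)⁻¹ := by
  have hP1 : (1 : ℝ) ≤ D.P v := by exact_mod_cast P_pos h (by omega : v ≤ D.n)
  have h1 := sq_add_sq h hn hv hw hvw
  have h2 : (D.P w : ℝ) / D.P v ≤ 1 := by
    rw [div_le_one (by linarith)]
    exact_mod_cast hP
  exact expansionH hA (by norm_num) (by norm_num) (sq_nonneg' h (by omega)) hp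
    (summable_sq D h (by omega)) (muv_pos h hn hv hw hvw) (nuv_pos h hn hv hw hvw)
    (by linarith) J hJ hJ' K

/-- the expansion if `P w < P v` -/
theorem expand3 (h : D.IsSplice) (hn : D.n = 1) {v w Q : ℕ} (hv : v ≤ 1) (hw : w ≤ 1)
    (hvw : v ≠ w) (hP : D.P w < D.P v) {p : ℕ → ℝ} {A : ℝ} (hA : 0 ≤ A)
    (hp : ∀ i : ℕ, |sq D v i - ∑ r ∈ range (Q + 1), p r * rf r i| ≤ A * (1 / 2) ^ i) (K : ℕ) :
    (fun n : ℕ => GG D v w n / rf Q n - ∑ k ∈ range K,
        ee p Q (sq D w) (muv D v w) (nuv D v w) k * be k (n + Q)) =O[atTop]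
      fun n : ℕ => ((n : ℝ) ^ K)⁻¹ := by
  have hP1 : (1 : ℝ) ≤ D.P v := by exact_mod_cast P_pos h (by omega : v ≤ D.n)
  have h1 := sq_add_sq h hn hv hw hvw
  have h2 : (D.P w : ℝ) / D.P v < 1 := by
    rw [div_lt_one (by linarith)]
    exact_mod_cast hP
  exact expansionG hA (by norm_num) (by norm_num) (sq_nonneg' h (by omega)) hp
    (summable_sq D h (by omega)) (muv_pos h hn hv hw hvw) (nuv_pos h hn hv hw hvw)
    (by linarith) K

/-- the first coefficient of the expansion -/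
theorem ee_zero_pos (h : D.IsSplice) (hn : D.n = 1) {v w Q : ℕ} (hv : v ≤ 1) (hw : w ≤ 1)
    (hvw : v ≠ w) (hP : D.P w ≤ D.P v) {p : ℕ → ℝ} (hpQ : 0 < p Q) :
    0 < ee p Q (sq D w) (muv D v w) (nuv D v w) 0 := by
  rw [ee_zero]
  refine mul_pos hpQ (tsum_pos' (sq_nonneg' h (by omega)) ?_ (summable_sq D h (by omega))
    (muv_pos h hn hv hw hvw) (muv_lt_one h hn hv hw hvw hP))
  rw [sq_zero]
  exact one_pos

/-- the product at the node -/
noncomputable def LL (D : Diagram) (v : ℕ) : ℝ :=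
  ∏ a ∈ D.leaves v, ((a : ℝ) / Real.pi * Real.sin (Real.pi / a))

theorem LL_eq (D : Diagram) (v : ℕ) : LL D v = lf D v / Real.pi ^ (D.leaves v).card *
    sp (D.leaves v) 1 := by
  rw [LL, prod_mul_distrib, prod_div_distrib, prod_const, sp_one]
  unfold lf
  push_cast
  rfl

theorem LL_pos (h : D.IsSplice) {v : ℕ} (hv : v ≤ D.n) : 0 < LL D v := by
  refine prod_pos fun a ha => ?_
  have h2 : (2 : ℝ) ≤ a := by exact_mod_cast h.two_le v hv a ha
  have := leaf_sin_pos h hv ha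
  have := Real.pi_pos
  positivity

/-- the series with the coefficients of the expansion -/
theorem series3 (h : D.IsSplice) (hn : D.n = 1) {v w : ℕ} (Q : ℕ) (hv : v ≤ 1) (hw : w ≤ 1)
    (hvw : v ≠ w) (hP : D.P w ≤ D.P v) (p : ℕ → ℝ) :
    ∃ R : ℕ → Polynomial ℝ, (∀ i, (R i).natDegree ≤ 2 * Q) ∧
      (R Q).coeff (2 * Q) = (-1) ^ Q * p Q * muv D v w ^ Q / (2 * muv D v w * dq Q Q) ∧
      ∀ᶠ T in 𝓝 (0 : ℝ), HasSum
        (fun s => ee p Q (sq D w) (muv D v w) (nuv D v w) s / dq Q s * T ^ (2 * s))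
        (∑ i ∈ range (Q + 1), ((R i).eval T * fW D w i (muv D v w + nuv D v w * T) +
          (R i).eval (-T) * fW D w i (muv D v w - nuv D v w * T))) := by
  have hμ1 := muv_lt_one h hn hv hw hvw hP
  obtain ⟨R, h1, h2, h3⟩ := VVe (g := sq D w) (p := p) (Q := Q) (ν := nuv D v w)
    (sq_nonneg' h (by omega)) (summable_sq D h (by omega)) (muv_pos h hn hv hw hvw) hμ1
    (nuv_pos h hn hv hw hvw)
  have hμ := muv_pos h hn hv hw hvw
  refine ⟨R, h1, h2, ?_⟩
  filter_upwards [h3, eventually_near (ν := nuv D v w) hμ1] with T h4 h5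
  have habs := abs_le.1 (le_refl |nuv D v w * T|)
  have i1 := fun i => iter_Ps h hn hw (z := muv D v w + nuv D v w * T)
    (by rw [abs_lt]; constructor <;> linarith) i
  have i2 := fun i => iter_Ps h hn hw (z := muv D v w - nuv D v w * T)
    (by rw [abs_lt]; constructor <;> linarith) i
  unfold fW
  simp_rw [← i1, ← i2]
  exact h4

/-- the hypotheses on the function of a node -/
theorem Fw_facts (h : D.IsSplice) (hn : D.n = 1) {w : ℕ} (hw : w ≤ 1) :
    (∀ z, Fw D w (-z) = (-1) ^ ((D.leaves w).card - 1 + 1) * Fw D w z) ∧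
    (∃ G : ℝ → ℝ, (∀ x, AnalyticAt ℝ G x) ∧
      ∀ z, Fw D w z = z ^ ((D.leaves w).card - 1 + 1) * G z) ∧
    0 < Fw D w 1 ∧ 0 ≤ Fw D w 2 ∧ Fw D w 2 ≠ Fw D w 1 ∧ Fw D w 2 = Fw D w 1 * cp (D.leaves w) := by
  have hcw := card_two_le h hn hw
  have hpi := Real.pi_pos
  have hw1 : 0 < sp (D.leaves w) 1 := sp_one_pos (h.two_le w (by omega))
  have hlf : (1 : ℝ) ≤ lf D w := by exact_mod_cast lf_pos h (by omega : w ≤ D.n)
  have hq : (D.leaves w).card - 1 + 1 = (D.leaves w).card := by omega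
  have hcp := cp_nonneg (h.two_le w (by omega))
  refine ⟨fun z => ?_, ⟨fun z => lf D w / Real.pi * sg (D.leaves w) z,
    fun x => analyticAt_const.mul (analyticAt_sg _ x), fun z => ?_⟩, ?_, ?_, ?_, ?_⟩
  · rw [Fw, Fw, sp_neg, hq]
    ring
  · rw [Fw, sp_eq (D.leaves w), hq]
    ring
  · unfold Fw
    positivity
  · rw [Fw, sp_two]
    positivity
  · unfold Fw
    intro h0
    have h1 := mul_left_cancel₀ (by positivity) h0
    rw [sp_two] at h1
    have h2 : cp (D.leaves w) = 1 := by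
      refine mul_left_cancel₀ hw1.ne' ?_
      rw [h1, mul_one]
    exact cp_ne_one (h.two_le w (by omega)) hcw h2
  · rw [Fw, Fw, sp_two]
    ring

/-- **separation of diagrams with two nodes**, if the products at the nodes are different -/
theorem sepG (h : D.IsSplice) (h' : D'.IsSplice) (hn : D.n = 1) (hn' : D'.n = 1)
    (hG : ∀ k, |coeff k D.gaussSeries| = |coeff k D'.gaussSeries|) {v w v' w' : ℕ} (hv : v ≤ 1)
    (hw : w ≤ 1) (hvw : v ≠ w) (hv' : v' ≤ 1) (hw' : w' ≤ 1) (hvw' : v' ≠ w')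
    (hPP : D.P v = D'.P v') (hP : D.P w < D.P v) (hP' : D'.P w' < D'.P v') :
    D.leaves v = D'.leaves v' ∧ D.leaves w = D'.leaves w' ∧ ed D v = ed D' v' ∧
      ed D w = ed D' w' := by
  have hGG := GG_eq h h' hn hn' hG hv hw hvw hv' hw' hvw' hPP
  have hμ := muv_pos h hn hv hw hvw
  have hμ' := muv_pos h' hn' hv' hw' hvw'
  have hμ1 := muv_lt_one h hn hv hw hvw hP.le
  have hμ1' := muv_lt_one h' hn' hv' hw' hvw' hP'.le
  have hν := nuv_pos h hn hv hw hvw
  have hν' := nuv_pos h' hn' hv' hw' hvw'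
  have hPv : (1 : ℝ) ≤ D.P v := by exact_mod_cast P_pos h (by omega : v ≤ D.n)
  have hcv := card_two_le h hn hv
  have hcv' := card_two_le h' hn' hv'
  have hcw := card_two_le h hn hw
  have hcw' := card_two_le h' hn' hw'
  have hpi := Real.pi_pos
  have hlf : (1 : ℝ) ≤ lf D w := by exact_mod_cast lf_pos h (by omega : w ≤ D.n)
  have hlf' : (1 : ℝ) ≤ lf D' w' := by exact_mod_cast lf_pos h' (by omega : w' ≤ D'.n)
  have hvv := valence_two h hn hv
  have hvv' := valence_two h' hn' hv'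
  -- the expansions
  obtain ⟨Q, hQ⟩ : ∃ Q, (D.leaves v).card = Q + 2 := ⟨(D.leaves v).card - 2, by omega⟩
  obtain ⟨Q', hQ'⟩ : ∃ Q', (D'.leaves v').card = Q' + 2 := ⟨(D'.leaves v').card - 2, by omega⟩
  obtain ⟨p, A, hA, hpQ, hp⟩ := exists_pol h (v := v) (Q := Q) (by omega) (by omega)
  obtain ⟨p', A', hA', hpQ', hp'⟩ := exists_pol h' (v := v') (Q := Q') (by omega) (by omega)
  have hpos : 0 < p Q := by
    have h1 := LL_pos h (v := v) (by omega)
    rw [← LL] at hpQ
    have h2 : (0 : ℝ) < Q.factorial := by exact_mod_cast Q.factorial_pos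
    by_contra hcon
    push Not at hcon
    nlinarith
  have hpos' : 0 < p' Q' := by
    have h1 := LL_pos h' (v := v') (by omega)
    rw [← LL] at hpQ'
    have h2 : (0 : ℝ) < Q'.factorial := by exact_mod_cast Q'.factorial_pos
    by_contra hcon
    push Not at hcon
    nlinarith
  have hE := expand3 h hn hv hw hvw hP hA hp
  have hE' := expand3 h' hn' hv' hw' hvw' hP' hA' hp'
  simp_rw [← hGG] at hE'
  have e0 := (ee_zero_pos h hn hv hw hvw hP.le (Q := Q) hpos).ne'
  have e0' := (ee_zero_pos h' hn' hv' hw' hvw' hP'.le (Q := Q') hpos').ne'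
  have hQQ : Q = Q' := le_antisymm (degree_le e0 (hE' 1) (hE 1)) (degree_le e0' (hE 1) (hE' 1))
  subst hQQ
  have hee : ∀ k, ee p Q (sq D w) (muv D v w) (nuv D v w) k =
      ee p' Q (sq D' w') (muv D' v' w') (nuv D' v' w') k := eq_of_expandQ hE hE'
  obtain ⟨R, hR1, hR2, hR3⟩ := series3 h hn Q hv hw hvw hP.le p
  obtain ⟨R', hR1', hR2', hR3'⟩ := series3 h' hn' Q hv' hw' hvw' hP'.le p'
  have hlim := shift_gen (s := range (Q + 1)) (s' := range (Q + 1)) (f := fW D w)
    (f' := fW D' w') (Q := Q) (M := 2 * lf D w) (M' := 2 * lf D' w')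
    (by have := lf_pos h (by omega : w ≤ D.n); omega)
    (by have := lf_pos h' (by omega : w' ≤ D'.n); omega)
    (fun i _ => fW_nice D w hcw i) (fun i _ => fW_nice D' w' hcw' i)
    (fun i _ z => fW_period h (by omega) i z) (fun i _ z => fW_period h' (by omega) i z)
    (fun i _ => hR1 i) (fun i _ => hR1' i) hμ hμ1 hμ' hμ1' hν hν' (by
      filter_upwards [hR3, hR3'] with T h1 h2
      simp_rw [hee] at h1
      exact h1.unique h2)
  have hdq : dq Q Q ≠ 0 := by
    refine prod_ne_zero_iff.2 fun t ht => ?_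
    have h1 : (t : ℝ) + 1 ≤ Q := by exact_mod_cast mem_range.1 ht
    intro h0
    linarith
  have ha : (R Q).coeff (2 * Q) ≠ 0 := by
    rw [hR2]
    have : (-1 : ℝ) ^ Q ≠ 0 := pow_ne_zero _ (by norm_num)
    have := hpos.ne'
    have := hμ.ne'
    positivity
  have ha' : (R' Q).coeff (2 * Q) ≠ 0 := by
    rw [hR2']
    have : (-1 : ℝ) ^ Q ≠ 0 := pow_ne_zero _ (by norm_num)
    have := hpos'.ne'
    have := hμ'.ne'
    positivity
  obtain ⟨f1, f2, f3, f4, f5, -⟩ := Fw_facts h hn hw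
  obtain ⟨f1', f2', f3', f4', f5', -⟩ := Fw_facts h' hn' hw'
  obtain ⟨-, h1, h2, c, hc0, h3⟩ := Pool.Agent.Zk20.LN.identC (F := Fw D w) (F' := Fw D' w')
    (κ := (D.leaves w).card - 1) (κ' := (D'.leaves w').card - 1) (Q := Q)
    (a := fun i => (R i).coeff (2 * Q)) (a' := fun i => (R' i).coeff (2 * Q)) ha ha'
    (by omega) (by omega) (analyticAt_Fw D w) (analyticAt_Fw D' w') f1 f1' f2 f2' f3 f3' f4 f4'
    f5 f5' hμ hμ1 hμ' hμ1' hν hν' hlim
  have hLw : D.leaves w = D'.leaves w' := by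
    refine set_eq (h.two_le w (by omega)) (h'.two_le w' (by omega))
      (fun a ha b hb => leaves_coprime h (by omega) ha hb)
      (fun a ha b hb => leaves_coprime h' (by omega) ha hb) fun m => ?_
    have h4 := h3 m
    unfold Fw at h4
    have k1 : (lf D w : ℝ) / Real.pi ≠ 0 := by positivity
    have k2 : (lf D' w' : ℝ) / Real.pi ≠ 0 := by positivity
    constructor
    · intro h5
      rw [h5, mul_zero] at h4
      exact (mul_eq_zero.1 ((mul_eq_zero.1 h4.symm).resolve_left hc0)).resolve_left k2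
    · intro h5
      rw [h5, mul_zero, mul_zero] at h4
      exact (mul_eq_zero.1 h4).resolve_left k1
  have hlw : lf D w = lf D' w' := by
    unfold lf
    rw [hLw]
  have hev : ed D v = ed D' v' := by
    rw [muv_two h hn hv hw hvw, muv_two h' hn' hv' hw' hvw', hlw] at h1
    have e1 : (1 : ℝ) ≤ lf D' w' := by exact_mod_cast lf_pos h' (by omega)
    have e2 : (1 : ℝ) ≤ ed D v := by exact_mod_cast ed_pos h hn v
    have e3 : (1 : ℝ) ≤ ed D' v' := by exact_mod_cast ed_pos h' hn' v'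
    rw [div_eq_div_iff (by linarith) (by linarith)] at h1
    have e4 := mul_left_cancel₀ (by linarith : (lf D' w' : ℝ) ≠ 0) h1
    exact_mod_cast e4.symm
  have hPw : D.P w = D'.P w' := by
    have e1 := sq_add_sq h hn hv hw hvw
    have e2 := sq_add_sq h' hn' hv' hw' hvw'
    rw [h1, h2, e2, ← hPP, div_left_inj' (by linarith)] at e1
    exact_mod_cast e1.symm
  have hew : ed D w = ed D' w' := by
    rw [P_two h hn hw, P_two h' hn' hw', hlw] at hPw
    exact Nat.eq_of_mul_eq_mul_left (lf_pos h' (by omega)) hPw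
  refine ⟨?_, hLw, hev, hew⟩
  refine leaves_of_sq h h' (by omega) (by omega) fun k => ?_
  refine sq_eq h h' hGG (fun j => ?_) h1 h2 k
  have h4 : D.node w = D'.node w' := by
    unfold Diagram.node
    rw [hLw, valence_two h hn hw, valence_two h' hn' hw', hLw]
  rw [sq, sq, coeff_yy, coeff_yy, h4]

end Pool.Agent.Zk79.LN
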