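import Pool.Agent.Zk79.LN.Tie3
import Pool.Agent.Zk11.LN.VVf

set_option autoImplicit false
set_option maxHeartbeats 400000

/-! The data of one diagram with two nodes. -/

namespace Pool.Agent.Zk79.LN

open Finset Pool.Agent.Zk79.LM Pool.Agent.Zk79.LM.Diagram PowerSeries Filter Topology Asymptotics
open Pool.Agent.Zk20.LN (NN NN_analytic iter HH WW ww ww_pos lim_HH EC firstC firstC_ne Hyp)
open Pool.Agent.Zk11.LN (VVf)
open Pool.Agent.Zk62.LN (Nice)

variable {D D' : Diagram}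

/-- the series with the coefficients of the expansion -/
theorem series5 (h : D.IsSplice) (hn : D.n = 1) {v w : ℕ} (Q : ℕ) (hv : v ≤ 1) (hw : w ≤ 1)
    (hvw : v ≠ w) (hP : D.P w ≤ D.P v) (p : ℕ → ℝ) :
    ∃ R : ℕ → Polynomial ℝ, (∀ i, (R i).natDegree ≤ 2 * Q) ∧
      (R Q).coeff (2 * Q) = (-1) ^ Q * p Q * muv D v w ^ Q / (2 * muv D v w * dq Q Q) ∧
      (R 0).coeff 0 = p Q / (2 * muv D v w) ∧ (∀ i, 1 ≤ i → (R i).coeff 0 = 0) ∧
      ∀ᶠ T in 𝓝 (0 : ℝ), HasSum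
        (fun s => ee p Q (sq D w) (muv D v w) (nuv D v w) s / dq Q s * T ^ (2 * s))
        (∑ i ∈ range (Q + 1), ((R i).eval T * fW D w i (muv D v w + nuv D v w * T) +
          (R i).eval (-T) * fW D w i (muv D v w - nuv D v w * T))) := by
  have hμ1 := muv_lt_one h hn hv hw hvw hP
  obtain ⟨R, h1, h2, h2a, h2b, h3⟩ := VVf (g := sq D w) (p := p) (Q := Q) (ν := nuv D v w)
    (sq_nonneg' h (by omega)) (summable_sq D h (by omega)) (muv_pos h hn hv hw hvw) hμ1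
    (nuv_pos h hn hv hw hvw)
  have hμ := muv_pos h hn hv hw hvw
  refine ⟨R, h1, h2, h2a, h2b, ?_⟩
  filter_upwards [h3, eventually_near (ν := nuv D v w) hμ1] with T h4 h5
  have habs := abs_le.1 (le_refl |nuv D v w * T|)
  have i1 := fun i => iter_Ps h hn hw (z := muv D v w + nuv D v w * T)
    (by rw [abs_lt]; constructor <;> linarith) i
  have i2 := fun i => iter_Ps h hn hw (z := muv D v w - nuv D v w * T)
    (by rw [abs_lt]; constructor <;> linarith) i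
  unfold fW
  simp_rw [← i1, ← i2]
  exact h4

theorem ww_fact (n k : ℕ) : ww (n + 1) k * n.factorial = (n + k).factorial := by
  induction k with
  | zero => simp [ww]
  | succ k ih =>
    have h1 : ww (n + 1) (k + 1) = ww (n + 1) k * (((n + 1 : ℕ) : ℝ) + k) := by
      unfold ww
      rw [prod_range_succ]
    rw [h1, ← add_assoc, Nat.factorial_succ]
    push_cast
    linear_combination ((n : ℝ) + 1 + k) * ih

/-- the value of the leading coefficient -/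
theorem pQ_val (h : D.IsSplice) (hn : D.n = 1) {v Q : ℕ} (hv : v ≤ 1)
    (hQ : (D.leaves v).card = Q + 2) {p : ℕ → ℝ}
    (hp : p Q * Q.factorial = 2 * ∏ a ∈ D.leaves v, ((a : ℝ) / Real.pi * Real.sin (Real.pi / a))) :
    p Q * Q.factorial * Real.pi ^ (Q + 1) = 2 * Fw D v 1 := by
  rw [← LL, LL_eq, hQ] at hp
  rw [hp, Fw]
  have := Real.pi_pos
  have e : Real.pi ^ (Q + 2) = Real.pi ^ (Q + 1) * Real.pi := by ring
  rw [e]
  field_simp

theorem pQ_pos (h : D.IsSplice) (hn : D.n = 1) {v Q : ℕ} (hv : v ≤ 1) {p : ℕ → ℝ}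
    (hp : p Q * Q.factorial = 2 * ∏ a ∈ D.leaves v, ((a : ℝ) / Real.pi * Real.sin (Real.pi / a))) :
    0 < p Q := by
  have h1 := LL_pos h (v := v) (by omega)
  rw [← LL] at hp
  have h2 : (0 : ℝ) < Q.factorial := by exact_mod_cast Q.factorial_pos
  by_contra hcon
  push Not at hcon
  nlinarith

theorem hypW (h : D.IsSplice) (hn : D.n = 1) {w : ℕ} (hw : w ≤ 1) {μ ν : ℝ} (hμ : 0 < μ)
    (hμ1 : μ < 1) (hν : 0 < ν) : Hyp (Fw D w) ((D.leaves w).card - 1) μ ν := by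
  obtain ⟨f1, f2, f3, f4, f5, -⟩ := Fw_facts h hn hw
  have := card_two_le h hn hw
  exact ⟨by omega, analyticAt_Fw D w, f1, f2, f3, f4, f5, hμ, hμ1, hν⟩

theorem EC_eq (D : Diagram) (w Q : ℕ) (a : ℕ → ℝ) (μ ν T : ℝ) :
    EC (Fw D w) ((D.leaves w).card - 1) Q a μ ν T =
      ∑ i ∈ range (Q + 1), a i * (fW D w i (μ + ν * T) + fW D w i (μ - ν * T)) := by
  simp only [EC, HH, mul_add, sum_add_distrib]
  rfl

theorem dq_sign (Q : ℕ) : 0 < (-1) ^ Q * dq Q Q := by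
  unfold dq
  have h1 : (-1 : ℝ) ^ Q = ∏ _t ∈ range Q, (-1 : ℝ) := by rw [prod_const, card_range]
  rw [h1, ← prod_mul_distrib]
  refine prod_pos fun t ht => ?_
  have h2 : (t : ℝ) + 1 ≤ Q := by exact_mod_cast mem_range.1 ht
  linarith

/-- the pole for the sum of two families -/
theorem two_poles (h : D.IsSplice) (hn : D.n = 1) {v w d Qw : ℕ} (hv : v ≤ 1) (hw : w ≤ 1)
    (hQ : (D.leaves v).card = Qw + d + 2) (hQw : (D.leaves w).card = Qw + 2)
    {μ ν : ℝ} (hμ : 0 < μ) (hμ1 : μ < 1) (hν : 0 < ν) {pv pw : ℕ → ℝ}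
    (hpv : pv (Qw + d) * (Qw + d).factorial =
      2 * ∏ a ∈ D.leaves v, ((a : ℝ) / Real.pi * Real.sin (Real.pi / a)))
    (hpw : pw Qw * Qw.factorial =
      2 * ∏ a ∈ D.leaves w, ((a : ℝ) / Real.pi * Real.sin (Real.pi / a)))
    {a a' : ℕ → ℝ}
    (ha : a (Qw + d) = (-1) ^ (Qw + d) * pv (Qw + d) * μ ^ (Qw + d) /
      (2 * μ * dq (Qw + d) (Qw + d)))
    (ha' : a' Qw = 1 / dq (Qw + d) d * ((-1) ^ Qw * pw Qw * μ ^ Qw / (2 * μ * dq Qw Qw))) :
    ∃ c : ℝ, c ≠ 0 ∧ Tendsto (fun T => (T - (1 - μ) / ν) ^ (Qw + 1 + (Qw + d)) *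
      (∑ i ∈ range (Qw + d + 1), a i * (fW D w i (μ + ν * T) + fW D w i (μ - ν * T)) +
        ∑ i ∈ range (Qw + 1), a' i * (fW D v i (μ + ν * T) + fW D v i (μ - ν * T))))
      (𝓝[≠] ((1 - μ) / ν)) (𝓝 c) := by
  have hT : μ + ν * ((1 - μ) / ν) = 1 := by
    field_simp
    ring
  have h1 := firstC (hypW h hn hw hμ hμ1 hν) (Qw + d) a hT
  have h2 := firstC (hypW h hn hv hμ hμ1 hν) Qw a' hT
  have k1 : (D.leaves w).card - 1 = Qw + 1 := by omega
  have k2 : (D.leaves v).card - 1 = Qw + d + 1 := by omega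
  simp only [EC_eq] at h1 h2
  rw [k1] at h1
  rw [k2, (by omega : Qw + d + 1 + Qw = Qw + 1 + (Qw + d))] at h2
  have h3 := h1.add h2
  refine ⟨_, ?_, h3.congr fun T => by ring⟩
  intro h0
  obtain ⟨-, -, f3, -, -, -⟩ := Fw_facts h hn hw
  obtain ⟨-, -, g3, -, -, -⟩ := Fw_facts h hn hv
  have hpi := Real.pi_pos
  have ppv := pQ_pos h hn hv hpv
  have ppw := pQ_pos h hn hw hpw
  have e1 := pQ_val h hn hv (by omega : (D.leaves v).card = Qw + d + 2) hpv
  have e2 := pQ_val h hn hw hQw hpw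
  have w1 := ww_fact Qw (Qw + d)
  have w2 := ww_fact (Qw + d) Qw
  have wp1 : 0 < ww (Qw + 1) (Qw + d) := ww_pos (by omega) _
  have wp2 : 0 < ww (Qw + d + 1) Qw := ww_pos (by omega) _
  have hdq1 := dq_ne' (Qw + d) (Qw + d)
  have hdq2 := dq_ne' (Qw + d) d
  have hdq3 := dq_ne' Qw Qw
  have hdq : dq (Qw + d) (Qw + d) = dq (Qw + d) d * dq Qw Qw := by
    rw [← dq_add, add_comm d Qw]
  obtain ⟨Xw, hXw⟩ : ∃ Xw, Xw = pv (Qw + d) * μ ^ (Qw + d) * ww (Qw + 1) (Qw + d) * Fw D w 1 /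
    Real.pi ^ (Qw + 1) := ⟨_, rfl⟩
  obtain ⟨Xv, hXv⟩ : ∃ Xv, Xv = pw Qw * μ ^ Qw * ww (Qw + d + 1) Qw * Fw D v 1 /
    Real.pi ^ (Qw + d + 1) := ⟨_, rfl⟩
  have hXwp : 0 < Xw := by
    rw [hXw]
    positivity
  have hXvp : 0 < Xv := by
    rw [hXv]
    positivity
  have hs1 : ∀ n : ℕ, (-1 : ℝ) ^ n * (-1) ^ n = 1 := fun n => by
    rw [← mul_pow]
    norm_num
  have hsum : (-1) ^ (Qw + 1) * Xw + (-1) ^ (Qw + d + 1) * Xv = 0 := by
    have h4 : WW (Qw + 1) (Qw + d) a * (Fw D w 1 * (-1) ^ (Qw + 1) / Real.pi ^ (Qw + 1) /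
        ν ^ (Qw + 1 + (Qw + d))) = (-1) ^ (Qw + 1) * Xw /
          (2 * μ * dq (Qw + d) (Qw + d) * ν ^ (Qw + 1 + (Qw + d))) := by
      rw [WW, ha, hXw]
      have := hs1 (Qw + d)
      field_simp
      linear_combination this
    have h5 : WW (Qw + d + 1) Qw a' * (Fw D v 1 * (-1) ^ (Qw + d + 1) / Real.pi ^ (Qw + d + 1) /
        ν ^ (Qw + 1 + (Qw + d))) = (-1) ^ (Qw + d + 1) * Xv /
          (2 * μ * dq (Qw + d) (Qw + d) * ν ^ (Qw + 1 + (Qw + d))) := by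
      rw [WW, ha', hXv, hdq]
      have := hs1 Qw
      field_simp
      linear_combination this
    rw [h4, h5, ← add_div, div_eq_zero_iff] at h0
    refine h0.resolve_right ?_
    have := hμ.ne'
    have := (pow_pos hν (Qw + 1 + (Qw + d))).ne'
    exact mul_ne_zero (mul_ne_zero (mul_ne_zero two_ne_zero hμ.ne') hdq1) this
  have hrat : Xw * μ ^ Qw = Xv * μ ^ (Qw + d) := by
    have q1 : (0 : ℝ) < (Qw + d).factorial := by exact_mod_cast Nat.factorial_pos _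
    have q2 : (0 : ℝ) < Qw.factorial := by exact_mod_cast Nat.factorial_pos _
    have r1 : pv (Qw + d) = 2 * Fw D v 1 / ((Qw + d).factorial * Real.pi ^ (Qw + d + 1)) := by
      rw [eq_div_iff (by positivity), ← e1]
      ring
    have r2 : pw Qw = 2 * Fw D w 1 / (Qw.factorial * Real.pi ^ (Qw + 1)) := by
      rw [eq_div_iff (by positivity), ← e2]
      ring
    have r3 : ww (Qw + 1) (Qw + d) = (Qw + (Qw + d)).factorial / Qw.factorial := by
      rw [eq_div_iff q2.ne', w1]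
    have r4 : ww (Qw + d + 1) Qw = (Qw + (Qw + d)).factorial / (Qw + d).factorial := by
      rw [eq_div_iff q1.ne', w2, add_comm Qw (Qw + d)]
    rw [hXw, hXv, r1, r2, r3, r4]
    have := hpi.ne'
    field_simp
  rcases Nat.eq_zero_or_pos d with rfl | hd
  · have h6 : (-1 : ℝ) ^ (Qw + 1) * (Xw + Xv) = 0 := by
      rw [add_zero] at hsum
      linear_combination hsum
    rcases mul_eq_zero.1 h6 with h7 | h7
    · exact absurd h7 (pow_ne_zero _ (by norm_num))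
    · linarith
  · have h6 : Xw = Xv := by
      have h7 : (-1 : ℝ) ^ (Qw + 1) * (Xw + (-1) ^ d * Xv) = 0 := by
        rw [← hsum]
        ring
      have h8 := (mul_eq_zero.1 h7).resolve_left (pow_ne_zero _ (by norm_num))
      rcases neg_one_pow_eq_or ℝ d with h9 | h9
      · rw [h9] at h8
        linarith
      · rw [h9] at h8
        linarith
    rw [h6] at hrat
    have h7 := mul_left_cancel₀ hXvp.ne' hrat
    have h8 : μ ^ (Qw + d) < μ ^ Qw := pow_lt_pow_right_of_lt_one₀ hμ hμ1 (by omega)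
    linarith

end Pool.Agent.Zk79.LN
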