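import Pool.Agent.Zk79.LN.Side5

set_option autoImplicit false
set_option maxHeartbeats 400000

/-! The data of one diagram with two nodes, put together. -/

namespace Pool.Agent.Zk79.LN

open Finset Pool.Agent.Zk79.LM Pool.Agent.Zk79.LM.Diagram PowerSeries Filter Topology Asymptotics
open Pool.Agent.Zk20.LN (EC firstC firstC_ne Hyp)
open Pool.Agent.Zk62.LN (Nice)

variable {D D' : Diagram}

/-- the data of one diagram with two nodes -/
structure SideData (D : Diagram) (v w Q : ℕ) where
  e : ℕ → ℝ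
  s : Finset (ℕ ⊕ ℕ)
  f : ℕ ⊕ ℕ → ℝ → ℝ
  R : ℕ ⊕ ℕ → Polynomial ℝ
  M : ℕ
  F : ℝ → ℝ
  e_pos : 0 < e 0
  expand : ∀ K : ℕ, (fun n : ℕ => GG D v w n / rf Q n - ∑ k ∈ range K, e k * be k (n + Q))
    =O[atTop] fun n : ℕ => ((n : ℝ) ^ K)⁻¹
  M_pos : 0 < M
  nice : ∀ i ∈ s, Nice (f i)
  per : ∀ i ∈ s, ∀ z, f i (z + M) = f i z
  deg : ∀ i ∈ s, (R i).natDegree ≤ 2 * Q
  series : ∀ᶠ T in 𝓝 (0 : ℝ), HasSum (fun k => e k / dq Q k * T ^ (2 * k))
    (∑ i ∈ s, ((R i).eval T * f i (muv D v w + nuv D v w * T) +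
      (R i).eval (-T) * f i (muv D v w - nuv D v w * T)))
  const : ∀ z, ∑ i ∈ s, (R i).coeff 0 * f i z =
    F z / Real.sin (Real.pi * z) ^ ((D.leaves w).card - 1)
  pole : ∃ (N : ℕ) (T₀ c : ℝ), 1 ≤ N ∧ c ≠ 0 ∧ Tendsto (fun T => (T - T₀) ^ N *
    ∑ i ∈ s, (R i).coeff (2 * Q) * (f i (muv D v w + nuv D v w * T) +
      f i (muv D v w - nuv D v w * T))) (𝓝[≠] T₀) (𝓝 c)
  hF : ∀ x, AnalyticAt ℝ F x
  par : ∀ z, F (-z) = (-1) ^ ((D.leaves w).card - 1 + 1) * F z
  fac : ∃ G : ℝ → ℝ, (∀ x, AnalyticAt ℝ G x) ∧ ∀ z, F z = z ^ ((D.leaves w).card - 1 + 1) * G z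
  one : 0 < F 1
  two : 0 ≤ F 2
  ne : F 2 ≠ F 1
  desc : ((D.P w < D.P v ∨ (D.leaves w).card < (D.leaves v).card) ∧
      ∃ c : ℝ, 0 < c ∧ ∀ z, F z = c * sp (D.leaves w) z) ∨
    (D.P w = D.P v ∧ (D.leaves w).card = (D.leaves v).card ∧ ∃ α β : ℝ, 0 < α ∧ 0 < β ∧
      (∀ z, F z = α * sp (D.leaves w) z + β * sp (D.leaves v) z) ∧
      α = D.P v / (Q.factorial * Real.pi ^ (Q + 3)) * sp (D.leaves v) 1 ∧
      β = D.P v / (Q.factorial * Real.pi ^ (Q + 3)) * sp (D.leaves w) 1)

theorem fW_zero (D : Diagram) (w : ℕ) (z : ℝ) : fW D w 0 z =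
    Fw D w z / Real.sin (Real.pi * z) ^ ((D.leaves w).card - 1) := by
  unfold fW
  rw [iteratedDeriv_zero]

theorem sum_const {R : ℕ → Polynomial ℝ} {c : ℝ} (h0 : (R 0).coeff 0 = c)
    (h1 : ∀ i, 1 ≤ i → (R i).coeff 0 = 0) (Q : ℕ) (g : ℕ → ℝ) :
    ∑ i ∈ range (Q + 1), (R i).coeff 0 * g i = c * g 0 := by
  rw [sum_eq_single 0, h0]
  · intro i _ hi
    rw [h1 i (by omega), zero_mul]
  · intro h
    exact absurd (mem_range.2 (by omega)) h

/-- the product of the leaves at both nodes -/
theorem lf_mul_side (h : D.IsSplice) (hn : D.n = 1) {v w : ℕ} (hv : v ≤ 1) (hw : w ≤ 1)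
    (hvw : v ≠ w) : (lf D v : ℝ) * lf D w / muv D v w = D.P v := by
  rw [muv_two h hn hv hw hvw, P_two h hn hv]
  have e1 : (1 : ℝ) ≤ lf D w := by exact_mod_cast lf_pos h (by omega)
  have e2 : (1 : ℝ) ≤ ed D v := by exact_mod_cast ed_pos h hn v
  push_cast
  field_simp

theorem side_single (h : D.IsSplice) (hn : D.n = 1) {v w Q : ℕ} (hv : v ≤ 1) (hw : w ≤ 1)
    (hvw : v ≠ w) (hQ : (D.leaves v).card = Q + 2) (hP : D.P w < D.P v) :
    Nonempty (SideData D v w Q) := by
  have hμ := muv_pos h hn hv hw hvw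
  have hμ1 := muv_lt_one h hn hv hw hvw hP.le
  have hν := nuv_pos h hn hv hw hvw
  have hcw := card_two_le h hn hw
  have hvv := valence_two h hn hv
  obtain ⟨p, A, hA, hpQ, hp⟩ := exists_pol h (v := v) (Q := Q) (by omega) (by omega)
  have hpos := pQ_pos h hn hv hpQ
  obtain ⟨R, hR1, hR2, hR0, hR0', hR3⟩ := series5 h hn Q hv hw hvw hP.le p
  obtain ⟨f1, f2, f3, f4, f5, f6⟩ := Fw_facts h hn hw
  obtain ⟨G, hG1, hG2⟩ := f2
  have hc : 0 < p Q / (2 * muv D v w) := by positivity
  refine ⟨{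
    e := ee p Q (sq D w) (muv D v w) (nuv D v w)
    s := (range (Q + 1)).disjSum ∅
    f := Sum.elim (fW D w) (fW D v)
    R := Sum.elim R fun _ => 0
    M := 2 * lf D w
    F := fun z => p Q / (2 * muv D v w) * Fw D w z
    e_pos := ee_zero_pos h hn hv hw hvw hP.le hpos
    expand := expand3 h hn hv hw hvw hP hA hp
    M_pos := ?_
    nice := ?_
    per := ?_
    deg := ?_
    series := ?_
    const := ?_
    pole := ?_
    hF := fun x => analyticAt_const.mul (analyticAt_Fw D w x)
    par := fun z => ?_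
    fac := ⟨fun z => p Q / (2 * muv D v w) * G z, fun x => analyticAt_const.mul (hG1 x),
      fun z => ?_⟩
    one := mul_pos hc f3
    two := mul_nonneg hc.le f4
    ne := fun h0 => f5 (mul_left_cancel₀ hc.ne' h0)
    desc := Or.inl ⟨Or.inl hP, p Q / (2 * muv D v w) * (lf D w / Real.pi), ?_, fun z => ?_⟩ }⟩
  · have := lf_pos h (by omega : w ≤ D.n)
    omega
  · rintro (i | i) hi
    · exact fW_nice D w hcw i
    · exact absurd (inr_mem_disjSum.1 hi) (notMem_empty _)
  · rintro (i | i) hi z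
    · exact fW_period h (by omega) i z
    · exact absurd (inr_mem_disjSum.1 hi) (notMem_empty _)
  · rintro (i | i) hi
    · exact hR1 i
    · exact absurd (inr_mem_disjSum.1 hi) (notMem_empty _)
  · filter_upwards [hR3] with T hT
    rw [sum_disjSum, sum_empty, add_zero]
    exact hT
  · intro z
    rw [sum_disjSum, sum_empty, add_zero]
    simp only [Sum.elim_inl]
    rw [sum_const hR0 hR0', fW_zero]
    ring
  · have ha : (fun i => (R i).coeff (2 * Q)) Q ≠ 0 := by
      simp only
      rw [hR2]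
      have : (-1 : ℝ) ^ Q ≠ 0 := pow_ne_zero _ (by norm_num)
      have := hpos.ne'
      have := hμ.ne'
      have := dq_ne' Q Q
      positivity
    have hT : muv D v w + nuv D v w * ((1 - muv D v w) / nuv D v w) = 1 := by
      field_simp
      ring
    refine ⟨(D.leaves w).card - 1 + Q, (1 - muv D v w) / nuv D v w, _, by omega,
      firstC_ne (Q := Q) (a := fun i => (R i).coeff (2 * Q)) (hypW h hn hw hμ hμ1 hν) ha,
      (firstC (hypW h hn hw hμ hμ1 hν) Q (fun i => (R i).coeff (2 * Q)) hT).congr fun T => ?_⟩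
    rw [EC_eq, sum_disjSum, sum_empty, add_zero]
    rfl
  · rw [f1]
    ring
  · rw [hG2]
    ring
  · have : (1 : ℝ) ≤ lf D w := by exact_mod_cast lf_pos h (by omega : w ≤ D.n)
    have := Real.pi_pos
    positivity
  · rw [Fw]
    ring

theorem side_tie (h : D.IsSplice) (hn : D.n = 1) {v w d Qw : ℕ} (hv : v ≤ 1) (hw : w ≤ 1)
    (hvw : v ≠ w) (hQ : (D.leaves v).card = Qw + d + 2) (hQw : (D.leaves w).card = Qw + 2)
    (hP : D.P w = D.P v) (hcp : d = 0 → cp (D.leaves w) + cp (D.leaves v) ≠ 2) :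
    Nonempty (SideData D v w (Qw + d)) := by
  have hμ := muv_pos h hn hv hw hvw
  have hμ1 := muv_lt_one h hn hv hw hvw hP.le
  have hν := nuv_pos h hn hv hw hvw
  have hcw := card_two_le h hn hw
  have hcv := card_two_le h hn hv
  have hvv := valence_two h hn hv
  have hww := valence_two h hn hw
  have hms : muv D w v = muv D v w := by
    unfold muv
    rw [hP, lk_symm h (by omega) (by omega)]
  have hns : nuv D w v = nuv D v w := by
    unfold nuv
    rw [hms, hP]
  have hpi := Real.pi_pos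
  have hlv : (1 : ℝ) ≤ lf D v := by exact_mod_cast lf_pos h (by omega : v ≤ D.n)
  have hlw : (1 : ℝ) ≤ lf D w := by exact_mod_cast lf_pos h (by omega : w ≤ D.n)
  obtain ⟨pv, A, hA, hpv, hp⟩ := exists_pol h (v := v) (Q := Qw + d) (by omega) (by omega)
  obtain ⟨pw, A', hA', hpw, hp'⟩ := exists_pol h (v := w) (Q := Qw) (by omega) (by omega)
  have hposv := pQ_pos h hn hv hpv
  have hposw := pQ_pos h hn hw hpw
  obtain ⟨R, hR1, hR2, hR0, hR0', hR3⟩ := series5 h hn (Qw + d) hv hw hvw hP.le pv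
  obtain ⟨S, hS1, hS2, hS0, hS0', hS3⟩ := series5 h hn Qw hw hv (Ne.symm hvw) hP.ge pw
  rw [hms] at hS0 hS2
  rw [hms, hns] at hS3
  obtain ⟨f1, ⟨G, hG1, hG2⟩, f3, f4, f5, f6⟩ := Fw_facts h hn hw
  obtain ⟨g1, ⟨G', hG1', hG2'⟩, g3, g4, g5, g6⟩ := Fw_facts h hn hv
  have hc : 0 < pv (Qw + d) / (2 * muv D v w) := by positivity
  have hc' : 0 < pw Qw / (2 * muv D v w) := by positivity
  obtain ⟨b, hb⟩ : ∃ b : ℝ, b = if d = 0 then pw Qw / (2 * muv D v w) else 0 := ⟨_, rfl⟩
  have hb0 : 0 ≤ b := by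
    rw [hb]
    split_ifs
    · exact hc'.le
    · exact le_rfl
  -- if `d = 0` the two terms are equal at `1`
  have hvals : d = 0 → pv (Qw + d) = 2 * Fw D v 1 / (Qw.factorial * Real.pi ^ (Qw + 1)) ∧
      pw Qw = 2 * Fw D w 1 / (Qw.factorial * Real.pi ^ (Qw + 1)) := by
    rintro rfl
    have e1 := pQ_val h hn hv (by omega : (D.leaves v).card = Qw + 0 + 2) hpv
    have e2 := pQ_val h hn hw hQw hpw
    try rw [add_zero] at e1
    try rw [add_zero]
    have q2 : (0 : ℝ) < Qw.factorial := by exact_mod_cast Nat.factorial_pos _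
    have r1 : pv Qw = 2 * Fw D v 1 / (Qw.factorial * Real.pi ^ (Qw + 1)) := by
      rw [eq_div_iff (by positivity), ← e1]
      ring
    have r2 : pw Qw = 2 * Fw D w 1 / (Qw.factorial * Real.pi ^ (Qw + 1)) := by
      rw [eq_div_iff (by positivity), ← e2]
      ring
    exact ⟨r1, r2⟩
  have heq : d = 0 → pv (Qw + d) / (2 * muv D v w) * Fw D w 1 = pw Qw / (2 * muv D v w) *
      Fw D v 1 := by
    intro hd
    obtain ⟨r1, r2⟩ := hvals hd
    rw [r1, r2]
    ring
  refine ⟨{
    e := fun k => ee pv (Qw + d) (sq D w) (muv D v w) (nuv D v w) k +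
          (if d ≤ k then ee pw Qw (sq D v) (muv D w v) (nuv D w v) (k - d) else 0)
    s := (range (Qw + d + 1)).disjSum (range (Qw + 1))
    f := Sum.elim (fW D w) (fW D v)
    R := Sum.elim R fun i => Polynomial.C (1 / dq (Qw + d) d) * Polynomial.X ^ (2 * d) * S i
    M := 2 * (lf D w * lf D v)
    F := fun z => pv (Qw + d) / (2 * muv D v w) * Fw D w z + b * Fw D v z
    e_pos := ?_
    expand := expand_tie h hn hv hw hvw hP hA hA' hp hp'
    M_pos := ?_
    nice := ?_
    per := ?_
    deg := ?_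
    series := ?_
    const := ?_
    pole := ?_
    hF := fun x => (analyticAt_const.mul (analyticAt_Fw D w x)).add
      (analyticAt_const.mul (analyticAt_Fw D v x))
    par := fun z => ?_
    fac := ?_
    one := add_pos_of_pos_of_nonneg (mul_pos hc f3) (mul_nonneg hb0 g3.le)
    two := add_nonneg (mul_nonneg hc.le f4) (mul_nonneg hb0 g4)
    ne := ?_
    desc := ?_ }⟩
  · refine add_pos_of_pos_of_nonneg (ee_zero_pos h hn hv hw hvw hP.le hposv) ?_
    split_ifs with h0
    · have : 0 - d = 0 := by omega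
      rw [this]
      exact (ee_zero_pos h hn hw hv (Ne.symm hvw) hP.ge hposw).le
    · exact le_rfl
  · have h1 := lf_pos h (by omega : w ≤ D.n)
    have h2 := lf_pos h (by omega : v ≤ D.n)
    have := Nat.mul_pos h1 h2
    omega
  · rintro (i | i) hi
    · exact fW_nice D w hcw i
    · exact fW_nice D v hcv i
  · have key : ∀ (g : ℝ → ℝ) (m : ℕ), (∀ z, g (z + (m : ℝ)) = g z) → ∀ k : ℕ, ∀ z,
        g (z + ((m * k : ℕ) : ℝ)) = g z := by
      intro g m hg k
      induction k with
      | zero => intro z; simp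
      | succ k ih =>
        intro z
        have e1 : z + ((m * (k + 1) : ℕ) : ℝ) = z + ((m * k : ℕ) : ℝ) + (m : ℝ) := by
          push_cast
          ring
        rw [e1, hg, ih]
    rintro (i | i) hi z
    · have h1 := key (fW D w i) (2 * lf D w) (fun z => fW_period h (by omega) i z) (lf D v) z
      rw [(by ring : 2 * lf D w * lf D v = 2 * (lf D w * lf D v))] at h1
      exact h1
    · have h1 := key (fW D v i) (2 * lf D v) (fun z => fW_period h (by omega) i z) (lf D w) z
      rw [(by ring : 2 * lf D v * lf D w = 2 * (lf D w * lf D v))] at h1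
      exact h1
  · rintro (i | i) hi
    · exact hR1 i
    · have h1 : (Polynomial.C (1 / dq (Qw + d) d) * Polynomial.X ^ (2 * d) * S i).natDegree ≤
          2 * d + 2 * Qw := by
        refine Polynomial.natDegree_mul_le.trans (add_le_add ?_ (hS1 i))
        exact Polynomial.natDegree_C_mul_X_pow_le _ _
      refine h1.trans (by omega)
  · filter_upwards [hR3, hS3] with T hT hT'
    have h1 := hT.add (shift_series (d := d) hT')
    rw [sum_disjSum]
    simp only [Sum.elim_inl, Sum.elim_inr]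
    have e1 : (fun k => (ee pv (Qw + d) (sq D w) (muv D v w) (nuv D v w) k +
        (if d ≤ k then ee pw Qw (sq D v) (muv D w v) (nuv D w v) (k - d) else 0)) /
          dq (Qw + d) k * T ^ (2 * k)) = fun k =>
        ee pv (Qw + d) (sq D w) (muv D v w) (nuv D v w) k / dq (Qw + d) k * T ^ (2 * k) +
        (if d ≤ k then ee pw Qw (sq D v) (muv D v w) (nuv D v w) (k - d) else 0) /
          dq (Qw + d) k * T ^ (2 * k) := by
      funext k
      rw [hms, hns]
      ring
    have e2 : ∑ i ∈ range (Qw + 1), (Polynomial.eval T (Polynomial.C (1 / dq (Qw + d) d) *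
        Polynomial.X ^ (2 * d) * S i) * fW D v i (muv D v w + nuv D v w * T) +
        Polynomial.eval (-T) (Polynomial.C (1 / dq (Qw + d) d) * Polynomial.X ^ (2 * d) * S i) *
          fW D v i (muv D v w - nuv D v w * T)) =
        1 / dq (Qw + d) d * T ^ (2 * d) * ∑ i ∈ range (Qw + 1), ((S i).eval T *
          fW D v i (muv D v w + nuv D v w * T) + (S i).eval (-T) *
            fW D v i (muv D v w - nuv D v w * T)) := by
      rw [mul_sum]
      refine sum_congr rfl fun i _ => ?_
      simp only [Polynomial.eval_mul, Polynomial.eval_C, Polynomial.eval_pow, Polynomial.eval_X]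
      rw [(even_two_mul d).neg_pow]
      ring
    rw [e1, e2]
    exact h1
  · intro z
    rw [sum_disjSum]
    simp only [Sum.elim_inl, Sum.elim_inr]
    rw [sum_const hR0 hR0', fW_zero]
    rcases Nat.eq_zero_or_pos d with rfl | hd
    · have e1 : ∀ i, (Polynomial.C (1 / dq (Qw + 0) 0) * Polynomial.X ^ (2 * 0) * S i).coeff 0 =
          (S i).coeff 0 := by
        intro i
        simp [dq]
      simp only [e1]
      rw [sum_const hS0 hS0', fW_zero, hb, if_pos rfl]
      have e2 : (D.leaves v).card - 1 = (D.leaves w).card - 1 := by omega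
      rw [e2]
      ring
    · have e1 : ∀ i, (Polynomial.C (1 / dq (Qw + d) d) * Polynomial.X ^ (2 * d) * S i).coeff 0 =
          0 := by
        intro i
        rw [mul_assoc, Polynomial.coeff_C_mul, Polynomial.coeff_X_pow_mul', if_neg (by omega),
          mul_zero]
      simp only [e1, zero_mul, sum_const_zero, add_zero]
      rw [hb, if_neg (by omega)]
      ring
  · obtain ⟨c, hc0, hlim⟩ := two_poles h hn hv hw hQ hQw hμ hμ1 hν hpv hpw
      (a := fun i => (R i).coeff (2 * (Qw + d)))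
      (a' := fun i => 1 / dq (Qw + d) d * (S i).coeff (2 * Qw)) hR2 (by rw [hS2])
    refine ⟨Qw + 1 + (Qw + d), _, c, by omega, hc0, hlim.congr fun T => ?_⟩
    rw [sum_disjSum]
    simp only [Sum.elim_inl, Sum.elim_inr]
    have e1 : ∀ i, (Polynomial.C (1 / dq (Qw + d) d) * Polynomial.X ^ (2 * d) * S i).coeff
        (2 * (Qw + d)) = 1 / dq (Qw + d) d * (S i).coeff (2 * Qw) := by
      intro i
      rw [mul_assoc, Polynomial.coeff_C_mul, Polynomial.coeff_X_pow_mul', if_pos (by omega),
        (by omega : 2 * (Qw + d) - 2 * d = 2 * Qw)]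
    simp only [e1]
  · rcases Nat.eq_zero_or_pos d with rfl | hd
    · have e2 : (D.leaves v).card - 1 = (D.leaves w).card - 1 := by omega
      rw [e2] at g1
      rw [f1, g1]
      ring
    · rw [hb, if_neg (by omega), f1]
      ring
  · rcases Nat.eq_zero_or_pos d with rfl | hd
    · have e2 : (D.leaves v).card - 1 = (D.leaves w).card - 1 := by omega
      rw [e2] at hG2'
      refine ⟨fun z => pv (Qw + 0) / (2 * muv D v w) * G z + b * G' z,
        fun x => (analyticAt_const.mul (hG1 x)).add (analyticAt_const.mul (hG1' x)), fun z => ?_⟩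
      rw [hG2, hG2']
      ring
    · refine ⟨fun z => pv (Qw + d) / (2 * muv D v w) * G z,
        fun x => analyticAt_const.mul (hG1 x), fun z => ?_⟩
      rw [hb, if_neg (by omega), hG2]
      ring
  · rcases Nat.eq_zero_or_pos d with rfl | hd
    · have e3 := heq rfl
      intro h0
      apply hcp rfl
      try simp only at h0
      rw [hb, if_pos rfl, f6, g6] at h0
      obtain ⟨Y, hY⟩ : ∃ Y, Y = pv (Qw + 0) / (2 * muv D v w) * Fw D w 1 := ⟨_, rfl⟩
      have hYp : 0 < Y := by
        rw [hY]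
        exact mul_pos hc f3
      have h1 : Y * (cp (D.leaves w) + cp (D.leaves v)) = Y * 2 := by
        have e4 : Y = pw Qw / (2 * muv D v w) * Fw D v 1 := by rw [hY, e3]
        have e5 : Y * cp (D.leaves w) + Y * cp (D.leaves v) = Y + Y := by
          nth_rewrite 1 [hY]
          nth_rewrite 2 [hY]
          nth_rewrite 1 [e4]
          nth_rewrite 1 [e4]
          linear_combination h0
        linear_combination e5
      exact mul_left_cancel₀ hYp.ne' h1
    · rw [hb, if_neg (by omega)]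
      simp only [zero_mul, add_zero]
      exact fun h0 => f5 (mul_left_cancel₀ hc.ne' h0)
  · rcases Nat.eq_zero_or_pos d with rfl | hd
    · right
      refine ⟨hP, by omega, pv (Qw + 0) / (2 * muv D v w) * (lf D w / Real.pi),
        pw Qw / (2 * muv D v w) * (lf D v / Real.pi), by positivity, by positivity,
        fun z => ?_, ?_, ?_⟩
      · rw [hb, if_pos rfl, Fw, Fw]
        ring
      · rw [(hvals rfl).1, Fw, ← lf_mul_side h hn hv hw hvw]
        field_simp
        rw [Nat.add_zero]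
        ring
      · rw [(hvals rfl).2, Fw, ← lf_mul_side h hn hv hw hvw]
        field_simp
        rw [Nat.add_zero]
        ring
    · left
      refine ⟨Or.inr (by omega), pv (Qw + d) / (2 * muv D v w) * (lf D w / Real.pi),
        by positivity, fun z => ?_⟩
      rw [hb, if_neg (by omega), Fw]
      ring

end Pool.Agent.Zk79.LN
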