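import Pool.Agent.Zk79.LN.Sep3

set_option autoImplicit false
set_option maxHeartbeats 400000

/-! Both halves of the sum, for nodes with equal products. -/

namespace Pool.Agent.Zk79.LN

open Finset Pool.Agent.Zk79.LM Pool.Agent.Zk79.LM.Diagram PowerSeries Filter Topology Asymptotics

theorem be_add (d k n Qw : ℕ) : be (d + k) (n + (Qw + d)) = be d (n + (Qw + d)) * be k (n + Qw) := by
  unfold be
  rw [prod_range_add]
  congr 1
  refine prod_congr rfl fun t _ => ?_
  congr 2
  push_cast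
  ring

theorem rf_add (d Qw : ℕ) (x : ℝ) :
    rf (Qw + d) x = rf Qw x * ∏ t ∈ range d, (2 * x + 3 + 2 * ((Qw : ℝ) + t)) := by
  unfold rf
  rw [prod_range_add]
  congr 1
  refine prod_congr rfl fun t _ => ?_
  push_cast
  ring

theorem be_eq (d Qw n : ℕ) : be d (n + (Qw + d)) =
    (∏ t ∈ range d, (2 * (n : ℝ) + 3 + 2 * ((Qw : ℝ) + t)))⁻¹ := by
  unfold be
  rw [← prod_range_reflect, ← prod_inv_distrib]
  refine prod_congr rfl fun t ht => ?_
  have h1 := mem_range.1 ht
  rw [one_div]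
  congr 1
  have h2 : ((d - 1 - t : ℕ) : ℝ) = (d : ℝ) - 1 - t := by
    rw [Nat.cast_sub (by omega), Nat.cast_sub (by omega)]
    simp
  rw [h2]
  push_cast
  ring

theorem rf_div (d Qw n : ℕ) : rf Qw n / rf (Qw + d) n = be d (n + (Qw + d)) := by
  rw [rf_add, be_eq, div_mul_eq_div_div, div_self (rf_pos Qw (Nat.cast_nonneg n)).ne', one_div]

theorem be_bigO {s K : ℕ} (hs : K ≤ s) (Q : ℕ) :
    (fun n : ℕ => be s (n + Q)) =O[atTop] fun n : ℕ => ((n : ℝ) ^ K)⁻¹ := by
  refine IsBigO.of_bound 1 ?_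
  filter_upwards [eventually_ge_atTop (2 * s + 1)] with n hn
  have h0 : (1 : ℝ) ≤ n := by exact_mod_cast (by omega : 1 ≤ n)
  have h1 : 0 ≤ be s (n + Q) := (be_pos (by omega)).le
  rw [one_mul, Real.norm_eq_abs, abs_of_nonneg h1, Real.norm_eq_abs,
    abs_of_nonneg (by positivity : (0 : ℝ) ≤ ((n : ℝ) ^ K)⁻¹)]
  have h2 : be s (n + Q) ≤ ∏ _t ∈ range s, (1 / (n : ℝ)) := by
    unfold be
    refine prod_le_prod (fun t ht => ?_) fun t ht => ?_
    · have h1 := mem_range.1 ht
      have h2 : (t : ℝ) ≤ ((n + Q : ℕ) : ℝ) := by exact_mod_cast (by omega : t ≤ n + Q)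
      have : 0 ≤ 2 * (((n + Q : ℕ) : ℝ) - t) + 1 := by linarith
      positivity
    · have h1 := mem_range.1 ht
      refine one_div_le_one_div_of_le (by linarith) ?_
      have h3 : 2 * (t : ℝ) ≤ n := by exact_mod_cast (by omega : 2 * t ≤ n)
      push_cast
      have : (0 : ℝ) ≤ Q := Nat.cast_nonneg Q
      linarith
  rw [prod_const, card_range] at h2
  refine h2.trans ?_
  rw [one_div, inv_pow]
  exact inv_anti₀ (by positivity) (pow_le_pow_right₀ h0 hs)

theorem dq_add (d Qw k : ℕ) : dq (Qw + d) (d + k) = dq (Qw + d) d * dq Qw k := by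
  unfold dq
  rw [prod_range_add]
  congr 1
  refine prod_congr rfl fun t _ => ?_
  push_cast
  ring

theorem dq_ne' (Q s : ℕ) : dq Q s ≠ 0 := by
  refine prod_ne_zero_iff.2 fun t _ => ?_
  intro h0
  have h1 : ((2 * t + 1 : ℕ) : ℝ) = ((2 * Q : ℕ) : ℝ) := by
    push_cast
    linarith
  have h2 : 2 * t + 1 = 2 * Q := by exact_mod_cast h1
  omega

/-- shifted expansions -/
theorem shift_expand {G : ℕ → ℝ} {c : ℕ → ℝ} {d Qw : ℕ} (h : ∀ K : ℕ,
    (fun n : ℕ => G n / rf Qw n - ∑ k ∈ range K, c k * be k (n + Qw)) =O[atTop]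
      fun n : ℕ => ((n : ℝ) ^ K)⁻¹) (K : ℕ) :
    (fun n : ℕ => G n / rf (Qw + d) n - ∑ k ∈ range K, (if d ≤ k then c (k - d) else 0) *
      be k (n + (Qw + d))) =O[atTop] fun n : ℕ => ((n : ℝ) ^ K)⁻¹ := by
  have h1 : (fun n : ℕ => (G n / rf Qw n - ∑ k ∈ range K, c k * be k (n + Qw)) *
      be d (n + (Qw + d))) =O[atTop] fun n : ℕ => ((n : ℝ) ^ K)⁻¹ := by
    have h2 := (h K).mul (be_bigO (Nat.zero_le d) (Qw + d))
    simpa using h2
  have h3 : (fun n : ℕ => ∑ k ∈ Ico K (K + d), (if d ≤ k then c (k - d) else 0) *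
      be k (n + (Qw + d))) =O[atTop] fun n : ℕ => ((n : ℝ) ^ K)⁻¹ := by
    refine IsBigO.fun_sum fun k hk => ?_
    exact (be_bigO (mem_Ico.1 hk).1 (Qw + d)).const_mul_left _
  refine (h1.add h3).congr_left fun n => ?_
  have h4 : G n / rf (Qw + d) n = G n / rf Qw n * be d (n + (Qw + d)) := by
    rw [← rf_div]
    have := (rf_pos Qw (Nat.cast_nonneg n)).ne'
    field_simp
  have h5 : (∑ k ∈ range K, c k * be k (n + Qw)) * be d (n + (Qw + d)) =
      ∑ k ∈ range (K + d), (if d ≤ k then c (k - d) else 0) * be k (n + (Qw + d)) := by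
    rw [add_comm K d, sum_range_add, sum_mul]
    rw [sum_eq_zero (s := range d), zero_add]
    · refine sum_congr rfl fun k _ => ?_
      rw [if_pos (by omega), be_add, (by omega : d + k - d = k)]
      ring
    · intro k hk
      have := mem_range.1 hk
      rw [if_neg (by omega), zero_mul]
  have h6 := sum_range_add_sum_Ico (fun k => (if d ≤ k then c (k - d) else 0) *
    be k (n + (Qw + d))) (by omega : K ≤ K + d)
  rw [h4, sub_mul, h5, ← h6]
  ring

/-- shifted series -/
theorem shift_series {c : ℕ → ℝ} {d Qw : ℕ} {T S : ℝ}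
    (h : HasSum (fun k => c k / dq Qw k * T ^ (2 * k)) S) :
    HasSum (fun k => (if d ≤ k then c (k - d) else 0) / dq (Qw + d) k * T ^ (2 * k))
      (1 / dq (Qw + d) d * T ^ (2 * d) * S) := by
  have h1 := h.mul_left (1 / dq (Qw + d) d * T ^ (2 * d))
  have hinj : Function.Injective (fun k : ℕ => d + k) := fun x y h => by
    simp only at h
    omega
  refine (hinj.hasSum_iff (fun l hl => ?_)).1 ?_
  · have : ¬ d ≤ l := fun h0 => hl ⟨l - d, by simp only; omega⟩
    rw [if_neg this]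
    simp
  · have h2 : ((fun k => (if d ≤ k then c (k - d) else 0) / dq (Qw + d) k * T ^ (2 * k)) ∘
        fun k => d + k) = fun i => 1 / dq (Qw + d) d * T ^ (2 * d) *
          (c i / dq Qw i * T ^ (2 * i)) := by
      funext k
      simp only [Function.comp_apply]
      rw [if_pos (by omega), (by omega : d + k - d = k), dq_add]
      have e1 := dq_ne' (Qw + d) d
      have e2 := dq_ne' Qw k
      field_simp
      ring
    rw [h2]
    exact h1

variable {D D' : Diagram}

/-- the expansion of the sum for equal products -/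
theorem expand_tie (h : D.IsSplice) (hn : D.n = 1) {v w d Qw : ℕ} (hv : v ≤ 1) (hw : w ≤ 1)
    (hvw : v ≠ w) (hP : D.P w = D.P v) {pv pw : ℕ → ℝ} {A A' : ℝ} (hA : 0 ≤ A) (hA' : 0 ≤ A')
    (hpv : ∀ i : ℕ, |sq D v i - ∑ r ∈ range (Qw + d + 1), pv r * rf r i| ≤ A * (1 / 2) ^ i)
    (hpw : ∀ i : ℕ, |sq D w i - ∑ r ∈ range (Qw + 1), pw r * rf r i| ≤ A' * (1 / 2) ^ i) (K : ℕ) :
    (fun n : ℕ => GG D v w n / rf (Qw + d) n - ∑ k ∈ range K,
        (ee pv (Qw + d) (sq D w) (muv D v w) (nuv D v w) k +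
          (if d ≤ k then ee pw Qw (sq D v) (muv D w v) (nuv D w v) (k - d) else 0)) *
            be k (n + (Qw + d))) =O[atTop]
      fun n : ℕ => ((n : ℝ) ^ K)⁻¹ := by
  have h3 := half3 h hn hv hw hvw hP.le hA hpv (fun n => n / 2) (fun n => by omega)
    (fun n => by omega) K
  have h4 := shift_expand (d := d) (half3 h hn hw hv (Ne.symm hvw) hP.ge hA' hpw
    (fun n => (n - 1) / 2) (fun n => by omega) (fun n => by omega)) K
  refine (h3.add h4).congr' ?_ EventuallyEq.rfl
  filter_upwards [eventually_ge_atTop 1] with n hn1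
  rw [GG_split]
  have h5 : ∑ j ∈ Ico (n / 2 + 1) (n + 1), sq D v (n - j) * sq D w j *
      mm (muv D v w) (nuv D v w) n j = ∑ i ∈ range ((n - 1) / 2 + 1), sq D w (n - i) * sq D v i *
      mm (muv D w v) (nuv D w v) n i := by
    refine sum_nbij' (fun j => n - j) (fun i => n - i) ?_ ?_ ?_ ?_ ?_
    · intro j hj
      rw [mem_Ico] at hj
      rw [mem_range]
      omega
    · intro i hi
      rw [mem_range] at hi
      rw [mem_Ico]
      omega
    · intro j hj
      rw [mem_Ico] at hj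
      omega
    · intro i hi
      rw [mem_range] at hi
      omega
    · intro j hj
      rw [mem_Ico] at hj
      have h6 := mm_swap h hn hv hw hvw hP (n - j) j
      rw [(by omega : n - j + j = n)] at h6
      rw [h6, (by omega : n - (n - j) = j)]
      ring
  rw [h5]
  simp_rw [add_mul]
  rw [sum_add_distrib]
  ring

end Pool.Agent.Zk79.LN
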