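import Pool.Agent.Zk79.LN.Law
import Pool.Agent.Zk11.LN.Jm
import Pool.Agent.Zk79.LM.Fin

set_option autoImplicit false
set_option maxHeartbeats 400000

/-! Diagrams with two nodes. -/

namespace Pool.Agent.Zk79.LN

open Finset MeasureTheory ProbabilityTheory Pool.Agent.Zk79.LM
  Pool.Agent.Zk79.LM.Diagram PowerSeries

/-- the weight of the edge between the two nodes at the node `v` -/
def ed (D : Diagram) (v : ℕ) : ℕ := if v = 0 then D.down 1 else D.up 1

/-- the product of the weights of the edges from `v` to leaves -/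
def lf (D : Diagram) (v : ℕ) : ℕ := ∏ a ∈ D.leaves v, a

variable {D : Diagram}

theorem children_zero (h : D.IsSplice) (hn : D.n = 1) : D.children 0 = {1} := by
  ext c
  rw [mem_children, Finset.mem_singleton, hn]
  constructor
  · rintro ⟨h1, _⟩
    omega
  · rintro rfl
    have := h.parent_lt 1 (by omega) (by omega)
    exact ⟨by omega, by omega⟩

theorem children_one (h : D.IsSplice) (hn : D.n = 1) : D.children 1 = ∅ := by
  ext c
  rw [mem_children, hn]
  constructor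
  · rintro ⟨h1, h2⟩
    have := h.parent_lt c (by omega) (by omega)
    omega
  · intro h1
    exact absurd h1 (notMem_empty c)

theorem P_two (h : D.IsSplice) (hn : D.n = 1) {v : ℕ} (hv : v ≤ 1) : D.P v = lf D v * ed D v := by
  rw [P_eq]
  obtain rfl | rfl : v = 0 ∨ v = 1 := by omega
  · rw [children_zero h hn]
    simp [upw, lf, ed]
  · rw [children_one h hn]
    simp [upw, lf, ed]

theorem valence_two (h : D.IsSplice) (hn : D.n = 1) {v : ℕ} (hv : v ≤ 1) :
    D.valence v = (D.leaves v).card + 1 := by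
  rw [valence_eq]
  obtain rfl | rfl : v = 0 ∨ v = 1 := by omega
  · rw [children_zero h hn]
    simp
  · rw [children_one h hn]
    simp

theorem lf_pos (h : D.IsSplice) {v : ℕ} (hv : v ≤ D.n) : 1 ≤ lf D v := leafprod_pos h hv

theorem ed_pos (h : D.IsSplice) (hn : D.n = 1) (v : ℕ) : 1 ≤ ed D v := by
  unfold ed
  split_ifs
  · exact down_pos h (by omega) (by omega)
  · exact up_pos h (by omega) (by omega)

theorem lk_two (h : D.IsSplice) (hn : D.n = 1) {v w : ℕ} (hv : v ≤ 1) (hw : w ≤ 1) (hvw : v ≠ w) :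
    D.lk v w = lf D v * lf D w := by
  have h1 : D.lk 1 0 = lf D 1 * lf D 0 := by
    have hp := h.parent_lt 1 (by omega) (by omega)
    have e1 : (1 : ℝ) ≤ D.up 1 := by exact_mod_cast up_pos h (by omega) (by omega : 1 ≤ D.n)
    have e2 : (1 : ℝ) ≤ D.down 1 := by exact_mod_cast down_pos h (by omega) (by omega : 1 ≤ D.n)
    rw [lk_lt h (by omega) (by omega), (by omega : D.parent 1 = 0), lk_self, ratio,
      P_two h hn (by omega), P_two h hn (by omega)]
    have e3 : ed D 0 = D.down 1 := by simp [ed]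
    have e4 : ed D 1 = D.up 1 := by simp [ed]
    rw [e3, e4]
    push_cast
    field_simp
  obtain ⟨rfl, rfl⟩ | ⟨rfl, rfl⟩ : (v = 0 ∧ w = 1) ∨ (v = 1 ∧ w = 0) := by omega
  · rw [lk_symm h (by omega) (by omega), h1, mul_comm]
  · exact h1

theorem det_two (h : D.IsSplice) (hn : D.n = 1) {v w : ℕ} (hv : v ≤ 1) (hw : w ≤ 1) (hvw : v ≠ w) :
    lf D v * lf D w < ed D v * ed D w := by
  have h1 := h.det 1 (by omega) (by omega)
  have hp := h.parent_lt 1 (by omega) (by omega)
  rw [(by omega : D.parent 1 = 0), P_two h hn (by omega), P_two h hn (by omega)] at h1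
  have e3 : ed D 0 = D.down 1 := by simp [ed]
  have e4 : ed D 1 = D.up 1 := by simp [ed]
  rw [e3, e4] at h1
  have hu := up_pos h (by omega) (by omega : 1 ≤ D.n)
  have hd := down_pos h (by omega) (by omega : 1 ≤ D.n)
  have h2 : lf D 1 * lf D 0 < D.up 1 * D.down 1 := by
    by_contra hcon
    push Not at hcon
    have : (D.up 1 * D.down 1) * (D.up 1 * D.down 1) ≤
      (lf D 1 * lf D 0) * (D.up 1 * D.down 1) := Nat.mul_le_mul_right _ hcon
    nlinarith
  obtain ⟨rfl, rfl⟩ | ⟨rfl, rfl⟩ : (v = 0 ∧ w = 1) ∨ (v = 1 ∧ w = 0) := by omega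
  · rw [e3, e4, mul_comm, mul_comm (D.down 1)]
    exact h2
  · rw [e3, e4]
    exact h2

theorem muv_two (h : D.IsSplice) (hn : D.n = 1) {v w : ℕ} (hv : v ≤ 1) (hw : w ≤ 1) (hvw : v ≠ w) :
    muv D v w = lf D w / ed D v := by
  unfold muv
  rw [lk_two h hn hv hw hvw, P_two h hn hv]
  have h1 : (1 : ℝ) ≤ lf D v := by exact_mod_cast lf_pos h (by omega)
  have h2 : (1 : ℝ) ≤ ed D v := by exact_mod_cast ed_pos h hn v
  push_cast
  field_simp

theorem muv_pos (h : D.IsSplice) (hn : D.n = 1) {v w : ℕ} (hv : v ≤ 1) (hw : w ≤ 1) (hvw : v ≠ w) :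
    0 < muv D v w := by
  rw [muv_two h hn hv hw hvw]
  have h1 : (1 : ℝ) ≤ lf D w := by exact_mod_cast lf_pos h (by omega)
  have h2 : (1 : ℝ) ≤ ed D v := by exact_mod_cast ed_pos h hn v
  positivity

theorem sub_pos_two (h : D.IsSplice) (hn : D.n = 1) {v w : ℕ} (hv : v ≤ 1) (hw : w ≤ 1)
    (hvw : v ≠ w) : 0 < (D.P w : ℝ) / D.P v - muv D v w ^ 2 := by
  rw [muv_two h hn hv hw hvw, P_two h hn hv, P_two h hn hw]
  have h1 : (1 : ℝ) ≤ lf D w := by exact_mod_cast lf_pos h (by omega)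
  have h2 : (1 : ℝ) ≤ ed D v := by exact_mod_cast ed_pos h hn v
  have h3 : (1 : ℝ) ≤ lf D v := by exact_mod_cast lf_pos h (by omega)
  have h4 : (1 : ℝ) ≤ ed D w := by exact_mod_cast ed_pos h hn w
  have h5 : (lf D v : ℝ) * lf D w < ed D v * ed D w := by exact_mod_cast det_two h hn hv hw hvw
  push_cast
  rw [sub_pos, div_pow, div_lt_div_iff₀ (by positivity) (by positivity)]
  have h6 : (0 : ℝ) < lf D w * ed D v := by positivity
  nlinarith

theorem nuv_pos (h : D.IsSplice) (hn : D.n = 1) {v w : ℕ} (hv : v ≤ 1) (hw : w ≤ 1) (hvw : v ≠ w) :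
    0 < nuv D v w := Real.sqrt_pos.2 (sub_pos_two h hn hv hw hvw)

theorem sq_add_sq (h : D.IsSplice) (hn : D.n = 1) {v w : ℕ} (hv : v ≤ 1) (hw : w ≤ 1)
    (hvw : v ≠ w) : muv D v w ^ 2 + nuv D v w ^ 2 = (D.P w : ℝ) / D.P v := by
  unfold nuv
  rw [Real.sq_sqrt (sub_pos_two h hn hv hw hvw).le]
  ring

theorem cases_two (hn : D.n = 1) {v w : Fin (D.n + 1)} (hvw : v ≠ w) (x : Fin (D.n + 1)) :
    ¬ (x ≠ v ∧ x ≠ w) := by
  rintro ⟨h1, h2⟩
  have h3 : (x : ℕ) ≠ v := fun h => h1 (Fin.ext h)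
  have h4 : (x : ℕ) ≠ w := fun h => h2 (Fin.ext h)
  have h5 : (v : ℕ) ≠ w := fun h => hvw (Fin.ext h)
  have := x.2
  have := v.2
  have := w.2
  omega

theorem coeff_YY_two (hn : D.n = 1) {v w : Fin (D.n + 1)} (hvw : v ≠ w) (s : Fin (D.n + 1) → ℝ)
    (k : ℕ) : coeff k (YY D s) = ∑ j ∈ range (k + 1),
      coeff (k - j) (yy D v) * coeff j (yy D w) * (s v ^ (k - j) * s w ^ j) := by
  unfold YY
  rw [Fintype.prod_eq_mul v w hvw fun x h => absurd h (cases_two hn hvw x), mul_comm, coeff_mul,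
    Finset.Nat.sum_antidiagonal_eq_sum_range_succ_mk]
  refine sum_congr rfl fun j _ => ?_
  rw [coeff_rescale, coeff_rescale]
  ring

theorem integrable_joint (v w : Fin (D.n + 1)) (i j : ℕ) :
    Integrable (fun x : Sp D.n => nsq x v ^ i * nsq x w ^ j) D.gauss := by
  have h1 : MemLp id ((2 * (i + j) : ℕ) : ENNReal) D.gauss :=
    IsGaussian.memLp_id _ _ (ENNReal.natCast_ne_top _)
  refine h1.integrable_norm_pow'.mono' (((continuous_nsq v).pow i).mul
    ((continuous_nsq w).pow j)).aestronglyMeasurable ?_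
  filter_upwards with x
  rw [Real.norm_eq_abs, abs_of_nonneg (mul_nonneg (pow_nonneg (nsq_nonneg x v) i)
    (pow_nonneg (nsq_nonneg x w) j)), pow_mul, pow_add]
  refine mul_le_mul (pow_le_pow_left₀ (nsq_nonneg x v) ?_ i)
    (pow_le_pow_left₀ (nsq_nonneg x w) ?_ j) (pow_nonneg (nsq_nonneg x w) j) (by positivity)
  · rw [id, norm_sq_eq]
    exact single_le_sum (f := fun v => nsq x v) (fun v _ => nsq_nonneg x v) (mem_univ v)
  · rw [id, norm_sq_eq]
    exact single_le_sum (f := fun v => nsq x v) (fun v _ => nsq_nonneg x v) (mem_univ w)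

theorem int_joint (h : D.IsSplice) (hn : D.n = 1) {v w : Fin (D.n + 1)} (hvw : v ≠ w) (i j : ℕ) :
    ∫ x : Sp D.n, nsq x v ^ i * nsq x w ^ j ∂D.gauss =
      ((D.P v : ℝ) / 2) ^ (i + j) * mom (i + j) * mm (muv D v w) (nuv D v w) (i + j) j := by
  have hvw' : (v : ℕ) ≠ w := fun h => hvw (Fin.ext h)
  rw [law_two h hn hvw (sub_pos_two h hn (by omega) (by omega) hvw').le,
    integral_map (f := fun x : Sp D.n => nsq x v ^ i * nsq x w ^ j)
      (continuous_Phi D v w).aemeasurable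
      (((continuous_nsq v).pow i).mul ((continuous_nsq w).pow j)).aestronglyMeasurable]
  have e1 : ∀ p : E3 × E3, nsq (Phi D v w p) v ^ i * nsq (Phi D v w p) w ^ j =
      ((D.P v : ℝ) / 2) ^ (i + j) *
        (‖p.1‖ ^ (2 * i) * ‖muv D v w • p.1 + nuv D v w • p.2‖ ^ (2 * j)) := by
    intro p
    rw [nsq_Phi_v hvw, nsq_Phi_w hvw, mul_pow, mul_pow, pow_mul, pow_mul, pow_add]
    ring
  simp_rw [e1]
  rw [integral_const_mul, joint_moment, mul_assoc]

theorem coeff_two (h : D.IsSplice) (hn : D.n = 1) {v w : Fin (D.n + 1)} (hvw : v ≠ w) (k : ℕ) :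
    |coeff k D.gaussSeries| = ((D.P v : ℝ) / 2) ^ k * mom k * ∑ j ∈ range (k + 1),
      coeff (k - j) (yy D v) * coeff j (yy D w) * mm (muv D v w) (nuv D v w) k j := by
  rw [abs_coeff_eq h]
  simp_rw [coeff_YY_two hn hvw]
  rw [integral_finsetSum _ fun j _ => (integrable_joint v w (k - j) j).const_mul _, mul_sum]
  refine sum_congr rfl fun j hj => ?_
  have hj' : k - j + j = k := by
    have := mem_range.1 hj
    omega
  rw [integral_const_mul, int_joint h hn hvw, hj']
  ring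

end Pool.Agent.Zk79.LN
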