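import Pool.Agent.Zk79.LN.Lim

set_option autoImplicit false
set_option maxHeartbeats 400000

/-! The values of the limits. -/

namespace Pool.Agent.Zk79.LN

open Finset Pool.Agent.Zk79.LM Pool.Agent.Zk79.LM.Diagram PowerSeries Filter Topology

variable {D : Diagram}

theorem tendsto_sin_one : Tendsto (fun z : ℝ => (1 - z) / Real.sin (Real.pi * z)) (𝓝[<] 1)
    (𝓝 (1 / Real.pi)) := by
  have h1 : HasDerivAt (fun z : ℝ => Real.sin (Real.pi * z))
      (Real.cos (Real.pi * 1) * (Real.pi * 1)) 1 :=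
    (Real.hasDerivAt_sin _).comp (1 : ℝ) ((hasDerivAt_id _).const_mul Real.pi)
  have h2 := (hasDerivAt_iff_tendsto_slope.1 h1).mono_left
    (nhdsWithin_mono (1 : ℝ) (fun z (hz : z < 1) => (ne_of_lt hz : z ≠ 1)))
  rw [mul_one, Real.cos_pi] at h2
  have hne : -1 * Real.pi ≠ 0 := by
    have := Real.pi_pos
    linarith
  have h3 := (h2.inv₀ hne).neg
  have e1 : -(-1 * Real.pi)⁻¹ = 1 / Real.pi := by
    have := Real.pi_ne_zero
    field_simp
  rw [e1] at h3
  refine h3.congr fun z => ?_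
  rw [slope_def_field, mul_one, Real.sin_pi, sub_zero, inv_div, ← neg_div, neg_sub]

theorem tendsto_gf (D : Diagram) (v : ℕ) :
    Tendsto (fun z : ℝ => (1 - z) ^ ((D.leaves v).card - 1) * gf D v z) (𝓝[<] 1)
      (𝓝 ((∏ a ∈ D.leaves v, Real.sin (Real.pi / a)) * (1 / Real.pi) ^ ((D.leaves v).card - 1))) := by
  have h1 : Tendsto (fun z : ℝ => ∏ a ∈ D.leaves v, Real.sin (Real.pi * z / a)) (𝓝[<] 1)
      (𝓝 (∏ a ∈ D.leaves v, Real.sin (Real.pi / a))) := by
    have h2 : Continuous fun z : ℝ => ∏ a ∈ D.leaves v, Real.sin (Real.pi * z / a) := by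
      fun_prop
    have h3 := h2.tendsto 1
    simp only [mul_one] at h3
    exact h3.mono_left nhdsWithin_le_nhds
  have h2 := h1.mul (tendsto_sin_one.pow ((D.leaves v).card - 1))
  refine h2.congr fun z => ?_
  rw [gf, div_pow]
  ring

theorem leaf_sin_pos (h : D.IsSplice) {v : ℕ} (hv : v ≤ D.n) {a : ℕ} (ha : a ∈ D.leaves v) :
    0 < Real.sin (Real.pi / a) := by
  have h2 : (2 : ℝ) ≤ a := by exact_mod_cast h.two_le v hv a ha
  have hp := Real.pi_pos
  refine Real.sin_pos_of_pos_of_lt_pi (by positivity) ?_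
  rw [div_lt_iff₀ (by linarith)]
  nlinarith

/-- `r_v` -/
noncomputable def rr (D : Diagram) (v : ℕ) : ℝ :=
  2 * lf D v / Real.pi ^ 2 * ∏ a ∈ D.leaves v, Real.sin (Real.pi / a)

theorem hasSum_sq (h : D.IsSplice) (hn : D.n = 1) {v : ℕ} (hv : v ≤ 1) {z : ℝ} (hz : |z| < 1) :
    HasSum (fun j => sq D v j * z ^ (2 * j + 1)) (lf D v / Real.pi * gf D v z) :=
  hasSum_node h hn hv hz

theorem hasSum_odd {z : ℝ} (hz : |z| < 1) :
    HasSum (fun j : ℕ => z ^ (2 * j + 1)) (z / (1 - z ^ 2)) := by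
  have h1 : |z ^ 2| < 1 := by
    rw [abs_pow]
    exact pow_lt_one₀ (abs_nonneg z) hz two_ne_zero
  have h2 := (hasSum_geometric_of_abs_lt_one h1).mul_left z
  have e1 : (fun j : ℕ => z ^ (2 * j + 1)) = fun j => z * (z ^ 2) ^ j := by
    funext j
    rw [pow_succ, pow_mul]
    ring
  rw [e1, div_eq_mul_inv]
  exact h2

theorem lim_eq (h : D.IsSplice) (hn : D.n = 1) {v : ℕ} (hv : v ≤ 1) (hc : (D.leaves v).card = 2)
    {r A : ℝ} (hA : 0 ≤ A) (hr : ∀ i, |sq D v i - r| ≤ A * (1 / 2) ^ i) : r = rr D v := by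
  have hgeo : Summable fun i : ℕ => A * (1 / 2 : ℝ) ^ i :=
    (summable_geometric_of_lt_one (by norm_num) (by norm_num)).mul_left A
  have h1 : Tendsto (fun z : ℝ => (1 - z) * (lf D v / Real.pi * gf D v z)) (𝓝[<] 1)
      (𝓝 (rr D v / 2)) := by
    have h2 := (tendsto_gf D v).const_mul ((lf D v : ℝ) / Real.pi)
    rw [hc] at h2
    have e1 : (2 - 1 : ℕ) = 1 := rfl
    rw [e1, pow_one] at h2
    have e2 : (lf D v : ℝ) / Real.pi * ((∏ a ∈ D.leaves v, Real.sin (Real.pi / a)) *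
        (1 / Real.pi)) = rr D v / 2 := by
      unfold rr
      have := Real.pi_ne_zero
      field_simp
    rw [e2] at h2
    refine h2.congr fun z => ?_
    rw [pow_one]
    ring
  have h3 : Tendsto (fun z : ℝ => (1 - z) * (lf D v / Real.pi * gf D v z)) (𝓝[<] 1)
      (𝓝 (r / 2)) := by
    have h4 : Tendsto (fun z : ℝ => r * (z / (1 + z))) (𝓝[<] 1) (𝓝 (r / 2)) := by
      have h5 : ContinuousAt (fun z : ℝ => r * (z / (1 + z))) 1 := by
        refine ContinuousAt.mul continuousAt_const (ContinuousAt.div continuousAt_id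
          (by fun_prop) (by norm_num))
      have h6 := h5.tendsto
      have e : r * ((1 : ℝ) / (1 + 1)) = r / 2 := by ring
      rw [e] at h6
      exact h6.mono_left nhdsWithin_le_nhds
    have h5 : Tendsto (fun z : ℝ => (1 - z) * (∑' i : ℕ, A * (1 / 2 : ℝ) ^ i)) (𝓝[<] 1) (𝓝 0) := by
      have h6 : Continuous fun z : ℝ => (1 - z) * (∑' i : ℕ, A * (1 / 2 : ℝ) ^ i) := by fun_prop
      have h7 := h6.tendsto 1
      rw [sub_self, zero_mul] at h7
      exact h7.mono_left nhdsWithin_le_nhds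
    have h6 : Tendsto (fun z : ℝ => (1 - z) * (lf D v / Real.pi * gf D v z) -
        r * (z / (1 + z))) (𝓝[<] 1) (𝓝 0) := by
      refine squeeze_zero_norm' ?_ h5
      have hmem : Set.Ioo (0 : ℝ) 1 ∈ 𝓝[<] (1 : ℝ) := Ioo_mem_nhdsLT (by norm_num)
      filter_upwards [hmem] with z hz
      have hz1 : |z| < 1 := by
        rw [abs_of_pos hz.1]
        exact hz.2
      have h7 := (hasSum_sq h hn hv hz1).sub ((hasSum_odd hz1).mul_left r)
      have h8 : (1 - z) * (lf D v / Real.pi * gf D v z) - r * (z / (1 + z)) =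
          (1 - z) * (lf D v / Real.pi * gf D v z - r * (z / (1 - z ^ 2))) := by
        have e1 : 1 - z ^ 2 = (1 - z) * (1 + z) := by ring
        have e2 : 1 - z ≠ 0 := by
          have := hz.2
          intro h0
          linarith
        have e3 : 1 + z ≠ 0 := by
          have := hz.1
          intro h0
          linarith
        rw [e1]
        field_simp
      rw [h8, norm_mul, Real.norm_eq_abs, abs_of_pos (by linarith [hz.2] : 0 < 1 - z),
        Real.norm_eq_abs, ← h7.tsum_eq]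
      refine mul_le_mul_of_nonneg_left ?_ (by linarith [hz.2])
      have h9 : ∀ j : ℕ, ‖sq D v j * z ^ (2 * j + 1) - r * z ^ (2 * j + 1)‖ ≤
          A * (1 / 2) ^ j := by
        intro j
        rw [← sub_mul, norm_mul, Real.norm_eq_abs, Real.norm_eq_abs,
          abs_of_nonneg (pow_nonneg hz.1.le _)]
        refine (mul_le_of_le_one_right (abs_nonneg _) (pow_le_one₀ hz.1.le hz.2.le)).trans (hr j)
      rw [← Real.norm_eq_abs]
      exact tsum_of_norm_bounded hgeo.hasSum h9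
    have h7 := h6.add h4
    rw [zero_add] at h7
    refine h7.congr fun z => ?_
    ring
  have h4 := tendsto_nhds_unique h1 h3
  linarith

theorem sq_lim (h : D.IsSplice) (hn : D.n = 1) {v : ℕ} (hv : v ≤ 1) (hc : (D.leaves v).card = 2) :
    ∃ A : ℝ, 0 ≤ A ∧ ∀ i, |sq D v i - rr D v| ≤ A * (1 / 2) ^ i := by
  have hval := valence_two h hn hv
  obtain ⟨r, A, hA, hr⟩ := exists_lim (D := D) v (by omega)
  have := lim_eq h hn hv hc hA hr
  rw [this] at hr
  exact ⟨A, hA, hr⟩

/-- for larger valence the coefficients are unbounded -/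
theorem sq_unbounded (h : D.IsSplice) (hn : D.n = 1) {v : ℕ} (hv : v ≤ 1)
    (hc : 3 ≤ (D.leaves v).card) (C : ℝ) : ∃ i, C < sq D v i := by
  by_contra hcon
  push Not at hcon
  obtain ⟨q, hq⟩ : ∃ q, (D.leaves v).card - 1 = q + 1 := ⟨(D.leaves v).card - 2, by omega⟩
  have hq1 : q ≠ 0 := by omega
  have hC : 0 ≤ C := (sq_nonneg' h (by omega : v ≤ D.n) 0).trans (hcon 0)
  have h2 := (tendsto_gf D v).const_mul ((lf D v : ℝ) / Real.pi)
  rw [hq] at h2
  have hlf : (1 : ℝ) ≤ lf D v := by exact_mod_cast lf_pos h (by omega : v ≤ D.n)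
  have hpos : 0 < (lf D v : ℝ) / Real.pi * ((∏ a ∈ D.leaves v, Real.sin (Real.pi / a)) *
      (1 / Real.pi) ^ (q + 1)) := by
    have h3 : 0 < ∏ a ∈ D.leaves v, Real.sin (Real.pi / a) :=
      prod_pos fun a ha => leaf_sin_pos h (by omega) ha
    have := Real.pi_pos
    positivity
  have h3 : Tendsto (fun z : ℝ => C * (1 - z) ^ q) (𝓝[<] 1) (𝓝 0) := by
    have h6 : Continuous fun z : ℝ => C * (1 - z) ^ q := by fun_prop
    have h7 := h6.tendsto 1
    rw [sub_self, zero_pow hq1, mul_zero] at h7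
    exact h7.mono_left nhdsWithin_le_nhds
  refine absurd (le_of_tendsto_of_tendsto h2 h3 ?_) (not_le.2 hpos)
  have hmem : Set.Ioo (0 : ℝ) 1 ∈ 𝓝[<] (1 : ℝ) := Ioo_mem_nhdsLT (by norm_num)
  filter_upwards [hmem] with z hz
  have hz1 : |z| < 1 := by
    rw [abs_of_pos hz.1]
    exact hz.2
  have h4 : (lf D v : ℝ) / Real.pi * gf D v z ≤ C * (z / (1 - z ^ 2)) :=
    hasSum_le (fun j => mul_le_mul_of_nonneg_right (hcon j) (pow_nonneg hz.1.le _))
      (hasSum_sq h hn hv hz1) ((hasSum_odd hz1).mul_left C)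
  have h5 : z / (1 - z ^ 2) ≤ 1 / (1 - z) := by
    have e1 : 1 - z ^ 2 = (1 - z) * (1 + z) := by ring
    rw [e1, div_le_div_iff₀ (mul_pos (by linarith [hz.2]) (by linarith [hz.1]))
      (by linarith [hz.2])]
    nlinarith [hz.1, hz.2]
  have h6 : 0 < 1 - z := by linarith [hz.2]
  calc (lf D v : ℝ) / Real.pi * ((1 - z) ^ (q + 1) * gf D v z) =
      (1 - z) ^ (q + 1) * (lf D v / Real.pi * gf D v z) := by ring
    _ ≤ (1 - z) ^ (q + 1) * (C * (1 / (1 - z))) := by
        refine mul_le_mul_of_nonneg_left (h4.trans ?_) (by positivity)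
        exact mul_le_mul_of_nonneg_left h5 hC
    _ = C * (1 - z) ^ q := by
        field_simp
        ring

end Pool.Agent.Zk79.LN
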